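import Pool.Agent.Q42.RS.Clt
import Pool.Agent.TH893.CL.Black
import Pool.Agent.H382R2.SqFree

/-!
# The Möbius and the Liouville function
-/

set_option autoImplicit false

namespace Pool.Agent.Q42.RS

open Finset
open Pool.Agent.TH823.MRS (pol nu nu_eq Sm ExpoSmall)
open Pool.Agent.H373R2.T7 (exI)

lemma sum_Ico_sub {E : Type*} [AddCommGroup E] (f : ℕ → E) {Y X : ℕ} (h : Y ≤ X) (hY : 1 ≤ Y) :
    ∑ n ∈ Ico Y X, f n = ∑ n ∈ Icc 1 (X - 1), f n - ∑ n ∈ Icc 1 (Y - 1), f n := by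
  have h1 : ∀ Z : ℕ, 1 ≤ Z → Icc 1 (Z - 1) = Ico 1 Z := by
    intro Z hZ
    ext n
    simp only [mem_Icc, mem_Ico]
    omega
  rw [h1 X (by omega), h1 Y hY, ← sum_Ico_consecutive f hY h]
  abel

/-- decorrelation of almost all pairs of shifts from exponential sums with slowly varying weights -/
theorem pair_of (f : ℕ → ℝ) (hf : ∀ n, |f n| ≤ 1) (hE : ExpoSmall (fun n => ((f n : ℝ) : ℂ))) (ε : ℝ) (hε : 0 < ε) :
    ∃ N₀ : ℕ, ∀ X Y : ℕ, N₀ ≤ X → N₀ ≤ Y → Y ≤ X → Pair f X Y ε := by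
  classical
  have hfn : ∀ n, ‖((f n : ℝ) : ℂ)‖ ≤ 1 := fun n => by
    rw [Complex.norm_real]
    exact hf n
  have hdeg : (Polynomial.X : Polynomial ℤ).natDegree = 1 := Polynomial.natDegree_X
  obtain ⟨H₁, N₁, h1⟩ := pol (fun n => ((f n : ℝ) : ℂ)) hfn hE 3 1 (ε / 5) (by positivity)
    Polynomial.X hdeg.ge 1
  obtain ⟨N₂, hN₂⟩ := exists_nat_ge (5 / ε)
  refine ⟨H₁ + N₁ + N₂ + 1, fun X Y hX hY hYX => ?_⟩
  have hX0 : (0 : ℝ) < X := by exact_mod_cast (by omega : 0 < X)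
  have hY0 : (0 : ℝ) < Y := by exact_mod_cast (by omega : 0 < Y)
  have h2 := h1 X Y (by omega) (by omega) hYX Y (by rw [hdeg]; simp) (by rw [hdeg]; simp) (fun _ => 1) (fun _ => 0)
    (fun _ n => ((f n : ℝ) : ℂ)) (fun _ => le_rfl) (fun _ => by positivity) (fun _ n => hfn n)
  rw [nu_eq] at h2
  set Bad : Finset ℕ := (Icc 1 Y).filter (fun m => ¬ Sm (fun n => ((f n : ℝ) : ℂ)) 1 3 X (ε / 5) (fun _ => 1) (fun _ => 0)
    (fun _ n => ((f n : ℝ) : ℂ)) (Polynomial.eval (m : ℤ) Polynomial.X)) with hBad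
  -- good distances
  have hgood : ∀ a m : ℕ, a < Y → 1 ≤ m → m ≤ Y → m ∉ Bad →
      |∑ x ∈ Ico X (2 * X), f (x + a) * f (x + a + m)| ≤ 2 * (ε / 5) * X := by
    intro a m ha hm hmY hmB
    have hS : Sm (fun n => ((f n : ℝ) : ℂ)) 1 3 X (ε / 5) (fun _ => 1) (fun _ => 0)
        (fun _ n => ((f n : ℝ) : ℂ)) (Polynomial.eval (m : ℤ) Polynomial.X) := by
      by_contra hno
      exact hmB (by rw [hBad, mem_filter, mem_Icc]; exact ⟨⟨hm, hmY⟩, hno⟩)
    rw [Polynomial.eval_X] at hS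
    have key : ∀ Z : ℕ, Z ≤ 3 * X → ‖∑ n ∈ Icc 1 Z, ((f n * f (n + m) : ℝ) : ℂ)‖ ≤ ε / 5 * X := by
      intro Z hZ
      have h3 := hS 0 Z (by simpa using hZ)
      refine le_trans (le_of_eq ?_) h3
      congr 1
      apply sum_congr rfl
      intro n hn
      have hn1 := (mem_Icc.1 hn).1
      unfold exI
      have e : ((1 : ℕ) : ℤ) * (n : ℤ) + 0 + (m : ℤ) = ((n + m : ℕ) : ℤ) := by push_cast; ring
      rw [e, if_pos (by exact_mod_cast (by omega : 1 ≤ n + m)), Int.toNat_natCast]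
      push_cast
      rfl
    have h4 : ∑ x ∈ Ico X (2 * X), f (x + a) * f (x + a + m) = ∑ n ∈ Ico (X + a) (2 * X + a), f n * f (n + m) := by
      rw [← sum_Ico_add' (fun n => f n * f (n + m)) X (2 * X) a]
    rw [h4]
    have h5 := sum_Ico_sub (fun n => ((f n * f (n + m) : ℝ) : ℂ)) (Y := X + a) (X := 2 * X + a) (by omega) (by omega)
    have h6 : ‖∑ n ∈ Ico (X + a) (2 * X + a), ((f n * f (n + m) : ℝ) : ℂ)‖ ≤ 2 * (ε / 5) * X := by
      rw [h5]
      refine (norm_sub_le _ _).trans ?_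
      have := key (2 * X + a - 1) (by omega)
      have := key (X + a - 1) (by omega)
      linarith
    rw [← Complex.ofReal_sum, Complex.norm_real, Real.norm_eq_abs] at h6
    exact h6
  have htriv : ∀ a b : ℕ, |∑ x ∈ Ico X (2 * X), f (x + a) * f (x + b)| ≤ X := by
    intro a b
    refine (abs_sum_le_sum_abs _ _).trans ?_
    calc _ ≤ ∑ x ∈ Ico X (2 * X), (1 : ℝ) := by
          refine sum_le_sum fun x _ => ?_
          rw [abs_mul]
          exact mul_le_one₀ (hf _) (abs_nonneg _) (hf _)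
      _ = X := by rw [sum_const, nsmul_eq_mul, mul_one, card_I]
  have hpt : ∀ a ∈ range Y, ∀ b ∈ range Y, |∑ x ∈ Ico X (2 * X), f (x + a) * f (x + b)| ≤
      2 * (ε / 5) * X + X * (if a = b then 1 else 0) + X * (if a < b ∧ b - a ∈ Bad then 1 else 0) +
        X * (if b < a ∧ a - b ∈ Bad then 1 else 0) := by
    intro a ha b hb
    rw [mem_range] at ha hb
    have hε2 : 0 ≤ 2 * (ε / 5) * X := by positivity
    have i1 : (0 : ℝ) ≤ X * (if a = b then 1 else 0) := by split_ifs <;> simp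
    have i2 : (0 : ℝ) ≤ X * (if a < b ∧ b - a ∈ Bad then 1 else 0) := by split_ifs <;> simp
    have i3 : (0 : ℝ) ≤ X * (if b < a ∧ a - b ∈ Bad then 1 else 0) := by split_ifs <;> simp
    rcases lt_trichotomy a b with h | h | h
    · by_cases hB : b - a ∈ Bad
      · have := htriv a b
        have e : (X : ℝ) * (if a < b ∧ b - a ∈ Bad then 1 else 0) = X := by rw [if_pos ⟨h, hB⟩, mul_one]
        linarith
      · have := hgood a (b - a) ha (by omega) (by omega) hB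
        have e : ∀ x, x + a + (b - a) = x + b := fun x => by omega
        simp_rw [e] at this
        linarith
    · have := htriv a b
      have e : (X : ℝ) * (if a = b then 1 else 0) = X := by rw [if_pos h, mul_one]
      linarith
    · by_cases hB : a - b ∈ Bad
      · have := htriv a b
        have e : (X : ℝ) * (if b < a ∧ a - b ∈ Bad then 1 else 0) = X := by rw [if_pos ⟨h, hB⟩, mul_one]
        linarith
      · have := hgood b (a - b) hb (by omega) (by omega) hB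
        have e : ∀ x, x + b + (a - b) = x + a := fun x => by omega
        simp_rw [e] at this
        have e2 : ∑ x ∈ Ico X (2 * X), f (x + a) * f (x + b) = ∑ x ∈ Ico X (2 * X), f (x + b) * f (x + a) :=
          sum_congr rfl fun x _ => mul_comm _ _
        rw [e2]
        linarith
  have hc1 : ∀ a ∈ range Y, ∑ b ∈ range Y, (if a = b then (1 : ℝ) else 0) ≤ 1 := by
    intro a _
    rw [sum_ite_eq]
    split_ifs <;> norm_num
  have hc2 : ∀ a ∈ range Y, ∑ b ∈ range Y, (if a < b ∧ b - a ∈ Bad then (1 : ℝ) else 0) ≤ Bad.card := by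
    intro a _
    rw [← sum_filter, sum_const, nsmul_eq_mul, mul_one]
    apply Nat.cast_le.2
    apply card_le_card_of_injOn (fun b => b - a)
    · intro b hb
      simp only [coe_filter, mem_range, Set.mem_setOf_eq] at hb
      exact hb.2.2
    · intro b hb c hc h
      simp only [coe_filter, mem_range, Set.mem_setOf_eq] at hb hc
      simp only at h
      omega
  have hc3 : ∀ a ∈ range Y, ∑ b ∈ range Y, (if b < a ∧ a - b ∈ Bad then (1 : ℝ) else 0) ≤ Bad.card := by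
    intro a _
    rw [← sum_filter, sum_const, nsmul_eq_mul, mul_one]
    apply Nat.cast_le.2
    apply card_le_card_of_injOn (fun b => a - b)
    · intro b hb
      simp only [coe_filter, mem_range, Set.mem_setOf_eq] at hb
      exact hb.2.2
    · intro b hb c hc h
      simp only [coe_filter, mem_range, Set.mem_setOf_eq] at hb hc
      simp only at h
      omega
  have hBc : (Bad.card : ℝ) ≤ ε / 5 * Y := h2
  have hrow : ∀ a ∈ range Y, ∑ b ∈ range Y, |∑ x ∈ Ico X (2 * X), f (x + a) * f (x + b)| ≤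
      Y * (2 * (ε / 5) * X) + X + X * (ε / 5 * Y) + X * (ε / 5 * Y) := by
    intro a ha
    refine (sum_le_sum fun b hb => hpt a ha b hb).trans ?_
    rw [sum_add_distrib, sum_add_distrib, sum_add_distrib, sum_const, card_range, nsmul_eq_mul, ← mul_sum, ← mul_sum,
      ← mul_sum]
    have j1 := mul_le_mul_of_nonneg_left (hc1 a ha) hX0.le
    have j2 := mul_le_mul_of_nonneg_left ((hc2 a ha).trans hBc) hX0.le
    have j3 := mul_le_mul_of_nonneg_left ((hc3 a ha).trans hBc) hX0.le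
    linarith
  unfold Pair
  refine (sum_le_sum hrow).trans ?_
  rw [sum_const, card_range, nsmul_eq_mul]
  have hY5 : 5 ≤ ε * Y := by
    have : 5 / ε ≤ Y := hN₂.trans (by exact_mod_cast (by omega : N₂ ≤ Y))
    rw [div_le_iff₀ hε] at this
    linarith
  have hXY : (0 : ℝ) < Y * X := by positivity
  nlinarith [mul_le_mul_of_nonneg_left hY5 hXY.le]

/-! ### squarefree numbers -/

/-- the real valued Möbius function -/
noncomputable def mu (n : ℕ) : ℝ := ((ArithmeticFunction.moebius n : ℤ) : ℝ)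

lemma mu_abs (n : ℕ) : |mu n| ≤ 1 := by
  unfold mu
  rw [← Int.cast_abs]
  exact_mod_cast ArithmeticFunction.abs_moebius_le_one

lemma mu_hasSum : HasSum (fun n : ℕ => mu n / (n : ℝ) ^ 2) (6 / Real.pi ^ 2) := by
  unfold mu
  have h2 : (1 : ℝ) < (2 : ℂ).re := by norm_num
  have h1 := ArithmeticFunction.LSeries_zeta_mul_Lseries_moebius h2
  rw [ArithmeticFunction.LSeries_zeta_eq_riemannZeta h2, riemannZeta_two] at h1
  have hs := (ArithmeticFunction.LSeriesSummable_moebius_iff (s := 2)).2 h2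
  have hs2 : HasSum (LSeries.term (fun n => ((ArithmeticFunction.moebius n : ℤ) : ℂ)) 2)
    (LSeries (fun n => ((ArithmeticFunction.moebius n : ℤ) : ℂ)) 2) := hs.hasSum
  have hv : LSeries (fun n => ((ArithmeticFunction.moebius n : ℤ) : ℂ)) 2 = ((6 / Real.pi ^ 2 : ℝ) : ℂ) := by
    have hpi : (Real.pi : ℂ) ≠ 0 := by exact_mod_cast Real.pi_ne_zero
    have h3 : LSeries (fun n => ((ArithmeticFunction.moebius n : ℤ) : ℂ)) 2 = ((Real.pi : ℂ) ^ 2 / 6)⁻¹ := by
      apply eq_inv_of_mul_eq_one_right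
      exact h1
    rw [h3]
    push_cast
    rw [inv_div]
  rw [hv] at hs2
  have h4 : (LSeries.term (fun n => ((ArithmeticFunction.moebius n : ℤ) : ℂ)) 2) =
      fun n : ℕ => ((((ArithmeticFunction.moebius n : ℤ) : ℝ) / (n : ℝ) ^ 2 : ℝ) : ℂ) := by
    funext n
    rw [LSeries.term_def]
    split_ifs with h
    · simp [h]
    · push_cast
      congr 1
      norm_cast
  rw [h4] at hs2
  exact Complex.hasSum_ofReal.1 hs2

lemma sq_tail (N M : ℕ) (hN : 1 ≤ N) (hNM : N ≤ M) : ∑ n ∈ Ioc N M, (1 : ℝ) / (n : ℝ) ^ 2 ≤ 1 / N - 1 / M := by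
  induction M, hNM using Nat.le_induction with
  | base => simp
  | succ M hM ih =>
    rw [Finset.sum_Ioc_succ_top (by omega)]
    have hM0 : (0 : ℝ) < M := by exact_mod_cast (by omega : 0 < M)
    have : (1 : ℝ) / ((M + 1 : ℕ) : ℝ) ^ 2 ≤ 1 / M - 1 / ((M + 1 : ℕ) : ℝ) := by
      push_cast
      rw [div_sub_div _ _ hM0.ne' (by positivity), div_le_div_iff₀ (by positivity) (by positivity)]
      nlinarith
    linarith

lemma mu_tail (N : ℕ) (hN : 1 ≤ N) : |(∑ e ∈ Icc 1 N, mu e / (e : ℝ) ^ 2) - 6 / Real.pi ^ 2| ≤ (1 : ℝ) / N := by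
  have h1 := mu_hasSum.tendsto_sum_nat
  have h2 : Filter.Tendsto (fun M : ℕ => |(∑ e ∈ Icc 1 N, mu e / (e : ℝ) ^ 2) - ∑ i ∈ range M, mu i / (i : ℝ) ^ 2|)
      Filter.atTop (nhds |(∑ e ∈ Icc 1 N, mu e / (e : ℝ) ^ 2) - 6 / Real.pi ^ 2|) :=
    (tendsto_const_nhds.sub h1).abs
  apply le_of_tendsto h2
  filter_upwards [Filter.eventually_ge_atTop (N + 1)] with M hM
  obtain ⟨K, rfl⟩ : ∃ K, M = K + 1 := ⟨M - 1, by omega⟩
  have h3 : ∑ i ∈ range (K + 1), mu i / (i : ℝ) ^ 2 = (∑ e ∈ Icc 1 N, mu e / (e : ℝ) ^ 2) +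
      ∑ e ∈ Ioc N K, mu e / (e : ℝ) ^ 2 := by
    have hd : range (K + 1) = insert 0 (Icc 1 N ∪ Ioc N K) := by
      ext x
      simp only [mem_range, mem_insert, mem_union, mem_Icc, mem_Ioc]
      omega
    rw [hd, Finset.sum_insert (by simp), Finset.sum_union]
    · simp
    · rw [Finset.disjoint_left]
      intro x hx hy
      simp only [mem_Icc, mem_Ioc] at hx hy
      omega
  rw [h3]
  have h4 : ∀ a b : ℝ, |a - (a + b)| = |b| := by
    intro a b
    rw [← abs_neg b]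
    congr 1
    ring
  rw [h4]
  refine (Finset.abs_sum_le_sum_abs _ _).trans ?_
  have h5 : ∑ e ∈ Ioc N K, |mu e / (e : ℝ) ^ 2| ≤ ∑ e ∈ Ioc N K, (1 : ℝ) / (e : ℝ) ^ 2 := by
    apply Finset.sum_le_sum
    intro e _
    rw [abs_div, abs_of_nonneg (by positivity : (0 : ℝ) ≤ (e : ℝ) ^ 2)]
    exact div_le_div_of_nonneg_right (mu_abs e) (by positivity)
  have h6 := sq_tail N K hN (by omega)
  have h7 : (0 : ℝ) ≤ 1 / K := by positivity
  linarith

/-- number of multiples of `D` in a window -/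
lemma mult_window (D : ℕ) (hD : 1 ≤ D) (x Y : ℕ) :
    |(((range Y).filter (fun a => D ∣ x + a)).card : ℝ) - Y / D| ≤ 1 := by
  have hD0 : (0 : ℝ) < D := by exact_mod_cast hD
  have h1 : ((range Y).filter (fun a => D ∣ x + a)).card + (x + D - 1) / D = (x + Y + D - 1) / D := by
    induction Y with
    | zero => simp
    | succ Y ih =>
      have e1 : x + (Y + 1) + D - 1 = (x + Y + D - 1) + 1 := by omega
      rw [e1, Nat.succ_div, ← ih, range_add_one, filter_insert]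
      have e2 : x + Y + D - 1 + 1 = x + Y + D := by omega
      rw [e2]
      by_cases h : D ∣ x + Y
      · rw [if_pos h, card_insert_of_notMem (by simp), if_pos (dvd_add h dvd_rfl)]
        omega
      · rw [if_neg h, if_neg (fun h' => h ((Nat.dvd_add_left dvd_rfl).1 h'))]
        omega
  set c := ((range Y).filter (fun a => D ∣ x + a)).card with hc
  set q1 := (x + D - 1) / D with hq1
  set q2 := (x + Y + D - 1) / D with hq2
  have a1 : D * q1 ≤ x + D - 1 := Nat.mul_div_le _ _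
  have a2 : x + D - 1 < D * (q1 + 1) := Nat.lt_mul_div_succ _ (by omega)
  have b1 : D * q2 ≤ x + Y + D - 1 := Nat.mul_div_le _ _
  have b2 : x + Y + D - 1 < D * (q2 + 1) := Nat.lt_mul_div_succ _ (by omega)
  rw [← h1] at b1 b2
  have u1 : D * c ≤ Y + D := by nlinarith [Nat.sub_add_cancel (by omega : 1 ≤ x + D), Nat.sub_add_cancel (by omega : 1 ≤ x + Y + D)]
  have u2 : Y ≤ D * c + D := by nlinarith [Nat.sub_add_cancel (by omega : 1 ≤ x + D), Nat.sub_add_cancel (by omega : 1 ≤ x + Y + D)]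
  have v1 : (D : ℝ) * c ≤ Y + D := by exact_mod_cast u1
  have v2 : (Y : ℝ) ≤ D * c + D := by exact_mod_cast u2
  have e : (c : ℝ) - Y / D = (D * c - Y) / D := by
    field_simp
  rw [e, abs_div, abs_of_pos hD0, div_le_one hD0, abs_le]
  constructor <;> linarith

/-- squarefree numbers in a window -/
lemma mu_window (D X z Y : ℕ) (hD : 1 ≤ D) (hz : D ≤ z) (hzY : z + Y ≤ 3 * X) :
    |∑ a ∈ range Y, mu (z + a) ^ 2 - 6 / Real.pi ^ 2 * Y| ≤ D + (Y : ℝ) / D +
      ∑ a ∈ range Y, ∑ d ∈ Ioc D (3 * X), (if d ^ 2 ∣ z + a then (1 : ℝ) else 0) := by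
  have hD0 : (0 : ℝ) < D := by exact_mod_cast hD
  have e1 : ∀ a ∈ range Y, mu (z + a) ^ 2 = (∑ d ∈ Icc 1 D, if d ^ 2 ∣ z + a then mu d else 0) +
      ∑ d ∈ Ioc D (z + a), if d ^ 2 ∣ z + a then mu d else 0 := by
    intro a _
    have h := SG.moebius_sq_eq (z + a) (by omega)
    unfold mu at *
    rw [h]
    have hsplit : Icc 1 (z + a) = Icc 1 D ∪ Ioc D (z + a) := by
      ext n
      simp only [mem_union, mem_Icc, mem_Ioc]
      omega
    rw [hsplit, sum_union]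
    rw [disjoint_left]
    intro n hn hn'
    rw [mem_Icc] at hn
    rw [mem_Ioc] at hn'
    omega
  rw [sum_congr rfl e1, sum_add_distrib]
  have e2 : ∑ a ∈ range Y, (∑ d ∈ Icc 1 D, if d ^ 2 ∣ z + a then mu d else 0) =
      ∑ d ∈ Icc 1 D, mu d * (((range Y).filter (fun a => d ^ 2 ∣ z + a)).card : ℝ) := by
    rw [sum_comm]
    apply sum_congr rfl
    intro d _
    rw [← sum_filter, sum_const, nsmul_eq_mul, mul_comm]
  have e3 : |(∑ d ∈ Icc 1 D, mu d * (((range Y).filter (fun a => d ^ 2 ∣ z + a)).card : ℝ)) - (∑ d ∈ Icc 1 D, mu d / (d : ℝ) ^ 2) * Y| ≤ D := by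
    rw [sum_mul, ← sum_sub_distrib]
    refine (abs_sum_le_sum_abs _ _).trans ?_
    calc _ ≤ ∑ d ∈ Icc 1 D, (1 : ℝ) := by
          refine sum_le_sum fun d hd => ?_
          have hd1 := (mem_Icc.1 hd).1
          have := mult_window (d ^ 2) (Nat.one_le_pow _ _ hd1) z Y
          have e : mu d * (((range Y).filter (fun a => d ^ 2 ∣ z + a)).card : ℝ) - mu d / (d : ℝ) ^ 2 * Y =
            mu d * ((((range Y).filter (fun a => d ^ 2 ∣ z + a)).card : ℝ) - Y / ((d ^ 2 : ℕ) : ℝ)) := by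
            push_cast
            ring
          rw [e, abs_mul]
          exact mul_le_one₀ (mu_abs d) (abs_nonneg _) this
      _ = D := by rw [sum_const, nsmul_eq_mul, mul_one, Nat.card_Icc]; simp
  have e4 : |(∑ d ∈ Icc 1 D, mu d / (d : ℝ) ^ 2) * Y - 6 / Real.pi ^ 2 * Y| ≤ (Y : ℝ) / D := by
    rw [← sub_mul, abs_mul, abs_of_nonneg (Nat.cast_nonneg (α := ℝ) Y)]
    have := mul_le_mul_of_nonneg_right (mu_tail D hD) (Nat.cast_nonneg (α := ℝ) Y)
    refine this.trans (le_of_eq ?_)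
    ring
  have e5 : |∑ a ∈ range Y, ∑ d ∈ Ioc D (z + a), (if d ^ 2 ∣ z + a then mu d else 0)| ≤
      ∑ a ∈ range Y, ∑ d ∈ Ioc D (3 * X), (if d ^ 2 ∣ z + a then (1 : ℝ) else 0) := by
    refine (abs_sum_le_sum_abs _ _).trans (sum_le_sum fun a ha => ?_)
    refine (abs_sum_le_sum_abs _ _).trans ?_
    have ha' := mem_range.1 ha
    calc _ ≤ ∑ d ∈ Ioc D (z + a), (if d ^ 2 ∣ z + a then (1 : ℝ) else 0) := by
          refine sum_le_sum fun d _ => ?_
          split_ifs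
          · exact mu_abs d
          · simp
      _ ≤ _ := by
          apply sum_le_sum_of_subset_of_nonneg
          · intro d hd
            rw [mem_Ioc] at hd ⊢
            omega
          · intro d _ _
            split_ifs <;> norm_num
  rw [e2]
  have t := abs_add_le ((∑ d ∈ Icc 1 D, mu d * (((range Y).filter (fun a => d ^ 2 ∣ z + a)).card : ℝ)) - (∑ d ∈ Icc 1 D, mu d / (d : ℝ) ^ 2) * Y)
    ((∑ d ∈ Icc 1 D, mu d / (d : ℝ) ^ 2) * Y - 6 / Real.pi ^ 2 * Y)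
  have t2 := abs_add_le (((∑ d ∈ Icc 1 D, mu d * (((range Y).filter (fun a => d ^ 2 ∣ z + a)).card : ℝ)) - (∑ d ∈ Icc 1 D, mu d / (d : ℝ) ^ 2) * Y) +
    ((∑ d ∈ Icc 1 D, mu d / (d : ℝ) ^ 2) * Y - 6 / Real.pi ^ 2 * Y))
    (∑ a ∈ range Y, ∑ d ∈ Ioc D (z + a), (if d ^ 2 ∣ z + a then mu d else 0))
  have e6 : (∑ d ∈ Icc 1 D, mu d * (((range Y).filter (fun a => d ^ 2 ∣ z + a)).card : ℝ)) +
      ∑ a ∈ range Y, ∑ d ∈ Ioc D (z + a), (if d ^ 2 ∣ z + a then mu d else 0) - 6 / Real.pi ^ 2 * Y =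
      ((∑ d ∈ Icc 1 D, mu d * (((range Y).filter (fun a => d ^ 2 ∣ z + a)).card : ℝ)) - (∑ d ∈ Icc 1 D, mu d / (d : ℝ) ^ 2) * Y) +
    ((∑ d ∈ Icc 1 D, mu d / (d : ℝ) ^ 2) * Y - 6 / Real.pi ^ 2 * Y) +
    (∑ a ∈ range Y, ∑ d ∈ Ioc D (z + a), (if d ^ 2 ∣ z + a then mu d else 0)) := by ring
  rw [e6]
  linarith

/-- few numbers have large square divisors -/
lemma mult_tail (D M : ℕ) (hD : 1 ≤ D) (A : Finset ℕ) (hA : ∀ n ∈ A, 1 ≤ n ∧ n ≤ M) :
    ∑ n ∈ A, ∑ d ∈ Ioc D M, (if d ^ 2 ∣ n then (1 : ℝ) else 0) ≤ (M : ℝ) / D := by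
  have hD0 : (0 : ℝ) < D := by exact_mod_cast hD
  rcases lt_or_ge M D with hMD | hMD
  · rw [Ioc_eq_empty (by omega)]
    simp only [sum_empty, sum_const_zero]
    positivity
  rw [sum_comm]
  have h1 : ∀ d ∈ Ioc D M, ∑ n ∈ A, (if d ^ 2 ∣ n then (1 : ℝ) else 0) ≤ M * (1 / (d : ℝ) ^ 2) := by
    intro d hd
    rw [← sum_filter, sum_const, nsmul_eq_mul, mul_one]
    have h2 : (A.filter (fun n => d ^ 2 ∣ n)).card ≤ M / d ^ 2 := by
      rw [← Nat.Ioc_filter_dvd_card_eq_div]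
      apply card_le_card
      intro n hn
      rw [mem_filter] at hn ⊢
      refine ⟨?_, hn.2⟩
      have := hA n hn.1
      rw [mem_Ioc]
      omega
    calc ((A.filter (fun n => d ^ 2 ∣ n)).card : ℝ) ≤ ((M / d ^ 2 : ℕ) : ℝ) := by exact_mod_cast h2
      _ ≤ (M : ℝ) / ((d ^ 2 : ℕ) : ℝ) := Nat.cast_div_le
      _ = _ := by push_cast; ring
  refine (sum_le_sum h1).trans ?_
  rw [← mul_sum]
  have h3 := sq_tail D M hD hMD
  have h4 : (0 : ℝ) ≤ 1 / M := by positivity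
  calc _ ≤ (M : ℝ) * (1 / D) := mul_le_mul_of_nonneg_left (by linarith) (by positivity)
    _ = _ := by ring

/-- squarefree numbers in almost all windows -/
theorem dens_mu (ε : ℝ) (hε : 0 < ε) :
    ∃ N₀ : ℕ, ∀ X Y : ℕ, N₀ ≤ X → N₀ ≤ Y → Y ≤ X → Dens mu (6 / Real.pi ^ 2) X Y ε := by
  obtain ⟨D, hD⟩ := exists_nat_ge (8 / ε + 1)
  obtain ⟨N, hN⟩ := exists_nat_ge (2 * D / ε)
  have hD1 : 1 ≤ D := by
    have : (0 : ℝ) < D := lt_of_lt_of_le (by positivity) hD
    exact_mod_cast this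
  have hD0 : (0 : ℝ) < D := by exact_mod_cast hD1
  refine ⟨D + N + 1, fun X Y hX hY hYX => ?_⟩
  have hX0 : (0 : ℝ) < X := by exact_mod_cast (by omega : 0 < X)
  have hY0 : (0 : ℝ) < Y := by exact_mod_cast (by omega : 0 < Y)
  unfold Dens
  have h1 : ∀ x ∈ Ico X (2 * X), |∑ a ∈ range Y, mu (x + a) ^ 2 - 6 / Real.pi ^ 2 * Y| ≤ D + (Y : ℝ) / D +
      ∑ a ∈ range Y, ∑ d ∈ Ioc D (3 * X), (if d ^ 2 ∣ x + a then (1 : ℝ) else 0) := by
    intro x hx
    rw [mem_Ico] at hx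
    exact mu_window D X x Y hD1 (by omega) (by omega)
  refine (sum_le_sum h1).trans ?_
  rw [sum_add_distrib, sum_comm, sum_const, nsmul_eq_mul, card_I]
  have h2 : ∀ a ∈ range Y, ∑ x ∈ Ico X (2 * X), ∑ d ∈ Ioc D (3 * X), (if d ^ 2 ∣ x + a then (1 : ℝ) else 0) ≤ ((3 * X : ℕ) : ℝ) / D := by
    intro a ha
    rw [mem_range] at ha
    rw [sum_Ico_add' (fun n => ∑ d ∈ Ioc D (3 * X), (if d ^ 2 ∣ n then (1 : ℝ) else 0)) X (2 * X) a]
    apply mult_tail D (3 * X) hD1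
    intro n hn
    rw [mem_Ico] at hn
    omega
  have h3 := sum_le_sum h2
  rw [sum_const, card_range, nsmul_eq_mul] at h3
  push_cast at h3
  have h4 : 8 ≤ ε * D := by
    have : 8 / ε ≤ D := by linarith
    rw [div_le_iff₀ hε] at this
    linarith
  have h5 : 2 * D ≤ ε * Y := by
    have : 2 * D / ε ≤ Y := hN.trans (by exact_mod_cast (by omega : N ≤ Y))
    rw [div_le_iff₀ hε] at this
    linarith
  have h6 : (X : ℝ) * (D + (Y : ℝ) / D) + Y * (3 * X / D) = X * D + 4 * (X * Y / D) := by ring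
  have h7 : (X : ℝ) * Y / D ≤ ε / 8 * (X * Y) := by
    rw [div_le_iff₀ hD0]
    nlinarith [mul_pos hX0 hY0]
  nlinarith [mul_le_mul_of_nonneg_left h5 hX0.le]

end Pool.Agent.Q42.RS
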