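import Mathlib

/-!
# Averages over finite types and over tuples
-/

set_option autoImplicit false

namespace Pool.Agent.Q42.RS

open Finset

/-- average over a finite type -/
noncomputable def av {K : Type} [Field K] {β : Type} [Fintype β] (f : β → K) : K :=
  (∑ b, f b) / (Fintype.card β : K)

section
variable {β γ : Type} [Fintype β] [Fintype γ]

lemma av_add {K : Type} [Field K] (f g : β → K) : av (fun b => f b + g b) = av f + av g := by
  unfold av
  rw [sum_add_distrib, add_div]

lemma av_sub {K : Type} [Field K] (f g : β → K) : av (fun b => f b - g b) = av f - av g := by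
  unfold av
  rw [sum_sub_distrib, sub_div]

lemma av_mul {K : Type} [Field K] (c : K) (f : β → K) : av (fun b => c * f b) = c * av f := by
  unfold av
  rw [← mul_sum, mul_div_assoc]

lemma av_mul_right {K : Type} [Field K] (c : K) (f : β → K) : av (fun b => f b * c) = av f * c := by
  unfold av
  rw [← sum_mul, div_mul_eq_mul_div]

lemma av_sum {K : Type} [Field K] {ι : Type} (s : Finset ι) (f : ι → β → K) :
    av (fun b => ∑ i ∈ s, f i b) = ∑ i ∈ s, av (f i) := by
  unfold av
  rw [sum_comm, sum_div]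

lemma av_comm {K : Type} [Field K] (f : β → γ → K) :
    av (fun b => av (fun c => f b c)) = av (fun c => av (fun b => f b c)) := by
  unfold av
  simp_rw [← sum_div]
  rw [sum_comm, div_div, div_div, mul_comm]

lemma card_ne [Nonempty β] {K : Type} [Field K] [CharZero K] : (Fintype.card β : K) ≠ 0 := by
  have : Fintype.card β ≠ 0 := Fintype.card_ne_zero
  exact_mod_cast this

lemma av_const [Nonempty β] {K : Type} [Field K] [CharZero K] (c : K) : av (fun _ : β => c) = c := by
  unfold av
  rw [sum_const, nsmul_eq_mul, Finset.card_univ, mul_div_assoc, mul_comm, div_mul_cancel₀ _ card_ne]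

lemma av_mono {f g : β → ℝ} (h : ∀ b, f b ≤ g b) : av f ≤ av g := by
  unfold av
  apply div_le_div_of_nonneg_right (sum_le_sum fun b _ => h b) (Nat.cast_nonneg _)

lemma av_nonneg {f : β → ℝ} (h : ∀ b, 0 ≤ f b) : 0 ≤ av f := by
  unfold av
  exact div_nonneg (sum_nonneg fun b _ => h b) (Nat.cast_nonneg _)

lemma av_le [Nonempty β] {f : β → ℝ} {c : ℝ} (h : ∀ b, f b ≤ c) : av f ≤ c :=
  (av_mono h).trans (av_const c).le

lemma norm_av_le (f : β → ℂ) : ‖av f‖ ≤ av (fun b => ‖f b‖) := by
  unfold av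
  rw [norm_div]
  simp only [Complex.norm_natCast]
  exact div_le_div_of_nonneg_right (norm_sum_le _ _) (Nat.cast_nonneg _)

lemma abs_av_le (f : β → ℝ) : |av f| ≤ av (fun b => |f b|) := by
  unfold av
  rw [abs_div, Nat.abs_cast]
  exact div_le_div_of_nonneg_right (abs_sum_le_sum_abs _ _) (Nat.cast_nonneg _)

lemma av_ofReal (f : β → ℝ) : av (fun b => (f b : ℂ)) = ((av f : ℝ) : ℂ) := by
  unfold av
  push_cast
  rfl

/-- Cauchy–Schwarz -/
lemma av_mul_sq (f g : β → ℝ) : (av (fun b => f b * g b)) ^ 2 ≤ av (fun b => f b ^ 2) * av (fun b => g b ^ 2) := by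
  unfold av
  rw [div_pow, div_mul_div_comm, ← sq]
  exact div_le_div_of_nonneg_right (sum_mul_sq_le_sq_mul_sq _ _ _) (sq_nonneg _)

lemma av_sq_le [Nonempty β] (f : β → ℝ) : (av f) ^ 2 ≤ av (fun b => f b ^ 2) := by
  have h := av_mul_sq f (fun _ => 1)
  simp only [mul_one, one_pow] at h
  rwa [av_const, mul_one] at h

lemma abs_av_sqrt [Nonempty β] (f : β → ℝ) : av (fun b => |f b|) ≤ √(av (fun b => f b ^ 2)) := by
  apply Real.le_sqrt_of_sq_le
  refine (av_sq_le _).trans (le_of_eq ?_)
  congr 1
  funext b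
  exact sq_abs _

/-- Markov -/
lemma markov [Nonempty β] {f : β → ℝ} (h : ∀ b, 0 ≤ f b) {t : ℝ} (P : β → Prop) [DecidablePred P]
    (hP : ∀ b, P b → t ≤ f b) : t * ((univ.filter P).card : ℝ) ≤ av f * Fintype.card β := by
  unfold av
  rw [div_mul_cancel₀ _ card_ne]
  calc t * ((univ.filter P).card : ℝ) = ∑ b ∈ univ.filter P, t := by
        rw [sum_const, nsmul_eq_mul, mul_comm]
    _ ≤ ∑ b ∈ univ.filter P, f b := sum_le_sum fun b hb => hP b (mem_filter.1 hb).2
    _ ≤ ∑ b, f b := sum_le_univ_sum_of_nonneg h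

/-! ### tuples -/

lemma sum_cons {M : Type} [AddCommMonoid M] (H : ℕ) (F : (Fin (H + 1) → β) → M) :
    ∑ a, F a = ∑ b : β, ∑ a' : Fin H → β, F (Fin.cons b a') := by
  rw [← (Fin.consEquiv (fun _ : Fin (H + 1) => β)).sum_comp, Fintype.sum_prod_type]
  rfl

lemma av_cons {K : Type} [Field K] (H : ℕ) (F : (Fin (H + 1) → β) → K) :
    av F = av (fun b : β => av (fun a' : Fin H → β => F (Fin.cons b a'))) := by
  unfold av
  rw [sum_cons, ← sum_div, div_div]
  congr 1
  simp only [Fintype.card_pi, prod_const, card_univ, Fintype.card_fin, Nat.cast_pow]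
  rw [pow_succ]

lemma av_prod {K : Type} [Field K] (H : ℕ) (f : β → K) :
    av (fun a : Fin H → β => ∏ i, f (a i)) = (av f) ^ H := by
  unfold av
  rw [div_pow]
  congr 1
  · have h := Finset.prod_univ_sum (fun _ : Fin H => (univ : Finset β)) (fun _ b => f b)
    rw [prod_const, card_univ, Fintype.card_fin, Fintype.piFinset_univ] at h
    exact h.symm
  · simp only [Fintype.card_pi, prod_const, card_univ, Fintype.card_fin, Nat.cast_pow]

end

end Pool.Agent.Q42.RS
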