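import Pool.Agent.Q42.RS.Avg

/-!
# Characteristic functions of sums over random tuples
-/

set_option autoImplicit false

namespace Pool.Agent.Q42.RS

open Finset Complex

lemma taylor (y : ℝ) : ‖cexp (I * y) - (1 + I * y - (y : ℂ) ^ 2 / 2)‖ ≤ 4 * |y| ^ 3 := by
  have hn : ‖I * (y : ℂ)‖ = |y| := by
    rw [norm_mul, norm_I, one_mul, norm_real, Real.norm_eq_abs]
  have hI : (I * (y : ℂ)) ^ 2 = -(y : ℂ) ^ 2 := by
    rw [mul_pow, I_sq]
    ring
  rcases le_or_gt |y| 1 with h | h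
  · have h1 := Complex.exp_bound (x := I * y) (by rw [hn]; exact h) (n := 3) (by norm_num)
    rw [hn] at h1
    have e : ∑ m ∈ range 3, (I * (y : ℂ)) ^ m / (m.factorial : ℂ) = 1 + I * y - (y : ℂ) ^ 2 / 2 := by
      simp only [sum_range_succ, range_zero, sum_empty, pow_zero, Nat.factorial_zero, Nat.cast_one, div_one,
        pow_one, Nat.factorial_one, hI, zero_add]
      norm_num [Nat.factorial]
      ring
    rw [e] at h1
    refine h1.trans ?_
    have h2 : (0 : ℝ) ≤ |y| ^ 3 := by positivity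
    have h3 : (((3 : ℕ).succ : ℕ) : ℝ) * ((((3 : ℕ).factorial : ℕ) : ℝ) * ((3 : ℕ) : ℝ))⁻¹ ≤ 4 := by
      norm_num [Nat.factorial]
    calc |y| ^ 3 * ((((3 : ℕ).succ : ℕ) : ℝ) * ((((3 : ℕ).factorial : ℕ) : ℝ) * ((3 : ℕ) : ℝ))⁻¹) ≤ |y| ^ 3 * 4 :=
          mul_le_mul_of_nonneg_left h3 h2
      _ = _ := mul_comm _ _
  · have h1 : ‖cexp (I * y)‖ = 1 := by
      rw [mul_comm]
      exact norm_exp_ofReal_mul_I y
    have h2 : ‖(1 : ℂ) + I * y - (y : ℂ) ^ 2 / 2‖ ≤ 1 + |y| + |y| ^ 2 / 2 := by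
      refine (norm_sub_le _ _).trans ?_
      refine add_le_add ((norm_add_le _ _).trans ?_) ?_
      · rw [norm_one, hn]
      · rw [norm_div, norm_pow, norm_real, Real.norm_eq_abs]
        norm_num
    refine (norm_sub_le _ _).trans ?_
    rw [h1]
    nlinarith [sq_nonneg (|y| - 1), mul_pos (sub_pos.2 h) (sub_pos.2 h), sq_nonneg |y|, pow_pos (lt_trans one_pos h) 3]

lemma exp_taylor {s : ℝ} (hs : 0 ≤ s) : |Real.exp (-s) - (1 - s)| ≤ s ^ 2 := by
  rcases le_or_gt s 1 with h | h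
  · have h1 := Real.abs_exp_sub_one_sub_id_le (x := -s) (by rw [abs_neg, abs_of_nonneg hs]; exact h)
    have e : Real.exp (-s) - 1 - -s = Real.exp (-s) - (1 - s) := by ring
    rw [e] at h1
    refine h1.trans (le_of_eq ?_)
    ring
  · have h1 := Real.add_one_le_exp (-s)
    have h2 : Real.exp (-s) ≤ 1 := Real.exp_le_one_iff.2 (by linarith)
    rw [abs_of_nonneg (by linarith)]
    nlinarith

lemma exp_lip {a b : ℝ} (ha : 0 ≤ a) (hb : 0 ≤ b) : |Real.exp (-a) - Real.exp (-b)| ≤ |a - b| := by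
  have key : ∀ a b : ℝ, 0 ≤ a → a ≤ b → |Real.exp (-a) - Real.exp (-b)| ≤ |a - b| := by
    intro a b ha hab
    have h1 : Real.exp (-b) ≤ Real.exp (-a) := Real.exp_le_exp.2 (by linarith)
    rw [abs_of_nonneg (by linarith), abs_of_nonpos (by linarith)]
    have e : Real.exp (-b) = Real.exp (-a) * Real.exp (-(b - a)) := by
      rw [← Real.exp_add]
      congr 1
      ring
    rw [e]
    have h2 := Real.add_one_le_exp (-(b - a))
    have h3 : Real.exp (-a) ≤ 1 := Real.exp_le_one_iff.2 (by linarith)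
    have h4 : 0 < Real.exp (-a) := Real.exp_pos _
    nlinarith
  rcases le_total a b with h | h
  · exact key a b ha h
  · rw [abs_sub_comm, abs_sub_comm a b]
    exact key b a hb h

lemma pow_lip {z w : ℂ} (hz : ‖z‖ ≤ 1) (hw : ‖w‖ ≤ 1) (H : ℕ) : ‖z ^ H - w ^ H‖ ≤ H * ‖z - w‖ := by
  induction H with
  | zero => simp
  | succ H ih =>
    have e : z ^ (H + 1) - w ^ (H + 1) = z * (z ^ H - w ^ H) + (z - w) * w ^ H := by ring
    rw [e]
    refine (norm_add_le _ _).trans ?_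
    rw [norm_mul, norm_mul, norm_pow]
    have h1 : ‖w‖ ^ H ≤ 1 := pow_le_one₀ (norm_nonneg _) hw
    have h2 : ‖z‖ * ‖z ^ H - w ^ H‖ ≤ 1 * (H * ‖z - w‖) := mul_le_mul hz ih (norm_nonneg _) zero_le_one
    have h3 : ‖z - w‖ * ‖w‖ ^ H ≤ ‖z - w‖ * 1 := mul_le_mul_of_nonneg_left h1 (norm_nonneg _)
    push_cast
    linarith

section
variable {β ι : Type} [Fintype β] [Nonempty β] [Fintype ι] [Nonempty ι]

lemma norm_ex (y : ℝ) : ‖cexp (I * y)‖ = 1 := by
  rw [mul_comm]
  exact norm_exp_ofReal_mul_I y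

/-- second order expansion of the characteristic function of a centred bounded function -/
lemma cf1 (V : β → ℝ) (B : ℝ) (hB : ∀ b, |V b| ≤ B) (h0 : av V = 0) (τ : ℝ) :
    ‖av (fun b => cexp (I * ((τ * V b : ℝ) : ℂ))) - ((1 - τ ^ 2 * av (fun b => V b ^ 2) / 2 : ℝ) : ℂ)‖ ≤
      4 * |τ| ^ 3 * B ^ 3 := by
  have hB0 : 0 ≤ B := (abs_nonneg _).trans (hB (Classical.arbitrary β))
  have e : ((1 - τ ^ 2 * av (fun b => V b ^ 2) / 2 : ℝ) : ℂ) =
      av (fun b => 1 + I * ((τ * V b : ℝ) : ℂ) - ((τ * V b : ℝ) : ℂ) ^ 2 / 2) := by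
    rw [av_sub, av_add, av_const]
    have e1 : av (fun b => I * ((τ * V b : ℝ) : ℂ)) = 0 := by
      have : (fun b => I * ((τ * V b : ℝ) : ℂ)) = fun b => (I * τ) * ((V b : ℝ) : ℂ) := by
        funext b
        push_cast
        ring
      rw [this, av_mul, av_ofReal, h0]
      simp
    have e2 : av (fun b => ((τ * V b : ℝ) : ℂ) ^ 2 / 2) = ((τ ^ 2 * av (fun b => V b ^ 2) / 2 : ℝ) : ℂ) := by
      have : (fun b => ((τ * V b : ℝ) : ℂ) ^ 2 / 2) = fun b => ((τ : ℂ) ^ 2 / 2) * (((V b) ^ 2 : ℝ) : ℂ) := by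
        funext b
        push_cast
        ring
      rw [this, av_mul, av_ofReal]
      push_cast
      ring
    rw [e1, e2]
    push_cast
    ring
  rw [e, ← av_sub]
  refine (norm_av_le _).trans (av_le fun b => ?_)
  refine (taylor _).trans ?_
  rw [abs_mul, mul_pow, mul_assoc]
  have h1 : |V b| ^ 3 ≤ B ^ 3 := pow_le_pow_left₀ (abs_nonneg _) (hB b) 3
  have h2 : 0 ≤ |τ| ^ 3 := by positivity
  nlinarith [mul_le_mul_of_nonneg_left h1 h2]

lemma m2_le (V : β → ℝ) (B : ℝ) (hB : ∀ b, |V b| ≤ B) : av (fun b => V b ^ 2) ≤ B ^ 2 :=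
  av_le fun b => by
    rw [← sq_abs]
    exact pow_le_pow_left₀ (abs_nonneg _) (hB b) 2

/-- the constants -/
noncomputable def KK (B q T : ℝ) : ℝ := 4 * T ^ 3 * B ^ 3 / (q * √q) + T ^ 4 * B ^ 4 / (4 * q ^ 2)

lemma cf3 (V : β → ℝ) (B : ℝ) (hB : ∀ b, |V b| ≤ B) (h0 : av V = 0) (q : ℝ) (hq : 0 < q) (θ T : ℝ)
    (hθ : |θ| ≤ T) (H : ℕ) (hH : 1 ≤ H) :
    ‖av (fun a : Fin H → β => cexp (I * ((θ * (∑ i, V (a i)) / √(q * H) : ℝ) : ℂ))) -
      ((Real.exp (-(θ ^ 2 * av (fun b => V b ^ 2) / (2 * q))) : ℝ) : ℂ)‖ ≤ KK B q T / √H := by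
  have hB0 : 0 ≤ B := (abs_nonneg _).trans (hB (Classical.arbitrary β))
  have hH0 : (0 : ℝ) < H := by exact_mod_cast hH
  have hH1 : (1 : ℝ) ≤ H := by exact_mod_cast hH
  have hqH : 0 < q * H := by positivity
  set r : ℝ := √(q * H) with hr
  have hr0 : 0 < r := Real.sqrt_pos.2 hqH
  have hr2 : r ^ 2 = q * H := Real.sq_sqrt hqH.le
  set τ : ℝ := θ / r with hτ
  set m : ℝ := av (fun b => V b ^ 2) with hm
  have hm0 : 0 ≤ m := av_nonneg fun b => sq_nonneg _
  have hmB : m ≤ B ^ 2 := m2_le V B hB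
  have e1 : av (fun a : Fin H → β => cexp (I * ((θ * (∑ i, V (a i)) / r : ℝ) : ℂ))) =
      (av (fun b => cexp (I * ((τ * V b : ℝ) : ℂ)))) ^ H := by
    rw [← av_prod]
    congr 1
    funext a
    rw [← Complex.exp_sum]
    congr 1
    rw [hτ, mul_div_right_comm, mul_sum]
    push_cast
    rw [mul_sum]
  have e2 : Real.exp (-(θ ^ 2 * m / (2 * q))) = (Real.exp (-(τ ^ 2 * m / 2))) ^ H := by
    rw [← Real.exp_nat_mul]
    congr 1
    rw [hτ, div_pow, hr2]
    field_simp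
  rw [e1, e2]
  push_cast
  have hz : ‖av (fun b => cexp (I * ((τ * V b : ℝ) : ℂ)))‖ ≤ 1 := by
    refine (norm_av_le _).trans (av_le fun b => ?_)
    rw [norm_ex]
  have hw : ‖((Real.exp (-(τ ^ 2 * m / 2)) : ℝ) : ℂ)‖ ≤ 1 := by
    rw [norm_real, Real.norm_eq_abs, abs_of_pos (Real.exp_pos _)]
    exact Real.exp_le_one_iff.2 (by have : 0 ≤ τ ^ 2 * m / 2 := by positivity
                                    linarith)
  have h1 := pow_lip hz hw H
  have h2 : ‖av (fun b => cexp (I * ((τ * V b : ℝ) : ℂ))) - ((Real.exp (-(τ ^ 2 * m / 2)) : ℝ) : ℂ)‖ ≤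
      4 * |τ| ^ 3 * B ^ 3 + (τ ^ 2 * m / 2) ^ 2 := by
    have h3 := cf1 V B hB h0 τ
    have h4 : ‖((1 - τ ^ 2 * m / 2 : ℝ) : ℂ) - ((Real.exp (-(τ ^ 2 * m / 2)) : ℝ) : ℂ)‖ ≤ (τ ^ 2 * m / 2) ^ 2 := by
      rw [← ofReal_sub, norm_real, Real.norm_eq_abs, abs_sub_comm]
      exact exp_taylor (by positivity)
    calc _ = ‖(av (fun b => cexp (I * ((τ * V b : ℝ) : ℂ))) - ((1 - τ ^ 2 * m / 2 : ℝ) : ℂ)) +
          (((1 - τ ^ 2 * m / 2 : ℝ) : ℂ) - ((Real.exp (-(τ ^ 2 * m / 2)) : ℝ) : ℂ))‖ := by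
            congr 1
            ring
      _ ≤ _ := (norm_add_le _ _).trans (add_le_add h3 h4)
  have h1' : ‖av (fun b => cexp (I * ((τ * V b : ℝ) : ℂ))) ^ H - (((Real.exp (-(τ ^ 2 * m / 2)) : ℝ) : ℂ)) ^ H‖ ≤
      H * (4 * |τ| ^ 3 * B ^ 3 + (τ ^ 2 * m / 2) ^ 2) := h1.trans (mul_le_mul_of_nonneg_left h2 hH0.le)
  have hcast : (((Real.exp (-(τ ^ 2 * m / 2)) : ℝ) : ℂ)) = cexp (-((τ : ℂ) ^ 2 * (m : ℂ) / 2)) := by
    push_cast
    rfl
  rw [hcast] at h1'
  refine le_trans (le_of_eq ?_) (h1'.trans ?_)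
  · push_cast
    rfl
  -- the numerical part
  have hsH : 0 < √(H : ℝ) := Real.sqrt_pos.2 hH0
  have hsH2 : √(H : ℝ) ^ 2 = H := Real.sq_sqrt hH0.le
  have hsq : 0 < √q := Real.sqrt_pos.2 hq
  have hr3 : r = √q * √(H : ℝ) := by rw [hr, Real.sqrt_mul hq.le]
  have hsq2 : √q ^ 2 = q := Real.sq_sqrt hq.le
  have hT0 : 0 ≤ T := (abs_nonneg _).trans hθ
  have t1 : (H : ℝ) * (4 * |τ| ^ 3 * B ^ 3) ≤ 4 * T ^ 3 * B ^ 3 / (q * √q) / √(H : ℝ) := by
    have e3 : (H : ℝ) * (4 * |τ| ^ 3 * B ^ 3) = 4 * |θ| ^ 3 * B ^ 3 / (q * √q) / √(H : ℝ) := by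
      rw [hτ, abs_div, abs_of_pos hr0, hr3, div_pow, mul_pow]
      have : (√q) ^ 3 = q * √q := by rw [pow_succ, hsq2]
      rw [this]
      have h5 : (√(H : ℝ)) ^ 3 = H * √(H : ℝ) := by rw [pow_succ, hsH2]
      rw [h5]
      field_simp
    rw [e3]
    have : |θ| ^ 3 ≤ T ^ 3 := pow_le_pow_left₀ (abs_nonneg _) hθ 3
    gcongr
  have t2 : (H : ℝ) * (τ ^ 2 * m / 2) ^ 2 ≤ T ^ 4 * B ^ 4 / (4 * q ^ 2) / √(H : ℝ) := by
    have e3 : (H : ℝ) * (τ ^ 2 * m / 2) ^ 2 = |θ| ^ 4 * m ^ 2 / (4 * q ^ 2) / H := by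
      have hτ2 : τ ^ 2 = θ ^ 2 / (q * H) := by rw [hτ, div_pow, hr2]
      have h4 : |θ| ^ 4 = θ ^ 4 := by
        rw [show (4 : ℕ) = 2 * 2 by norm_num, pow_mul, pow_mul, sq_abs]
      rw [hτ2, h4]
      field_simp
      ring
    rw [e3]
    have h6 : |θ| ^ 4 ≤ T ^ 4 := pow_le_pow_left₀ (abs_nonneg _) hθ 4
    have h7 : m ^ 2 ≤ B ^ 4 := by
      have := pow_le_pow_left₀ hm0 hmB 2
      refine this.trans (le_of_eq ?_)
      ring
    have h8 : √(H : ℝ) ≤ H := by
      rw [Real.sqrt_le_left hH0.le]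
      nlinarith
    have h9 : |θ| ^ 4 * m ^ 2 ≤ T ^ 4 * B ^ 4 := mul_le_mul h6 h7 (by positivity) (by positivity)
    calc |θ| ^ 4 * m ^ 2 / (4 * q ^ 2) / H ≤ T ^ 4 * B ^ 4 / (4 * q ^ 2) / H := by gcongr
      _ ≤ _ := by gcongr
  unfold KK
  rw [add_div, mul_add]
  exact add_le_add t1 t2

/-- the main bound: the characteristic function of the normalised sums over a random tuple is close to
the Gaussian one in mean square over the tuples -/
theorem cf_main (v : ι → β → ℝ) (B : ℝ) (hB : ∀ x b, |v x b| ≤ B) (h0 : ∀ x, av (v x) = 0) (q : ℝ)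
    (hq : 0 < q) (θ T : ℝ) (hθ : |θ| ≤ T) (H : ℕ) (hH : 1 ≤ H) :
    av (fun a : Fin H → β => ‖av (fun x => cexp (I * ((θ * (∑ i, v x (a i)) / √(q * H) : ℝ) : ℂ))) -
      ((Real.exp (-(θ ^ 2 / 2)) : ℝ) : ℂ)‖ ^ 2) ≤
      (KK (2 * B) q T + 2 * KK B q T) / √H +
        T ^ 2 / q * (2 * av (fun x => |av (fun b => v x b ^ 2) - q|) +
          av (fun x => av (fun y => |av (fun b => v x b * v y b)|))) := by
  set r : ℝ := √(q * H) with hr
  set g : ℂ := ((Real.exp (-(θ ^ 2 / 2)) : ℝ) : ℂ) with hg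
  have hg1 : ‖g‖ ≤ 1 := by
    rw [hg, norm_real, Real.norm_eq_abs, abs_of_pos (Real.exp_pos _)]
    exact Real.exp_le_one_iff.2 (by have : 0 ≤ θ ^ 2 / 2 := by positivity
                                    linarith)
  set F : ι → (Fin H → β) → ℂ := fun x a => cexp (I * ((θ * (∑ i, v x (a i)) / r : ℝ) : ℂ)) with hF
  set s : ι → ℝ := fun x => av (fun b => v x b ^ 2) with hs
  set c : ι → ι → ℝ := fun x y => av (fun b => v x b * v y b) with hc
  set K0 : ℝ := (KK (2 * B) q T + 2 * KK B q T) / √H with hK0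
  have hθT : θ ^ 2 ≤ T ^ 2 := by
    rw [← sq_abs θ]
    exact pow_le_pow_left₀ (abs_nonneg _) hθ 2
  have hs0 : ∀ x, 0 ≤ s x := fun x => av_nonneg fun b => sq_nonneg _
  -- the covariances
  have hcov : ∀ x y, ‖av (fun a => (F x a - g) * ((starRingEnd ℂ) (F y a) - g))‖ ≤
      K0 + T ^ 2 / q * (|s x - q| + |s y - q| + |c x y|) := by
    intro x y
    have e1 : (fun a => (F x a - g) * ((starRingEnd ℂ) (F y a) - g)) =
        fun a => ((F x a * (starRingEnd ℂ) (F y a) - g ^ 2) - g * (F x a - g)) -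
          g * ((starRingEnd ℂ) (F y a) - g) := by
      funext a
      ring
    rw [e1, av_sub, av_sub, av_mul, av_mul]
    have cF : ∀ y a, (starRingEnd ℂ) (F y a) = cexp (I * ((θ * (∑ i, (fun b => -v y b) (a i)) / r : ℝ) : ℂ)) := by
      intro y a
      simp only [hF]
      rw [← Complex.exp_conj]
      congr 1
      simp only [map_mul, conj_I, conj_ofReal, sum_neg_distrib]
      push_cast
      ring
    have cFF : ∀ a, F x a * (starRingEnd ℂ) (F y a) =
        cexp (I * ((θ * (∑ i, (fun b => v x b - v y b) (a i)) / r : ℝ) : ℂ)) := by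
      intro a
      rw [cF]
      simp only [hF]
      rw [← Complex.exp_add]
      congr 1
      simp only [sum_neg_distrib, sum_sub_distrib]
      push_cast
      ring
    have hx := cf3 (v x) B (hB x) (h0 x) q hq θ T hθ H hH
    have hy := cf3 (fun b => -v y b) B (fun b => by rw [abs_neg]; exact hB y b)
      (by
        have := av_mul (-1 : ℝ) (v y)
        rw [h0 y, mul_zero] at this
        rw [← this]
        congr 1
        funext b
        ring) q hq θ T hθ H hH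
    have hxy := cf3 (fun b => v x b - v y b) (2 * B) (fun b => by
        refine (abs_sub _ _).trans ?_
        linarith [hB x b, hB y b]) (by rw [av_sub, h0, h0, sub_zero]) q hq θ T hθ H hH
    have eq2 : av (fun b => (-v y b) ^ 2) = s y := by
      simp only [hs]
      congr 1
      funext b
      ring
    have eq3 : av (fun b => (v x b - v y b) ^ 2) = s x + s y - 2 * c x y := by
      have : (fun b => (v x b - v y b) ^ 2) = fun b => (v x b ^ 2 + v y b ^ 2) - 2 * (v x b * v y b) := by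
        funext b
        ring
      rw [this, av_sub, av_add, av_mul]
    rw [← hr] at hx hy hxy
    rw [eq2] at hy
    rw [eq3] at hxy
    have hm0 : 0 ≤ s x + s y - 2 * c x y := by
      rw [← eq3]
      exact av_nonneg fun b => sq_nonneg _
    -- comparison of Gaussians
    have g1 : ∀ m : ℝ, 0 ≤ m → ∀ m' : ℝ, 0 ≤ m' → ‖((Real.exp (-(θ ^ 2 * m / (2 * q))) : ℝ) : ℂ) -
        ((Real.exp (-(θ ^ 2 * m' / (2 * q))) : ℝ) : ℂ)‖ ≤ T ^ 2 / (2 * q) * |m - m'| := by
      intro m hm m' hm'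
      rw [← ofReal_sub, norm_real, Real.norm_eq_abs]
      refine (exp_lip (by positivity) (by positivity)).trans ?_
      rw [← sub_div, ← mul_sub, mul_div_right_comm, abs_mul, abs_of_nonneg (by positivity)]
      gcongr
    have gx : g = ((Real.exp (-(θ ^ 2 * q / (2 * q))) : ℝ) : ℂ) := by
      rw [hg]
      congr 3
      field_simp
    have gxx : g ^ 2 = ((Real.exp (-(θ ^ 2 * (2 * q) / (2 * q))) : ℝ) : ℂ) := by
      rw [hg, ← ofReal_pow, ← Real.exp_nat_mul]
      congr 2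
      field_simp
      push_cast
      ring
    have a1 : ‖av (fun a => F x a * (starRingEnd ℂ) (F y a) - g ^ 2)‖ ≤
        KK (2 * B) q T / √H + T ^ 2 / (2 * q) * (|s x - q| + |s y - q| + 2 * |c x y|) := by
      rw [av_sub, av_const]
      have e2 : av (fun a => F x a * (starRingEnd ℂ) (F y a)) =
          av (fun a : Fin H → β => cexp (I * ((θ * (∑ i, (fun b => v x b - v y b) (a i)) / r : ℝ) : ℂ))) := by
        congr 1
        funext a
        exact cFF a
      rw [e2]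
      have h3 := g1 _ hm0 (2 * q) (by positivity)
      rw [← gxx] at h3
      have h4 : |s x + s y - 2 * c x y - 2 * q| ≤ |s x - q| + |s y - q| + 2 * |c x y| := by
        have e5 : s x + s y - 2 * c x y - 2 * q = (s x - q) + (s y - q) + (-(2 * c x y)) := by ring
        rw [e5]
        refine (abs_add_three _ _ _).trans ?_
        rw [abs_neg, abs_mul, abs_of_pos (by norm_num : (0 : ℝ) < 2)]
      calc _ = ‖(av (fun a : Fin H → β => cexp (I * ((θ * (∑ i, (fun b => v x b - v y b) (a i)) / r : ℝ) : ℂ))) -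
            ((Real.exp (-(θ ^ 2 * (s x + s y - 2 * c x y) / (2 * q))) : ℝ) : ℂ)) +
            (((Real.exp (-(θ ^ 2 * (s x + s y - 2 * c x y) / (2 * q))) : ℝ) : ℂ) - g ^ 2)‖ := by
              congr 1
              ring
        _ ≤ _ := by
          refine (norm_add_le _ _).trans (add_le_add hxy (h3.trans ?_))
          exact mul_le_mul_of_nonneg_left h4 (by positivity)
    have a2 : ‖av (fun a => F x a - g)‖ ≤ KK B q T / √H + T ^ 2 / (2 * q) * |s x - q| := by
      rw [av_sub, av_const]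
      have h3 := g1 _ (hs0 x) q hq.le
      rw [← gx] at h3
      calc _ = ‖(av (fun a => F x a) - ((Real.exp (-(θ ^ 2 * s x / (2 * q))) : ℝ) : ℂ)) +
            (((Real.exp (-(θ ^ 2 * s x / (2 * q))) : ℝ) : ℂ) - g)‖ := by
              congr 1
              ring
        _ ≤ _ := (norm_add_le _ _).trans (add_le_add hx h3)
    have a3 : ‖av (fun a => (starRingEnd ℂ) (F y a) - g)‖ ≤ KK B q T / √H + T ^ 2 / (2 * q) * |s y - q| := by
      rw [av_sub, av_const]
      have e2 : av (fun a => (starRingEnd ℂ) (F y a)) =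
          av (fun a : Fin H → β => cexp (I * ((θ * (∑ i, (fun b => -v y b) (a i)) / r : ℝ) : ℂ))) := by
        congr 1
        funext a
        exact cF y a
      rw [e2]
      have h3 := g1 _ (hs0 y) q hq.le
      rw [← gx] at h3
      calc _ = ‖(av (fun a : Fin H → β => cexp (I * ((θ * (∑ i, (fun b => -v y b) (a i)) / r : ℝ) : ℂ))) -
            ((Real.exp (-(θ ^ 2 * s y / (2 * q))) : ℝ) : ℂ)) +
            (((Real.exp (-(θ ^ 2 * s y / (2 * q))) : ℝ) : ℂ) - g)‖ := by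
              congr 1
              ring
        _ ≤ _ := (norm_add_le _ _).trans (add_le_add hy h3)
    have b2 : ‖g * av (fun a => F x a - g)‖ ≤ KK B q T / √H + T ^ 2 / (2 * q) * |s x - q| := by
      rw [norm_mul]
      exact (mul_le_of_le_one_left (norm_nonneg _) hg1).trans a2
    have b3 : ‖g * av (fun a => (starRingEnd ℂ) (F y a) - g)‖ ≤ KK B q T / √H + T ^ 2 / (2 * q) * |s y - q| := by
      rw [norm_mul]
      exact (mul_le_of_le_one_left (norm_nonneg _) hg1).trans a3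
    have h9 := (norm_sub_le (av (fun a => F x a * (starRingEnd ℂ) (F y a) - g ^ 2) - g * av (fun a => F x a - g))
      (g * av (fun a => (starRingEnd ℂ) (F y a) - g))).trans
      (add_le_add ((norm_sub_le _ _).trans (add_le_add a1 b2)) b3)
    refine h9.trans (le_of_eq ?_)
    rw [hK0]
    field_simp
    ring
  -- the double average
  have hsq : ∀ a : Fin H → β, ((‖av (fun x => F x a) - g‖ ^ 2 : ℝ) : ℂ) =
      av (fun x => av (fun y => (F x a - g) * ((starRingEnd ℂ) (F y a) - g))) := by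
    intro a
    push_cast
    rw [← Complex.mul_conj']
    have e1 : av (fun x => F x a) - g = av (fun x => F x a - g) := by rw [av_sub, av_const]
    have e2 : (starRingEnd ℂ) (av (fun x => F x a) - g) = av (fun y => (starRingEnd ℂ) (F y a) - g) := by
      rw [av_sub, av_const, map_sub]
      congr 1
      · unfold av
        rw [map_div₀, map_sum, map_natCast]
      · rw [hg, conj_ofReal]
    rw [e2, e1, ← av_mul_right]
    congr 1
    funext x
    rw [← av_mul]
  have h2 : ((av (fun a : Fin H → β => ‖av (fun x => F x a) - g‖ ^ 2) : ℝ) : ℂ) =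
      av (fun x => av (fun y => av (fun a : Fin H → β => (F x a - g) * ((starRingEnd ℂ) (F y a) - g)))) := by
    rw [← av_ofReal]
    simp_rw [hsq]
    rw [av_comm]
    congr 1
    funext x
    rw [av_comm]
  have h3 : av (fun a : Fin H → β => ‖av (fun x => F x a) - g‖ ^ 2) ≤
      av (fun x => av (fun y => K0 + T ^ 2 / q * (|s x - q| + |s y - q| + |c x y|))) := by
    have h4 : av (fun a : Fin H → β => ‖av (fun x => F x a) - g‖ ^ 2) =
        ‖((av (fun a : Fin H → β => ‖av (fun x => F x a) - g‖ ^ 2) : ℝ) : ℂ)‖ := by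
      rw [norm_real, Real.norm_eq_abs, abs_of_nonneg (av_nonneg fun a => by positivity)]
    rw [h4, h2]
    refine (norm_av_le _).trans (av_mono fun x => ?_)
    exact (norm_av_le _).trans (av_mono fun y => hcov x y)
  refine h3.trans (le_of_eq ?_)
  have e5 : ∀ x, av (fun y => K0 + T ^ 2 / q * (|s x - q| + |s y - q| + |c x y|)) =
      K0 + T ^ 2 / q * (|s x - q| + av (fun y => |s y - q|) + av (fun y => |c x y|)) := by
    intro x
    rw [av_add, av_const, av_mul, av_add, av_add, av_const]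
  simp_rw [e5]
  rw [av_add, av_const, av_mul, av_add, av_add, av_const]
  ring

end

end Pool.Agent.Q42.RS
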