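import Mathlib

/-!
# From characteristic functions to distribution functions
-/

set_option autoImplicit false

namespace Pool.Agent.Q42.RS

open Finset MeasureTheory Filter Topology Complex ProbabilityTheory
open scoped ENNReal

/-- the standard normal distribution function -/
noncomputable def Phi (t : ℝ) : ℝ := (1 / √(2 * Real.pi)) * ∫ u in Set.Iic t, Real.exp (-(u ^ 2 / 2))

lemma Phi_eq (t : ℝ) : Phi t = ((gaussianReal 0 1) (Set.Iic t)).toReal := by
  rw [gaussianReal_apply_eq_integral 0 (by norm_num : (1 : NNReal) ≠ 0)]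
  rw [ENNReal.toReal_ofReal (setIntegral_nonneg measurableSet_Iic fun u _ => gaussianPDFReal_nonneg _ _ _)]
  unfold Phi
  rw [← integral_const_mul]
  congr 1
  funext u
  unfold gaussianPDFReal
  simp only [NNReal.coe_one, mul_one, sub_zero, one_div]
  congr 2
  ring

/-- the uniform measure on the values of `Z` on `E` -/
noncomputable def um (E : Finset ℕ) (Z : ℕ → ℝ) : Measure ℝ :=
  ∑ x ∈ E, ((E.card : ℝ≥0∞)⁻¹) • Measure.dirac (Z x)

lemma um_prob (E : Finset ℕ) (hE : E.Nonempty) (Z : ℕ → ℝ) : IsProbabilityMeasure (um E Z) := by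
  constructor
  unfold um
  rw [Measure.finset_sum_apply]
  simp only [Measure.smul_apply, measure_univ, smul_eq_mul, mul_one, sum_const, nsmul_eq_mul]
  apply ENNReal.mul_inv_cancel
  · have := hE.card_pos
    exact_mod_cast this.ne'
  · exact ENNReal.natCast_ne_top _

lemma um_char (E : Finset ℕ) (Z : ℕ → ℝ) (θ : ℝ) :
    charFun (um E Z) θ = (∑ x ∈ E, cexp (I * ((θ * Z x : ℝ) : ℂ))) / (E.card : ℂ) := by
  rw [charFun_apply_real]
  unfold um
  rw [integral_finset_sum_measure]
  · rw [sum_div]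
    apply sum_congr rfl
    intro x _
    rw [integral_smul_measure, integral_dirac, ENNReal.toReal_inv, ENNReal.toReal_natCast, div_eq_inv_mul,
      Complex.real_smul]
    congr 1
    · push_cast
      rfl
    · congr 1
      push_cast
      ring
  · intro x _
    apply Integrable.smul_measure
    · apply integrable_dirac
      exact enorm_lt_top
    · simp only [ne_eq, ENNReal.inv_eq_top, Nat.cast_eq_zero, card_eq_zero]
      rintro rfl
      simp_all

open Classical in
lemma um_Iic (E : Finset ℕ) (Z : ℕ → ℝ) (t : ℝ) :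
    ((um E Z) (Set.Iic t)).toReal = ((E.filter (fun x => Z x ≤ t)).card : ℝ) / E.card := by
  unfold um
  rw [Measure.finset_sum_apply]
  simp only [Measure.smul_apply, smul_eq_mul]
  have e : ∀ x ∈ E, ((E.card : ℝ≥0∞)⁻¹) * (Measure.dirac (Z x)) (Set.Iic t) =
      if Z x ≤ t then (E.card : ℝ≥0∞)⁻¹ else 0 := by
    intro x _
    rw [Measure.dirac_apply' _ measurableSet_Iic, Set.indicator_apply]
    simp only [Set.mem_Iic, Pi.one_apply, mul_ite, mul_one, mul_zero]
  rw [sum_congr rfl e, ← sum_filter, sum_const, nsmul_eq_mul, ENNReal.toReal_mul, ENNReal.toReal_inv,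
    ENNReal.toReal_natCast, ENNReal.toReal_natCast]
  rfl

open Classical in
theorem cdf_of_cf (E : ℕ → Finset ℕ) (hE : ∀ m, (E m).Nonempty) (Z : ℕ → ℕ → ℝ)
    (h : ∀ θ : ℝ, Tendsto (fun m => (∑ x ∈ E m, cexp (I * ((θ * Z m x : ℝ) : ℂ))) / ((E m).card : ℂ)) atTop
      (𝓝 ((Real.exp (-(θ ^ 2 / 2)) : ℝ) : ℂ))) (t : ℝ) :
    Tendsto (fun m => (((E m).filter (fun x => Z m x ≤ t)).card : ℝ) / (E m).card) atTop (𝓝 (Phi t)) := by
  let μ : ℕ → ProbabilityMeasure ℝ := fun m => ⟨um (E m) (Z m), um_prob _ (hE m) _⟩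
  let μ₀ : ProbabilityMeasure ℝ := ⟨gaussianReal 0 1, inferInstance⟩
  have h1 : Tendsto μ atTop (𝓝 μ₀) := by
    apply ProbabilityMeasure.tendsto_of_tendsto_charFun
    intro θ
    have h2 := h θ
    have e1 : ∀ m, charFun ((μ m : ProbabilityMeasure ℝ) : Measure ℝ) θ =
        (∑ x ∈ E m, cexp (I * ((θ * Z m x : ℝ) : ℂ))) / ((E m).card : ℂ) := fun m => um_char _ _ _
    have e2 : charFun ((μ₀ : ProbabilityMeasure ℝ) : Measure ℝ) θ = ((Real.exp (-(θ ^ 2 / 2)) : ℝ) : ℂ) := by
      show charFun (gaussianReal 0 1) θ = _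
      rw [charFun_gaussianReal]
      push_cast
      congr 1
      ring
    rw [e2]
    exact h2.congr fun m => (e1 m).symm
  have h3 : Tendsto (fun m => ((μ m : Measure ℝ)) (Set.Iic t)) atTop (𝓝 ((μ₀ : Measure ℝ) (Set.Iic t))) := by
    apply ProbabilityMeasure.tendsto_measure_of_null_frontier_of_tendsto' h1
    rw [frontier_Iic]
    show gaussianReal 0 1 {t} = 0
    haveI := noAtoms_gaussianReal (μ := 0) (v := 1) (by norm_num)
    exact measure_singleton t
  have h4 := (ENNReal.tendsto_toReal (measure_ne_top (μ₀ : Measure ℝ) (Set.Iic t))).comp h3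
  rw [Phi_eq]
  refine h4.congr fun m => ?_
  exact um_Iic _ _ _

end Pool.Agent.Q42.RS
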