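import Pool.Agent.Q42.RS.Reg
import Pool.Agent.Q42.RS.Levy

/-!
# The central limit theorem for almost all tuples
-/

set_option autoImplicit false

namespace Pool.Agent.Q42.RS

open Finset Complex Filter Topology

lemma av_coe' {K : Type} [Field K] {E : Finset ℕ} (F : ℕ → K) : av (fun x : E => F x) = (∑ x ∈ E, F x) / (E.card : K) := by
  unfold av
  rw [Fintype.card_coe, sum_coe_sort]

/-- normalised sums over a tuple; `ρ = 0`: centred at the window mean, `ρ = 1`: not centred -/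
noncomputable def ZZ (f : ℕ → ℝ) (q : ℝ) (Y H : ℕ) (ρ : ℝ) (a : Fin H → Fin Y) (x : ℕ) : ℝ :=
  (∑ i, dv f Y x (a i) + ρ * H * mn f Y x) / √(q * H)

lemma ex_lip (a b : ℝ) : ‖cexp (I * ((a : ℝ) : ℂ)) - cexp (I * ((b : ℝ) : ℂ))‖ ≤ |a - b| := by
  have h1 : cexp (I * ((a : ℝ) : ℂ)) - cexp (I * ((b : ℝ) : ℂ)) =
      cexp (I * ((b : ℝ) : ℂ)) * (cexp (I * (((a - b) : ℝ) : ℂ)) - 1) := by
    rw [mul_sub, ← Complex.exp_add, mul_one]
    congr 2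
    push_cast
    ring
  rw [h1, norm_mul, norm_ex, one_mul]
  exact Real.norm_exp_I_mul_ofReal_sub_one_le

section
variable {f : ℕ → ℝ} {q : ℝ}

lemma cf_small (hq : 0 < q) (hf : ∀ n, |f n| ≤ 1) {η δ T : ℝ} (hη : 0 < η) (hδ : 0 < δ) (hT : 0 < T) :
    ∃ ε κ : ℝ, 0 < ε ∧ 0 < κ ∧ ∃ H₀ : ℕ, ∀ X Y H : ℕ, 1 ≤ X → 1 ≤ Y → 1 ≤ H → H₀ ≤ H → Pair f X Y ε → Dens f q X Y ε →
      ∀ E : Finset ℕ, E ⊆ Ico X (2 * X) → η * X ≤ E.card → ∀ ρ : ℝ,
      ρ ^ 2 * H * ∑ x ∈ Ico X (2 * X), mn f Y x ^ 2 ≤ κ * X → ∀ θ : ℝ, |θ| ≤ T →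
      av (fun a : Fin H → Fin Y => ‖av (fun x : E => cexp (I * ((θ * ZZ f q Y H ρ a x : ℝ) : ℂ))) -
        ((Real.exp (-(θ ^ 2 / 2)) : ℝ) : ℂ)‖ ^ 2) ≤ δ := by
  set K0 : ℝ := KK (2 * 2) q T + 2 * KK 2 q T with hK0
  have hKK : ∀ B : ℝ, 0 ≤ B → 0 ≤ KK B q T := fun B hB => by
    unfold KK
    positivity
  have hK0' : 0 ≤ K0 := add_nonneg (hKK _ (by norm_num)) (mul_nonneg (by norm_num) (hKK _ (by norm_num)))
  -- choice of ε
  obtain ⟨ε, hε, hε2⟩ : ∃ ε : ℝ, 0 < ε ∧ T ^ 2 / q * (2 * (2 * ε / η) + (√ε + ε) / η ^ 2) ≤ δ / 6 := by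
    have h1 : Tendsto (fun ε : ℝ => T ^ 2 / q * (2 * (2 * ε / η) + (√ε + ε) / η ^ 2)) (𝓝[>] 0) (𝓝 0) := by
      have h2 : Continuous (fun ε : ℝ => T ^ 2 / q * (2 * (2 * ε / η) + (√ε + ε) / η ^ 2)) := by fun_prop
      have h3 := h2.tendsto 0
      simp only [mul_zero, zero_div, Real.sqrt_zero, add_zero] at h3
      exact h3.mono_left nhdsWithin_le_nhds
    have h4 := (h1.eventually (gt_mem_nhds (show (0 : ℝ) < δ / 6 by positivity))).and self_mem_nhdsWithin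
    obtain ⟨ε, h5, h6⟩ := h4.exists
    exact ⟨ε, h6, h5.le⟩
  obtain ⟨H₀, hH₀⟩ := exists_nat_ge ((6 * K0 / δ) ^ 2)
  refine ⟨ε, δ * q * η / (6 * T ^ 2), hε, by positivity, H₀, ?_⟩
  intro X Y H hX hY hH hHH hP hD E hE hc ρ hρ θ hθ
  haveI : Nonempty (Fin Y) := ⟨⟨0, hY⟩⟩
  have hX0 : (0 : ℝ) < X := by exact_mod_cast hX
  have hc0 : (0 : ℝ) < E.card := lt_of_lt_of_le (by positivity) hc
  have hEne : E.Nonempty := by
    rw [← card_pos]
    exact_mod_cast hc0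
  haveI : Nonempty E := hEne.to_subtype
  have hH0 : (0 : ℝ) < H := by exact_mod_cast hH
  have hm := cf_main (fun (x : E) (b : Fin Y) => dv f Y x b) 2 (fun x b => dv_abs hf x b) (fun x => dv_av hY x) q hq
    θ T hθ H hH
  set g : ℂ := ((Real.exp (-(θ ^ 2 / 2)) : ℝ) : ℂ) with hg
  set r : ℝ := √(q * H) with hr
  have hr0 : 0 < r := Real.sqrt_pos.2 (by positivity)
  have hr2 : r ^ 2 = q * H := Real.sq_sqrt (by positivity)
  -- the main part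
  have m1 : av (fun a : Fin H → Fin Y => ‖av (fun x : E => cexp (I * ((θ * (∑ i, dv f Y x (a i)) / r : ℝ) : ℂ))) -
      g‖ ^ 2) ≤ δ / 3 := by
    refine hm.trans ?_
    have h1 : (KK (2 * 2) q T + 2 * KK 2 q T) / √(H : ℝ) ≤ δ / 6 := by
      rw [← hK0, div_le_iff₀ (Real.sqrt_pos.2 hH0)]
      have h2 : 6 * K0 / δ ≤ √(H : ℝ) := by
        apply Real.le_sqrt_of_sq_le
        exact hH₀.trans (by exact_mod_cast hHH)
      rw [div_le_iff₀ hδ] at h2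
      linarith
    have h2 : T ^ 2 / q * (2 * av (fun x : E => |av (fun b => dv f Y x b ^ 2) - q|) +
        av (fun x : E => av (fun y : E => |av (fun b => dv f Y x b * dv f Y y b)|))) ≤ δ / 6 := by
      refine le_trans (mul_le_mul_of_nonneg_left ?_ (by positivity)) hε2
      exact add_le_add (mul_le_mul_of_nonneg_left (A1 hY hX hε.le hP hD hE hη hc) (by norm_num))
        (A2 hf hY hX hε.le hP hE hη hc)
    linarith
  -- the shift
  have m2 : ∀ a : Fin H → Fin Y, ‖av (fun x : E => cexp (I * ((θ * ZZ f q Y H ρ a x : ℝ) : ℂ))) -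
      av (fun x : E => cexp (I * ((θ * (∑ i, dv f Y x (a i)) / r : ℝ) : ℂ)))‖ ^ 2 ≤ δ / 6 := by
    intro a
    rw [← av_sub]
    have h1 : ∀ x : E, ‖cexp (I * ((θ * ZZ f q Y H ρ a x : ℝ) : ℂ)) -
        cexp (I * ((θ * (∑ i, dv f Y x (a i)) / r : ℝ) : ℂ))‖ ^ 2 ≤ T ^ 2 / q * (ρ ^ 2 * H * mn f Y x ^ 2) := by
      intro x
      have h2 := ex_lip (θ * ZZ f q Y H ρ a x) (θ * (∑ i, dv f Y x (a i)) / r)
      have e : θ * ZZ f q Y H ρ a x - θ * (∑ i, dv f Y x (a i)) / r = θ * (ρ * H * mn f Y x) / r := by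
        unfold ZZ
        rw [← hr]
        ring
      rw [e] at h2
      calc _ ≤ |θ * (ρ * H * mn f Y x) / r| ^ 2 := pow_le_pow_left₀ (norm_nonneg _) h2 2
        _ = θ ^ 2 / q * (ρ ^ 2 * H * mn f Y x ^ 2) := by
            rw [sq_abs, div_pow, hr2]
            field_simp
        _ ≤ _ := by
            have : θ ^ 2 ≤ T ^ 2 := by
              rw [← sq_abs θ]
              exact pow_le_pow_left₀ (abs_nonneg _) hθ 2
            gcongr
    have h3 : ‖av (fun x : E => cexp (I * ((θ * ZZ f q Y H ρ a x : ℝ) : ℂ)) -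
        cexp (I * ((θ * (∑ i, dv f Y x (a i)) / r : ℝ) : ℂ)))‖ ^ 2 ≤
        av (fun x : E => T ^ 2 / q * (ρ ^ 2 * H * mn f Y x ^ 2)) := by
      calc _ ≤ (av (fun x : E => ‖cexp (I * ((θ * ZZ f q Y H ρ a x : ℝ) : ℂ)) -
            cexp (I * ((θ * (∑ i, dv f Y x (a i)) / r : ℝ) : ℂ))‖)) ^ 2 :=
            pow_le_pow_left₀ (norm_nonneg _) (norm_av_le _) 2
        _ ≤ _ := (av_sq_le _).trans (av_mono h1)
    refine h3.trans ?_
    have h4 := sum_sub_le hE (F := fun x => ρ ^ 2 * H * mn f Y x ^ 2) (fun x => by positivity) hη hX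
      (B := δ * q * η / (6 * T ^ 2)) (by positivity) hc (by rw [← mul_sum]; exact hρ)
    rw [av_mul]
    calc _ ≤ T ^ 2 / q * (δ * q * η / (6 * T ^ 2) / η) := mul_le_mul_of_nonneg_left h4 (by positivity)
      _ = δ / 6 := by field_simp
  -- together
  have m3 : ∀ a : Fin H → Fin Y, ‖av (fun x : E => cexp (I * ((θ * ZZ f q Y H ρ a x : ℝ) : ℂ))) - g‖ ^ 2 ≤
      2 * (δ / 6) + 2 * ‖av (fun x : E => cexp (I * ((θ * (∑ i, dv f Y x (a i)) / r : ℝ) : ℂ))) - g‖ ^ 2 := by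
    intro a
    have h1 := norm_add_le (av (fun x : E => cexp (I * ((θ * ZZ f q Y H ρ a x : ℝ) : ℂ))) -
      av (fun x : E => cexp (I * ((θ * (∑ i, dv f Y x (a i)) / r : ℝ) : ℂ))))
      (av (fun x : E => cexp (I * ((θ * (∑ i, dv f Y x (a i)) / r : ℝ) : ℂ))) - g)
    rw [sub_add_sub_cancel] at h1
    have h2 := m2 a
    nlinarith [norm_nonneg (av (fun x : E => cexp (I * ((θ * ZZ f q Y H ρ a x : ℝ) : ℂ))) - g),
      norm_nonneg (av (fun x : E => cexp (I * ((θ * ZZ f q Y H ρ a x : ℝ) : ℂ))) -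
      av (fun x : E => cexp (I * ((θ * (∑ i, dv f Y x (a i)) / r : ℝ) : ℂ)))),
      norm_nonneg (av (fun x : E => cexp (I * ((θ * (∑ i, dv f Y x (a i)) / r : ℝ) : ℂ))) - g),
      sq_nonneg (‖av (fun x : E => cexp (I * ((θ * ZZ f q Y H ρ a x : ℝ) : ℂ))) -
      av (fun x : E => cexp (I * ((θ * (∑ i, dv f Y x (a i)) / r : ℝ) : ℂ)))‖ -
      ‖av (fun x : E => cexp (I * ((θ * (∑ i, dv f Y x (a i)) / r : ℝ) : ℂ))) - g‖)]
  refine (av_mono m3).trans ?_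
  rw [av_add, av_const, av_mul]
  linarith

lemma Z_sq (hq : 0 < q) (hf : ∀ n, |f n| ≤ 1) {η : ℝ} (hη : 0 < η) {X Y H : ℕ} (hX : 1 ≤ X) (hY : 1 ≤ Y) (hH : 1 ≤ H)
    {E : Finset ℕ} (hE : E ⊆ Ico X (2 * X)) (hc : η * X ≤ E.card) {ρ κ : ℝ} (hκ : 0 ≤ κ)
    (hρ : ρ ^ 2 * H * ∑ x ∈ Ico X (2 * X), mn f Y x ^ 2 ≤ κ * X) :
    av (fun a : Fin H → Fin Y => av (fun x : E => ZZ f q Y H ρ a x ^ 2)) ≤ 8 / q + 2 * κ / (q * η) := by
  haveI : Nonempty (Fin Y) := ⟨⟨0, hY⟩⟩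
  have hX0 : (0 : ℝ) < X := by exact_mod_cast hX
  have hc0 : (0 : ℝ) < E.card := lt_of_lt_of_le (by positivity) hc
  have hEne : E.Nonempty := by
    rw [← card_pos]
    exact_mod_cast hc0
  haveI : Nonempty E := hEne.to_subtype
  have hH0 : (0 : ℝ) < H := by exact_mod_cast hH
  have hr2 : √(q * H) ^ 2 = q * H := Real.sq_sqrt (by positivity)
  rw [av_comm]
  have h1 : ∀ x : E, av (fun a : Fin H → Fin Y => ZZ f q Y H ρ a x ^ 2) ≤
      8 / q + 2 / q * (ρ ^ 2 * H * mn f Y x ^ 2) := by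
    intro x
    have h2 : ∀ a : Fin H → Fin Y, ZZ f q Y H ρ a x ^ 2 ≤ 2 / (q * H) * (∑ i, dv f Y x (a i)) ^ 2 +
        2 / q * (ρ ^ 2 * H * mn f Y x ^ 2) := by
      intro a
      unfold ZZ
      rw [div_pow, hr2]
      have e : 2 / (q * H) * (∑ i, dv f Y x (a i)) ^ 2 + 2 / q * (ρ ^ 2 * H * mn f Y x ^ 2) =
          (2 * (∑ i, dv f Y x (a i)) ^ 2 + 2 * (ρ * H * mn f Y x) ^ 2) / (q * H) := by
        field_simp
      rw [e]
      apply div_le_div_of_nonneg_right _ (by positivity)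
      nlinarith [sq_nonneg (∑ i, dv f Y x (a i) - ρ * H * mn f Y x)]
    refine (av_mono h2).trans ?_
    rw [av_add, av_const, av_mul, av_sumsq _ (dv_av hY x)]
    have h3 : av (fun b => dv f Y x b ^ 2) ≤ 4 := by
      have := m2_le (fun b => dv f Y x b) 2 (fun b => dv_abs hf x b)
      linarith
    have h4 : 2 / (q * H) * (H * av (fun b => dv f Y x b ^ 2)) ≤ 8 / q := by
      calc _ = 2 / q * av (fun b => dv f Y x b ^ 2) := by field_simp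
        _ ≤ 2 / q * 4 := mul_le_mul_of_nonneg_left h3 (by positivity)
        _ = _ := by ring
    linarith
  refine (av_mono h1).trans ?_
  rw [av_add, av_const, av_mul]
  have h4 := sum_sub_le hE (F := fun x => ρ ^ 2 * H * mn f Y x ^ 2) (fun x => by positivity) hη hX
    (B := κ) hκ hc (by rw [← mul_sum]; exact hρ)
  have h5 : 2 / q * av (fun x : E => ρ ^ 2 * H * mn f Y x ^ 2) ≤ 2 / q * (κ / η) :=
    mul_le_mul_of_nonneg_left h4 (by positivity)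
  have e : 2 / q * (κ / η) = 2 * κ / (q * η) := by field_simp
  linarith

/-- convergence at all frequencies from convergence on finer and finer grids -/
lemma cf_all (E : ℕ → Finset ℕ) (hE : ∀ m, (E m).Nonempty) (Z : ℕ → ℕ → ℝ) (C : ℝ) (hC : 0 ≤ C)
    (h2 : ∀ m, (∑ x ∈ E m, Z m x ^ 2) / (E m).card ≤ C)
    (hg : ∀ m : ℕ, ∀ j : ℤ, |j| ≤ ((m : ℤ) + 1) ^ 2 →
      ‖(∑ x ∈ E m, cexp (I * (((j : ℝ) / (m + 1) * Z m x : ℝ) : ℂ))) / ((E m).card : ℂ) -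
        ((Real.exp (-(((j : ℝ) / (m + 1)) ^ 2 / 2)) : ℝ) : ℂ)‖ ^ 2 ≤ 1 / (m + 1)) (θ : ℝ) :
    Tendsto (fun m => (∑ x ∈ E m, cexp (I * ((θ * Z m x : ℝ) : ℂ))) / ((E m).card : ℂ)) atTop
      (𝓝 ((Real.exp (-(θ ^ 2 / 2)) : ℝ) : ℂ)) := by
  rw [tendsto_iff_norm_sub_tendsto_zero]
  obtain ⟨M, hM⟩ := exists_nat_ge |θ|
  have hlim : Tendsto (fun m : ℕ => √C * (1 / ((m : ℝ) + 1)) + √(1 / ((m : ℝ) + 1)) + (2 * |θ| + 1) * (1 / ((m : ℝ) + 1)))
      atTop (𝓝 0) := by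
    have h1 := tendsto_one_div_add_atTop_nhds_zero_nat (𝕜 := ℝ)
    have h3 := (Real.continuous_sqrt.tendsto 0).comp h1
    rw [Real.sqrt_zero] at h3
    have := ((h1.const_mul √C).add h3).add (h1.const_mul (2 * |θ| + 1))
    simpa using this
  refine squeeze_zero' (Eventually.of_forall fun _ => norm_nonneg _) ?_ hlim
  filter_upwards [eventually_ge_atTop M] with m hm
  have hm1 : (0 : ℝ) < (m : ℝ) + 1 := by positivity
  set j : ℤ := ⌊θ * (m + 1)⌋ with hj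
  set θ' : ℝ := (j : ℝ) / (m + 1) with hθ'
  have hj1 : (j : ℝ) ≤ θ * (m + 1) := Int.floor_le _
  have hj2 : θ * (m + 1) < j + 1 := Int.lt_floor_add_one _
  have hθm : |θ| ≤ m := hM.trans (by exact_mod_cast hm)
  have hdiff : |θ - θ'| ≤ 1 / ((m : ℝ) + 1) := by
    have e : θ - θ' = (θ * (m + 1) - j) / (m + 1) := by
      rw [hθ']
      field_simp
    rw [e, abs_div, abs_of_pos hm1]
    apply div_le_div_of_nonneg_right _ hm1.le
    rw [abs_of_nonneg (by linarith)]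
    linarith
  have hjabs : |j| ≤ ((m : ℤ) + 1) ^ 2 := by
    have h1 : |(j : ℝ)| ≤ ((m : ℝ) + 1) ^ 2 := by
      obtain ⟨h3, h4⟩ := abs_le.1 hθm
      have hm0 : (0 : ℝ) ≤ m := Nat.cast_nonneg _
      rw [abs_le]
      constructor <;> nlinarith
    have h2 : ((|j| : ℤ) : ℝ) ≤ (((m : ℤ) + 1) ^ 2 : ℤ) := by
      push_cast
      exact h1
    exact_mod_cast h2
  have h4 := hg m j hjabs
  rw [← hθ'] at h4
  have h5 : ‖(∑ x ∈ E m, cexp (I * ((θ' * Z m x : ℝ) : ℂ))) / ((E m).card : ℂ) -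
      ((Real.exp (-(θ' ^ 2 / 2)) : ℝ) : ℂ)‖ ≤ √(1 / ((m : ℝ) + 1)) := Real.le_sqrt_of_sq_le h4
  have hcard : (0 : ℝ) < (E m).card := by exact_mod_cast (hE m).card_pos
  have h6 : ‖(∑ x ∈ E m, cexp (I * ((θ * Z m x : ℝ) : ℂ))) / ((E m).card : ℂ) -
      (∑ x ∈ E m, cexp (I * ((θ' * Z m x : ℝ) : ℂ))) / ((E m).card : ℂ)‖ ≤ √C * (1 / ((m : ℝ) + 1)) := by
    rw [← sub_div, ← sum_sub_distrib, norm_div, norm_natCast]
    have h7 : ‖∑ x ∈ E m, (cexp (I * ((θ * Z m x : ℝ) : ℂ)) - cexp (I * ((θ' * Z m x : ℝ) : ℂ)))‖ ≤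
        ∑ x ∈ E m, (1 / ((m : ℝ) + 1)) * |Z m x| := by
      refine (norm_sum_le _ _).trans (sum_le_sum fun x _ => ?_)
      refine (ex_lip _ _).trans ?_
      rw [← sub_mul, abs_mul]
      exact mul_le_mul_of_nonneg_right hdiff (abs_nonneg _)
    rw [← mul_sum] at h7
    have h8 : (∑ x ∈ E m, |Z m x|) / (E m).card ≤ √C := by
      apply Real.le_sqrt_of_sq_le
      refine le_trans ?_ (h2 m)
      rw [div_pow, div_le_div_iff₀ (by positivity) hcard]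
      have h9 := sq_sum_le_card_mul_sum_sq (s := E m) (f := fun x => |Z m x|)
      simp_rw [sq_abs] at h9
      calc _ ≤ ((E m).card * ∑ x ∈ E m, Z m x ^ 2) * (E m).card := mul_le_mul_of_nonneg_right h9 hcard.le
        _ = _ := by ring
    calc _ ≤ ((1 / ((m : ℝ) + 1)) * ∑ x ∈ E m, |Z m x|) / (E m).card :=
          div_le_div_of_nonneg_right h7 hcard.le
      _ = (1 / ((m : ℝ) + 1)) * ((∑ x ∈ E m, |Z m x|) / (E m).card) := by rw [mul_div_assoc]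
      _ ≤ (1 / ((m : ℝ) + 1)) * √C := mul_le_mul_of_nonneg_left h8 (by positivity)
      _ = _ := mul_comm _ _
  have h10 : ‖((Real.exp (-(θ' ^ 2 / 2)) : ℝ) : ℂ) - ((Real.exp (-(θ ^ 2 / 2)) : ℝ) : ℂ)‖ ≤
      (2 * |θ| + 1) * (1 / ((m : ℝ) + 1)) := by
    rw [← ofReal_sub, norm_real, Real.norm_eq_abs]
    refine (exp_lip (by positivity) (by positivity)).trans ?_
    have e : θ' ^ 2 / 2 - θ ^ 2 / 2 = (θ' - θ) * (θ' + θ) / 2 := by ring
    rw [e, abs_div, abs_mul, abs_of_pos (by norm_num : (0 : ℝ) < 2)]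
    have h11 : |θ' + θ| ≤ 2 * |θ| + 1 := by
      have e2 : θ' + θ = 2 * θ + (-(θ - θ')) := by ring
      rw [e2]
      refine (abs_add_le _ _).trans ?_
      rw [abs_neg, abs_mul, abs_of_pos (by norm_num : (0 : ℝ) < 2)]
      have : 1 / ((m : ℝ) + 1) ≤ 1 := by
        rw [div_le_one hm1]
        have : (0 : ℝ) ≤ m := Nat.cast_nonneg _
        linarith
      linarith
    rw [abs_sub_comm θ' θ]
    have h12 : |θ - θ'| * |θ' + θ| ≤ (1 / ((m : ℝ) + 1)) * (2 * |θ| + 1) :=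
      mul_le_mul hdiff h11 (abs_nonneg _) (by positivity)
    have h13 : 0 ≤ |θ - θ'| * |θ' + θ| := by positivity
    linarith
  have e : (∑ x ∈ E m, cexp (I * ((θ * Z m x : ℝ) : ℂ))) / ((E m).card : ℂ) - ((Real.exp (-(θ ^ 2 / 2)) : ℝ) : ℂ) =
      ((∑ x ∈ E m, cexp (I * ((θ * Z m x : ℝ) : ℂ))) / ((E m).card : ℂ) -
        (∑ x ∈ E m, cexp (I * ((θ' * Z m x : ℝ) : ℂ))) / ((E m).card : ℂ)) +
      ((∑ x ∈ E m, cexp (I * ((θ' * Z m x : ℝ) : ℂ))) / ((E m).card : ℂ) - ((Real.exp (-(θ' ^ 2 / 2)) : ℝ) : ℂ)) +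
      (((Real.exp (-(θ' ^ 2 / 2)) : ℝ) : ℂ) - ((Real.exp (-(θ ^ 2 / 2)) : ℝ) : ℂ)) := by ring
  rw [e]
  exact (norm_add₃_le).trans (add_le_add (add_le_add h6 h5) h10)

open Classical in
/-- **the central limit theorem for almost all tuples** -/
theorem clt (hq : 0 < q) (hf : ∀ n, |f n| ≤ 1)
    (hpair : ∀ ε : ℝ, 0 < ε → ∃ N₀ : ℕ, ∀ X Y : ℕ, N₀ ≤ X → N₀ ≤ Y → Y ≤ X → Pair f X Y ε)
    (hdens : ∀ ε : ℝ, 0 < ε → ∃ N₀ : ℕ, ∀ X Y : ℕ, N₀ ≤ X → N₀ ≤ Y → Y ≤ X → Dens f q X Y ε)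
    (t η : ℝ) (hη : 0 < η) :
    ∃ κ : ℝ, 0 < κ ∧ ∃ N₀ : ℕ, ∀ X Y H : ℕ, N₀ ≤ X → N₀ ≤ Y → Y ≤ X → N₀ ≤ H →
      ∀ E : Finset ℕ, E ⊆ Ico X (2 * X) → η * X ≤ E.card → ∀ ρ : ℝ,
      ρ ^ 2 * H * ∑ x ∈ Ico X (2 * X), mn f Y x ^ 2 ≤ κ * X →
      ((univ.filter (fun a : Fin H → Fin Y =>
        η < |((E.filter (fun x => ZZ f q Y H ρ a x ≤ t)).card : ℝ) / E.card - Phi t|)).card : ℝ) ≤ η * (Y : ℝ) ^ H := by
  by_contra hcon
  push Not at hcon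
  set C₂ : ℝ := 8 / q + 2 * 1 / (q * η) with hC₂
  have hC₂0 : 0 < C₂ := by positivity
  have key : ∀ m : ℕ, ∃ (E : Finset ℕ) (Z : ℕ → ℝ), E.Nonempty ∧ (∑ x ∈ E, Z x ^ 2) / E.card ≤ 4 * C₂ / η ∧
      (∀ j : ℤ, |j| ≤ ((m : ℤ) + 1) ^ 2 →
        ‖(∑ x ∈ E, cexp (I * (((j : ℝ) / (m + 1) * Z x : ℝ) : ℂ))) / (E.card : ℂ) -
          ((Real.exp (-(((j : ℝ) / (m + 1)) ^ 2 / 2)) : ℝ) : ℂ)‖ ^ 2 ≤ 1 / (m + 1)) ∧
      η < |((E.filter (fun x => Z x ≤ t)).card : ℝ) / E.card - Phi t| := by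
    intro m
    have hm1 : (0 : ℝ) < (m : ℝ) + 1 := by positivity
    set Gr : Finset ℤ := Icc (-((m : ℤ) + 1) ^ 2) (((m : ℤ) + 1) ^ 2) with hGr
    have hGr0 : (0 : ℝ) < (Gr.card : ℝ) := by
      have : Gr.Nonempty := ⟨0, by rw [hGr, mem_Icc]; constructor <;> nlinarith [sq_nonneg ((m : ℤ) + 1)]⟩
      exact_mod_cast this.card_pos
    obtain ⟨ε, κ, hε, hκ, H₀, hsm⟩ := cf_small hq hf hη (δ := η / (4 * Gr.card * (m + 1))) (by positivity)
      (T := (m : ℝ) + 1) (by positivity)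
    obtain ⟨N₁, hN₁⟩ := hpair ε hε
    obtain ⟨N₂, hN₂⟩ := hdens ε hε
    obtain ⟨X, Y, H, hX, hY, hYX, hH, E, hE, hc, ρ, hρ, hbad⟩ := hcon (min κ 1) (lt_min hκ one_pos)
      (N₁ + N₂ + H₀ + 1)
    have hX0 : (0 : ℝ) < X := by exact_mod_cast (by omega : 0 < X)
    have hρ1 : ρ ^ 2 * H * ∑ x ∈ Ico X (2 * X), mn f Y x ^ 2 ≤ κ * X :=
      hρ.trans (mul_le_mul_of_nonneg_right (min_le_left _ _) hX0.le)
    have hρ2 : ρ ^ 2 * H * ∑ x ∈ Ico X (2 * X), mn f Y x ^ 2 ≤ 1 * X :=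
      hρ.trans (mul_le_mul_of_nonneg_right (min_le_right _ _) hX0.le)
    have hs := hsm X Y H (by omega) (by omega) (by omega) (by omega) (hN₁ X Y (by omega) (by omega) hYX)
      (hN₂ X Y (by omega) (by omega) hYX) E hE hc ρ hρ1
    have hz := Z_sq hq hf hη (X := X) (Y := Y) (H := H) (by omega) (by omega) (by omega) hE hc zero_le_one hρ2
    haveI : Nonempty (Fin Y) := ⟨⟨0, by omega⟩⟩
    have hc0 : (0 : ℝ) < E.card := lt_of_lt_of_le (by positivity) hc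
    have hEne : E.Nonempty := by
      rw [← card_pos]
      exact_mod_cast hc0
    set W : (Fin H → Fin Y) → ℝ := fun a => (m + 1) * ∑ j ∈ Gr,
      ‖av (fun x : E => cexp (I * (((j : ℝ) / (m + 1) * ZZ f q Y H ρ a x : ℝ) : ℂ))) -
        ((Real.exp (-(((j : ℝ) / (m + 1)) ^ 2 / 2)) : ℝ) : ℂ)‖ ^ 2 +
        η / (4 * C₂) * av (fun x : E => ZZ f q Y H ρ a x ^ 2) with hW
    have hW0 : ∀ a, 0 ≤ W a := fun a => by
      have : 0 ≤ av (fun x : E => ZZ f q Y H ρ a x ^ 2) := av_nonneg fun x => sq_nonneg _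
      simp only [hW]
      positivity
    have hWav : av W ≤ η / 2 := by
      simp only [hW]
      rw [av_add, av_mul, av_mul, av_sum]
      have h1 : ∑ j ∈ Gr, av (fun a : Fin H → Fin Y =>
          ‖av (fun x : E => cexp (I * (((j : ℝ) / (m + 1) * ZZ f q Y H ρ a x : ℝ) : ℂ))) -
            ((Real.exp (-(((j : ℝ) / (m + 1)) ^ 2 / 2)) : ℝ) : ℂ)‖ ^ 2) ≤
          ∑ j ∈ Gr, η / (4 * Gr.card * (m + 1)) := by
        refine sum_le_sum fun j hj => hs _ ?_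
        rw [hGr, mem_Icc] at hj
        rw [abs_div, abs_of_pos hm1, div_le_iff₀ hm1, ← sq]
        have h2 : |j| ≤ ((m : ℤ) + 1) ^ 2 := abs_le.2 ⟨by nlinarith [hj.1], hj.2⟩
        have h3 : ((|j| : ℤ) : ℝ) ≤ (((m : ℤ) + 1) ^ 2 : ℤ) := by exact_mod_cast h2
        push_cast at h3
        exact h3
      rw [sum_const, nsmul_eq_mul] at h1
      have h4 : (Gr.card : ℝ) * (η / (4 * Gr.card * (m + 1))) = η / (4 * (m + 1)) := by
        field_simp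
      rw [h4] at h1
      have h5 : ((m : ℝ) + 1) * ∑ j ∈ Gr, av (fun a : Fin H → Fin Y =>
          ‖av (fun x : E => cexp (I * (((j : ℝ) / (m + 1) * ZZ f q Y H ρ a x : ℝ) : ℂ))) -
            ((Real.exp (-(((j : ℝ) / (m + 1)) ^ 2 / 2)) : ℝ) : ℂ)‖ ^ 2) ≤ η / 4 := by
        calc _ ≤ ((m : ℝ) + 1) * (η / (4 * (m + 1))) := mul_le_mul_of_nonneg_left h1 hm1.le
          _ = η / 4 := by field_simp
      have h6 : η / (4 * C₂) * av (fun a : Fin H → Fin Y => av (fun x : E => ZZ f q Y H ρ a x ^ 2)) ≤ η / 4 := by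
        calc _ ≤ η / (4 * C₂) * C₂ := mul_le_mul_of_nonneg_left hz (by positivity)
          _ = η / 4 := by field_simp
      linarith
    -- selection
    have hsel : ∃ a : Fin H → Fin Y, η < |((E.filter (fun x => ZZ f q Y H ρ a x ≤ t)).card : ℝ) / E.card - Phi t| ∧
        W a < 1 := by
      by_contra hno
      push Not at hno
      have h1 := markov (t := 1) hW0 (fun a : Fin H → Fin Y =>
        η < |((E.filter (fun x => ZZ f q Y H ρ a x ≤ t)).card : ℝ) / E.card - Phi t|) hno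
      rw [one_mul] at h1
      have h2 : (Fintype.card (Fin H → Fin Y) : ℝ) = (Y : ℝ) ^ H := by
        simp
      rw [h2] at h1
      have hYH : (0 : ℝ) < (Y : ℝ) ^ H := by
        have : (0 : ℝ) < Y := by exact_mod_cast (by omega : 0 < Y)
        positivity
      have h3 : av W * (Y : ℝ) ^ H ≤ η / 2 * (Y : ℝ) ^ H := mul_le_mul_of_nonneg_right hWav hYH.le
      nlinarith
    obtain ⟨a, ha1, ha2⟩ := hsel
    refine ⟨E, fun x => ZZ f q Y H ρ a x, hEne, ?_, ?_, ha1⟩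
    · have h1 : η / (4 * C₂) * av (fun x : E => ZZ f q Y H ρ a x ^ 2) ≤ 1 := by
        refine le_trans ?_ ha2.le
        simp only [hW]
        have : 0 ≤ ((m : ℝ) + 1) * ∑ j ∈ Gr,
          ‖av (fun x : E => cexp (I * (((j : ℝ) / (m + 1) * ZZ f q Y H ρ a x : ℝ) : ℂ))) -
            ((Real.exp (-(((j : ℝ) / (m + 1)) ^ 2 / 2)) : ℝ) : ℂ)‖ ^ 2 := by positivity
        linarith
      rw [av_coe (fun x => ZZ f q Y H ρ a x ^ 2)] at h1
      have h2 : (∑ x ∈ E, ZZ f q Y H ρ a x ^ 2) / E.card ≤ 1 / (η / (4 * C₂)) := by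
        rw [le_div_iff₀ (by positivity), mul_comm]
        exact h1
      refine h2.trans (le_of_eq ?_)
      field_simp
    · intro j hj
      have hj' : j ∈ Gr := by
        rw [hGr, mem_Icc]
        obtain ⟨h1, h2⟩ := abs_le.1 hj
        exact ⟨by nlinarith, h2⟩
      have h1 : ((m : ℝ) + 1) * ‖av (fun x : E => cexp (I * (((j : ℝ) / (m + 1) * ZZ f q Y H ρ a x : ℝ) : ℂ))) -
          ((Real.exp (-(((j : ℝ) / (m + 1)) ^ 2 / 2)) : ℝ) : ℂ)‖ ^ 2 ≤ 1 := by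
        refine le_trans ?_ ha2.le
        simp only [hW]
        have h2 : ‖av (fun x : E => cexp (I * (((j : ℝ) / (m + 1) * ZZ f q Y H ρ a x : ℝ) : ℂ))) -
            ((Real.exp (-(((j : ℝ) / (m + 1)) ^ 2 / 2)) : ℝ) : ℂ)‖ ^ 2 ≤ ∑ j ∈ Gr,
            ‖av (fun x : E => cexp (I * (((j : ℝ) / (m + 1) * ZZ f q Y H ρ a x : ℝ) : ℂ))) -
            ((Real.exp (-(((j : ℝ) / (m + 1)) ^ 2 / 2)) : ℝ) : ℂ)‖ ^ 2 :=
          single_le_sum (f := fun j : ℤ => ‖av (fun x : E => cexp (I * (((j : ℝ) / (m + 1) * ZZ f q Y H ρ a x : ℝ) : ℂ))) -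
            ((Real.exp (-(((j : ℝ) / (m + 1)) ^ 2 / 2)) : ℝ) : ℂ)‖ ^ 2) (fun _ _ => by positivity) hj'
        have h3 : 0 ≤ η / (4 * C₂) * av (fun x : E => ZZ f q Y H ρ a x ^ 2) :=
          mul_nonneg (by positivity) (av_nonneg fun x => sq_nonneg _)
        have h4 := mul_le_mul_of_nonneg_left h2 hm1.le
        linarith
      rw [av_coe' (fun x => cexp (I * (((j : ℝ) / (m + 1) * ZZ f q Y H ρ a x : ℝ) : ℂ)))] at h1
      rw [le_div_iff₀ hm1, mul_comm]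
      exact h1
  choose E Z h1 h2 h3 h4 using key
  have h5 := cdf_of_cf E h1 Z (cf_all E h1 Z (4 * C₂ / η) (by positivity) h2 h3) t
  have h6 := (Metric.tendsto_atTop.1 h5 η hη)
  obtain ⟨N, hN⟩ := h6
  have h7 := hN N le_rfl
  rw [Real.dist_eq] at h7
  have h8 := h4 N
  have h9 : (((E N).filter (fun x => Z N x ≤ t)).card : ℝ) / (E N).card = (((E N).filter (fun x => Z N x ≤ t)).card : ℝ) / (E N).card := rfl
  exact lt_irrefl _ (h8.trans h7)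

end

end Pool.Agent.Q42.RS
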