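import Pool.Agent.Q42.RS.Avg

/-!
# Moments of sums over random tuples
-/

set_option autoImplicit false

namespace Pool.Agent.Q42.RS

open Finset

section
variable {β : Type} [Fintype β] [Nonempty β]

lemma av_S (g : β → ℝ) (h0 : av g = 0) (H : ℕ) : av (fun a : Fin H → β => ∑ i, g (a i)) = 0 := by
  rw [av_sum]
  apply sum_eq_zero
  intro i _
  induction H with
  | zero => exact i.elim0
  | succ H ih =>
    rw [av_cons]
    refine Fin.cases ?_ (fun j => ?_) i
    · simp only [Fin.cons_zero]
      simp_rw [av_const]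
      exact h0
    · simp only [Fin.cons_succ]
      rw [ih j (mem_univ j), av_const]

lemma av_sumsq (g : β → ℝ) (h0 : av g = 0) (H : ℕ) :
    av (fun a : Fin H → β => (∑ i, g (a i)) ^ 2) = H * av (fun b => g b ^ 2) := by
  induction H with
  | zero => simp [av]
  | succ H ih =>
    rw [av_cons]
    have e : ∀ b : β, av (fun a' : Fin H → β => (∑ i, g ((Fin.cons b a' : Fin (H + 1) → β) i)) ^ 2) =
        g b ^ 2 + H * av (fun b => g b ^ 2) := by
      intro b
      have e1 : (fun a' : Fin H → β => (∑ i, g ((Fin.cons b a' : Fin (H + 1) → β) i)) ^ 2) =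
          fun a' : Fin H → β => (g b ^ 2 + (2 * g b) * ∑ i, g (a' i)) + (∑ i, g (a' i)) ^ 2 := by
        funext a'
        rw [Fin.sum_univ_succ]
        simp only [Fin.cons_zero, Fin.cons_succ]
        ring
      rw [e1, av_add, av_add, av_const, av_mul, av_S g h0, ih]
      ring
    simp_rw [e]
    rw [av_add, av_const]
    push_cast
    ring

/-- the off-diagonal part of a quadratic form -/
noncomputable def TT (G : β → β → ℝ) {H : ℕ} (a : Fin H → β) : ℝ :=
  ∑ i, ∑ j, G (a i) (a j) - ∑ i, G (a i) (a i)

omit [Fintype β] [Nonempty β] in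
lemma TT_cons (G : β → β → ℝ) (hs : ∀ b c, G b c = G c b) {H : ℕ} (b : β) (a : Fin H → β) :
    TT G (Fin.cons b a : Fin (H + 1) → β) = TT G a + 2 * ∑ j, G b (a j) := by
  unfold TT
  simp only [Fin.sum_univ_succ, Fin.cons_zero, Fin.cons_succ]
  rw [sum_add_distrib]
  have : ∑ i, G (a i) b = ∑ j, G b (a j) := sum_congr rfl fun i _ => hs _ _
  rw [this]
  ring

lemma av_TT (G : β → β → ℝ) (hs : ∀ b c, G b c = G c b) (h0 : ∀ b, av (G b) = 0) (H : ℕ) :
    av (fun a : Fin H → β => TT G a ^ 2) = 2 * (H * (H - 1)) * av (fun b => av (fun c => G b c ^ 2)) := by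
  induction H with
  | zero => simp [av, TT]
  | succ H ih =>
    rw [av_cons]
    have e1 : ∀ b : β, av (fun a' : Fin H → β => TT G (Fin.cons b a' : Fin (H + 1) → β) ^ 2) =
        (av (fun a' : Fin H → β => TT G a' ^ 2) + 4 * av (fun a' : Fin H → β => TT G a' * ∑ j, G b (a' j))) +
          4 * (H * av (fun c => G b c ^ 2)) := by
      intro b
      have e2 : (fun a' : Fin H → β => TT G (Fin.cons b a' : Fin (H + 1) → β) ^ 2) =
          fun a' : Fin H → β => (TT G a' ^ 2 + 4 * (TT G a' * ∑ j, G b (a' j))) + 4 * (∑ j, G b (a' j)) ^ 2 := by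
        funext a'
        rw [TT_cons G hs]
        ring
      rw [e2, av_add, av_add, av_mul, av_mul, av_sumsq (G b) (h0 b)]
    simp_rw [e1]
    rw [av_add, av_add, av_const, av_mul, av_mul]
    have e3 : av (fun b => av (fun a' : Fin H → β => TT G a' * ∑ j, G b (a' j))) = 0 := by
      rw [av_comm]
      have : ∀ a' : Fin H → β, av (fun b => TT G a' * ∑ j, G b (a' j)) = 0 := by
        intro a'
        rw [av_mul, av_sum]
        have h1 : ∀ j : Fin H, av (fun b => G b (a' j)) = 0 := by
          intro j
          rw [← h0 (a' j)]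
          congr 1
          funext b
          exact hs _ _
        simp_rw [h1]
        simp
      simp_rw [this]
      exact av_const 0
    rw [e3, ih]
    have e4 : av (fun b => (H : ℝ) * av (fun c => G b c ^ 2)) = H * av (fun b => av (fun c => G b c ^ 2)) := av_mul _ _
    rw [e4]
    push_cast
    ring

end

end Pool.Agent.Q42.RS
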