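import Pool.Agent.Q42.RS.VarMu

/-!
# Mean squares over random subsets
-/

set_option autoImplicit false

namespace Pool.Agent.Q42.RS

open Finset

/-- random signs -/
def sg (b : Bool) : ℝ := if b then 1 else -1

lemma sg_sq (b : Bool) : sg b * sg b = 1 := by
  unfold sg
  split_ifs <;> norm_num

lemma av_sg (c : ℝ) : av (fun b : Bool => sg b * c) = 0 := by
  unfold av sg
  simp

lemma av_sg1 : av (fun b : Bool => sg b) = 0 := by
  unfold av sg
  simp

lemma rad_one : ∀ (n : ℕ) (c : Fin n → ℝ), av (fun σ : Fin n → Bool => (∑ i, sg (σ i) * c i) ^ 2) = ∑ i, c i ^ 2 := by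
  intro n
  induction n with
  | zero => intro c; simp [av]
  | succ n ih =>
    intro c
    rw [av_cons]
    have e : ∀ b : Bool, av (fun σ : Fin n → Bool => (∑ i, sg ((Fin.cons b σ : Fin (n + 1) → Bool) i) * c i) ^ 2) =
        c 0 ^ 2 + sg b * (2 * c 0 * av (fun σ : Fin n → Bool => ∑ i, sg (σ i) * c i.succ)) + ∑ i : Fin n, c i.succ ^ 2 := by
      intro b
      have e1 : (fun σ : Fin n → Bool => (∑ i, sg ((Fin.cons b σ : Fin (n + 1) → Bool) i) * c i) ^ 2) =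
          fun σ : Fin n → Bool => (c 0 ^ 2 + (sg b * (2 * c 0)) * ∑ i, sg (σ i) * c i.succ) +
            (∑ i, sg (σ i) * c i.succ) ^ 2 := by
        funext σ
        rw [Fin.sum_univ_succ]
        simp only [Fin.cons_zero, Fin.cons_succ]
        have := sg_sq b
        linear_combination c 0 ^ 2 * this
      rw [e1, av_add, av_add, av_const, av_mul, ih (fun i => c i.succ)]
      ring
    simp_rw [e]
    rw [av_add, av_add, av_const, av_const, av_sg, Fin.sum_univ_succ]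
    ring

/-- the off-diagonal part -/
noncomputable def RT {n : ℕ} (G : Fin n → Fin n → ℝ) (σ : Fin n → Bool) : ℝ :=
  ∑ i, ∑ j, sg (σ i) * sg (σ j) * G i j - ∑ i, G i i

lemma RT_cons {n : ℕ} (G : Fin (n + 1) → Fin (n + 1) → ℝ) (hs : ∀ i j, G i j = G j i) (b : Bool) (σ : Fin n → Bool) :
    RT G (Fin.cons b σ : Fin (n + 1) → Bool) = RT (fun i j => G i.succ j.succ) σ +
      sg b * (2 * ∑ j, sg (σ j) * G 0 j.succ) := by
  unfold RT
  simp only [Fin.sum_univ_succ, Fin.cons_zero, Fin.cons_succ]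
  rw [sum_add_distrib]
  have e : ∑ i : Fin n, sg (σ i) * sg b * G i.succ 0 = sg b * ∑ j, sg (σ j) * G 0 j.succ := by
    rw [mul_sum]
    refine sum_congr rfl fun i _ => ?_
    rw [hs i.succ 0]
    ring
  have e2 : ∑ i : Fin n, sg b * sg (σ i) * G 0 i.succ = sg b * ∑ j, sg (σ j) * G 0 j.succ := by
    rw [mul_sum]
    exact sum_congr rfl fun i _ => by ring
  rw [e, e2]
  have := sg_sq b
  linear_combination G 0 0 * this

lemma rad_two : ∀ (n : ℕ) (G : Fin n → Fin n → ℝ), (∀ i j, G i j = G j i) →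
    av (fun σ : Fin n → Bool => RT G σ ^ 2) ≤ 2 * ∑ i, ∑ j, G i j ^ 2 := by
  intro n
  induction n with
  | zero => intro G _; simp [av, RT]
  | succ n ih =>
    intro G hs
    rw [av_cons]
    have e : ∀ b : Bool, av (fun σ : Fin n → Bool => RT G (Fin.cons b σ : Fin (n + 1) → Bool) ^ 2) =
        av (fun σ : Fin n → Bool => RT (fun i j => G i.succ j.succ) σ ^ 2) +
          sg b * (4 * av (fun σ : Fin n → Bool => RT (fun i j => G i.succ j.succ) σ * ∑ j, sg (σ j) * G 0 j.succ)) +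
          4 * ∑ j : Fin n, G 0 j.succ ^ 2 := by
      intro b
      have e1 : (fun σ : Fin n → Bool => RT G (Fin.cons b σ : Fin (n + 1) → Bool) ^ 2) =
          fun σ : Fin n → Bool => (RT (fun i j => G i.succ j.succ) σ ^ 2 +
            (sg b * 4) * (RT (fun i j => G i.succ j.succ) σ * ∑ j, sg (σ j) * G 0 j.succ)) +
            4 * (∑ j, sg (σ j) * G 0 j.succ) ^ 2 := by
        funext σ
        rw [RT_cons G hs]
        have := sg_sq b
        linear_combination 4 * (∑ j, sg (σ j) * G 0 j.succ) ^ 2 * this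
      rw [e1, av_add, av_add, av_mul, av_mul, rad_one n (fun j => G 0 j.succ)]
      ring
    simp_rw [e]
    rw [av_add, av_add, av_const, av_const, av_sg, add_zero]
    have h1 := ih (fun i j => G i.succ j.succ) (fun i j => hs _ _)
    have h2 : ∑ i, ∑ j, G i j ^ 2 = G 0 0 ^ 2 + ∑ j : Fin n, G 0 j.succ ^ 2 +
        (∑ i : Fin n, G i.succ 0 ^ 2 + ∑ i : Fin n, ∑ j : Fin n, G i.succ j.succ ^ 2) := by
      simp only [Fin.sum_univ_succ]
      rw [sum_add_distrib]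
    have h3 : ∑ i : Fin n, G i.succ 0 ^ 2 = ∑ j : Fin n, G 0 j.succ ^ 2 := sum_congr rfl fun i _ => by rw [hs]
    rw [h2, h3]
    nlinarith [sq_nonneg (G 0 0)]

open scoped Classical in
/-- **mean squares over almost all subsets** -/
theorem sub_main {α : Type} [Fintype α] [Nonempty α] {Y : ℕ} (hY : 1 ≤ Y) (m : α → ℝ) (w : α → Fin Y → ℝ)
    (hm : ∀ x, m x = av (w x)) (Q δ ε : ℝ) (hQ : 0 < Q) (hε : 0 < ε) (hδ0 : 0 < δ) (hδ : δ ≤ ε)
    (hδ2 : 3 * √δ ≤ ε ^ 3 * Q) (hδ3 : 5 * δ ≤ ε ^ 3 * Q ^ 2)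
    (hK : ∀ b, |av (fun x => w x b ^ 2) - Q| ≤ δ * Q)
    (hΓ : av (fun x => av (fun y => (av (fun b => w x b * w y b)) ^ 2)) ≤ δ) :
    ((univ.filter (fun σ : Fin Y → Bool =>
      ¬ |av (fun x => (∑ b, (if σ b then w x b else 0)) ^ 2) - (Q * Y + (Y : ℝ) ^ 2 * av (fun x => m x ^ 2)) / 4| ≤
      ε * (Q * Y + (Y : ℝ) ^ 2 * av (fun x => m x ^ 2)))).card : ℝ) ≤ ε * (2 : ℝ) ^ Y := by
  haveI : Nonempty (Fin Y) := ⟨⟨0, hY⟩⟩
  have hY0 : (0 : ℝ) < Y := by exact_mod_cast hY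
  set v := av (fun x => m x ^ 2) with hvdef
  set Γ := av (fun x => av (fun y => (av (fun b => w x b * w y b)) ^ 2)) with hΓdef
  have hv0 : 0 ≤ v := av_nonneg fun x => sq_nonneg _
  set T := Q * Y + (Y : ℝ) ^ 2 * v with hT
  have hT0 : 0 < T := by positivity
  have hTQ : Q * Y ≤ T := by
    have : 0 ≤ (Y : ℝ) ^ 2 * v := by positivity
    linarith
  have hT2 : 4 * (Q * Y ^ 3 * v) ≤ T ^ 2 := by
    have := sq_nonneg (Q * Y - Y ^ 2 * v)
    nlinarith
  have hg : av (fun b => gg m w b ^ 2) ≤ v * √δ := by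
    have h1 := gg_sq m w
    rw [← hvdef, ← hΓdef] at h1
    have h2 : (av (fun b => gg m w b ^ 2)) ^ 2 ≤ (v * √δ) ^ 2 := by
      refine h1.trans ?_
      rw [mul_pow, Real.sq_sqrt hδ0.le]
      exact mul_le_mul_of_nonneg_left hΓ (sq_nonneg _)
    exact le_of_sq_le_sq h2 (by positivity)
  -- the decomposition
  have hdec : ∀ σ : Fin Y → Bool, av (fun x => (∑ b, (if σ b then w x b else 0)) ^ 2) =
      (Y : ℝ) ^ 2 * v / 4 + (∑ b, sg (σ b) * ((Y : ℝ) * gg m w b)) / 2 + (∑ b, av (fun x => w x b ^ 2)) / 4 +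
        RT (GG w) σ / 4 := by
    intro σ
    have e1 : ∀ x, ∑ b, (if σ b then w x b else 0) = (Y : ℝ) * m x / 2 + (∑ b, sg (σ b) * w x b) / 2 := by
      intro x
      have h1 : (Y : ℝ) * m x = ∑ b, w x b := by
        rw [hm, av, Fintype.card_fin]
        field_simp
      rw [h1, ← add_div, ← sum_add_distrib, sum_div]
      refine sum_congr rfl fun b _ => ?_
      unfold sg
      split_ifs <;> ring
    have e2 : (fun x => (∑ b, (if σ b then w x b else 0)) ^ 2) = fun x => ((Y : ℝ) ^ 2 / 4 * m x ^ 2 +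
        (∑ b, (sg (σ b) * Y / 2) * (m x * w x b))) + 1 / 4 * (∑ b, ∑ c, (sg (σ b) * sg (σ c)) * (w x b * w x c)) := by
      funext x
      rw [e1]
      have h2 : ∑ b, (sg (σ b) * Y / 2) * (m x * w x b) = (Y : ℝ) / 2 * m x * ∑ b, sg (σ b) * w x b := by
        rw [mul_sum]
        exact sum_congr rfl fun b _ => by ring
      have h3 : ∑ b, ∑ c, (sg (σ b) * sg (σ c)) * (w x b * w x c) = (∑ b, sg (σ b) * w x b) ^ 2 := by
        rw [sq, sum_mul_sum]
        exact sum_congr rfl fun b _ => sum_congr rfl fun c _ => by ring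
      rw [h2, h3]
      ring
    rw [e2, av_add, av_add, av_mul, av_mul, av_sum, av_sum, ← hvdef]
    have h4 : ∑ b, av (fun x => (sg (σ b) * Y / 2) * (m x * w x b)) = (∑ b, sg (σ b) * ((Y : ℝ) * gg m w b)) / 2 := by
      rw [sum_div]
      refine sum_congr rfl fun b _ => ?_
      rw [av_mul]
      unfold gg
      ring
    have h5 : ∑ b, av (fun x => ∑ c, (sg (σ b) * sg (σ c)) * (w x b * w x c)) =
        ∑ b, ∑ c, sg (σ b) * sg (σ c) * GG w b c := by
      refine sum_congr rfl fun b _ => ?_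
      rw [av_sum]
      refine sum_congr rfl fun c _ => ?_
      rw [av_mul]
      rfl
    have h6 : ∑ b, GG w b b = ∑ b, av (fun x => w x b ^ 2) := by
      refine sum_congr rfl fun b _ => ?_
      unfold GG
      congr 1
      funext x
      ring
    rw [h4, h5]
    unfold RT
    rw [h6]
    ring
  set F1 : (Fin Y → Bool) → ℝ := fun σ => (∑ b, sg (σ b) * ((Y : ℝ) * gg m w b)) ^ 2 with hF1
  set F2 : (Fin Y → Bool) → ℝ := fun σ => RT (GG w) σ ^ 2 with hF2
  have hF1av : Q * av F1 ≤ √δ / 4 * T ^ 2 := by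
    rw [hF1, rad_one]
    have e : ∑ b : Fin Y, ((Y : ℝ) * gg m w b) ^ 2 = Y ^ 3 * av (fun b => gg m w b ^ 2) := by
      unfold av
      rw [Fintype.card_fin]
      simp_rw [mul_pow]
      rw [← mul_sum]
      field_simp
    rw [e]
    calc Q * (Y ^ 3 * av (fun b => gg m w b ^ 2)) ≤ Q * (Y ^ 3 * (v * √δ)) := by
          apply mul_le_mul_of_nonneg_left _ hQ.le
          exact mul_le_mul_of_nonneg_left hg (by positivity)
      _ = √δ / 4 * (4 * (Q * Y ^ 3 * v)) := by ring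
      _ ≤ _ := mul_le_mul_of_nonneg_left hT2 (by positivity)
  have hF2av : Q ^ 2 * av F2 ≤ 2 * δ * T ^ 2 := by
    have h1 := rad_two Y (GG w) (GG_symm w)
    have e : ∑ i, ∑ j, GG w i j ^ 2 = Y ^ 2 * Γ := by
      rw [hΓdef, ← GG_sq]
      unfold av
      rw [Fintype.card_fin, ← sum_div]
      field_simp
    rw [e] at h1
    calc Q ^ 2 * av F2 ≤ Q ^ 2 * (2 * (Y ^ 2 * δ)) := by
          apply mul_le_mul_of_nonneg_left _ (sq_nonneg _)
          refine h1.trans ?_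
          have := mul_le_mul_of_nonneg_left hΓ (by positivity : (0 : ℝ) ≤ (Y : ℝ) ^ 2)
          linarith
      _ = 2 * δ * (Q * Y) ^ 2 := by ring
      _ ≤ _ := mul_le_mul_of_nonneg_left (pow_le_pow_left₀ (by positivity) hTQ 2) (by positivity)
  have hcard : (Fintype.card (Fin Y → Bool) : ℝ) = (2 : ℝ) ^ Y := by
    simp
  have hmk1 := markov (f := F1) (fun a => sq_nonneg _) (t := (ε * T) ^ 2)
    (fun σ => ε * T < |∑ b, sg (σ b) * ((Y : ℝ) * gg m w b)|) (fun σ ha => by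
      rw [hF1]
      simp only
      rw [← sq_abs (∑ b, sg (σ b) * ((Y : ℝ) * gg m w b))]
      exact pow_le_pow_left₀ (by positivity) ha.le 2)
  have hmk2 := markov (f := F2) (fun a => sq_nonneg _) (t := (ε * T) ^ 2)
    (fun σ => ε * T < |RT (GG w) σ|) (fun σ ha => by
      rw [hF2]
      simp only
      rw [← sq_abs (RT (GG w) σ)]
      exact pow_le_pow_left₀ (by positivity) ha.le 2)
  rw [hcard] at hmk1 hmk2
  have hsub : (univ.filter (fun σ : Fin Y → Bool =>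
      ¬ |av (fun x => (∑ b, (if σ b then w x b else 0)) ^ 2) - T / 4| ≤ ε * T)) ⊆
      (univ.filter (fun σ : Fin Y → Bool => ε * T < |∑ b, sg (σ b) * ((Y : ℝ) * gg m w b)|)) ∪
      (univ.filter (fun σ : Fin Y → Bool => ε * T < |RT (GG w) σ|)) := by
    intro σ ha
    rw [mem_filter] at ha
    rw [mem_union, mem_filter, mem_filter]
    by_contra hno
    push Not at hno
    apply ha.2
    have g1 := hno.1 (mem_univ _)
    have g2 := hno.2 (mem_univ _)
    rw [hdec]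
    have hs : |∑ b, av (fun x => w x b ^ 2) - Q * Y| ≤ δ * (Q * Y) := by
      have e : ∑ b, av (fun x => w x b ^ 2) - Q * Y = ∑ b, (av (fun x => w x b ^ 2) - Q) := by
        rw [sum_sub_distrib, sum_const, card_univ, Fintype.card_fin, nsmul_eq_mul, mul_comm Q]
      rw [e]
      refine (abs_sum_le_sum_abs _ _).trans ?_
      refine (sum_le_sum fun i _ => hK i).trans (le_of_eq ?_)
      rw [sum_const, card_univ, Fintype.card_fin, nsmul_eq_mul]
      ring
    have hs2 : δ * (Q * Y) ≤ ε * T := mul_le_mul hδ hTQ (by positivity) (by positivity)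
    rw [hT] at *
    rw [abs_le] at *
    constructor <;> linarith [hs.1, hs.2, g1.1, g1.2, g2.1, g2.2]
  have hT20 : 0 < T ^ 2 := by positivity
  have hc1 : ((univ.filter (fun σ : Fin Y → Bool => ε * T < |∑ b, sg (σ b) * ((Y : ℝ) * gg m w b)|)).card : ℝ) ≤
      ε / 2 * (2 : ℝ) ^ Y := by
    set c := ((univ.filter (fun σ : Fin Y → Bool => ε * T < |∑ b, sg (σ b) * ((Y : ℝ) * gg m w b)|)).card : ℝ)
    have h1 : Q * ((ε * T) ^ 2 * c) ≤ √δ / 4 * T ^ 2 * 2 ^ Y := by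
      calc Q * ((ε * T) ^ 2 * c) ≤ Q * (av F1 * 2 ^ Y) := mul_le_mul_of_nonneg_left hmk1 hQ.le
        _ = (Q * av F1) * 2 ^ Y := by ring
        _ ≤ _ := mul_le_mul_of_nonneg_right hF1av (by positivity)
    have h2 : (Q * ε ^ 2 * T ^ 2) * c ≤ (Q * ε ^ 2 * T ^ 2) * (ε / 2 * (2 : ℝ) ^ Y) := by
      have h3 : √δ / 4 ≤ ε ^ 3 * Q / 2 := by nlinarith [Real.sqrt_nonneg δ]
      have h4 : √δ / 4 * (T ^ 2 * 2 ^ Y) ≤ ε ^ 3 * Q / 2 * (T ^ 2 * 2 ^ Y) := mul_le_mul_of_nonneg_right h3 (by positivity)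
      nlinarith
    exact le_of_mul_le_mul_left h2 (by positivity)
  have hc2 : ((univ.filter (fun σ : Fin Y → Bool => ε * T < |RT (GG w) σ|)).card : ℝ) ≤
      ε / 2 * (2 : ℝ) ^ Y := by
    set c := ((univ.filter (fun σ : Fin Y → Bool => ε * T < |RT (GG w) σ|)).card : ℝ)
    have h1 : Q ^ 2 * ((ε * T) ^ 2 * c) ≤ 2 * δ * T ^ 2 * 2 ^ Y := by
      calc Q ^ 2 * ((ε * T) ^ 2 * c) ≤ Q ^ 2 * (av F2 * 2 ^ Y) := mul_le_mul_of_nonneg_left hmk2 (by positivity)
        _ = (Q ^ 2 * av F2) * 2 ^ Y := by ring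
        _ ≤ _ := mul_le_mul_of_nonneg_right hF2av (by positivity)
    have h2 : (Q ^ 2 * ε ^ 2 * T ^ 2) * c ≤ (Q ^ 2 * ε ^ 2 * T ^ 2) * (ε / 2 * (2 : ℝ) ^ Y) := by
      have h3 : 2 * δ ≤ ε ^ 3 * Q ^ 2 / 2 := by linarith
      have h4 : 2 * δ * (T ^ 2 * 2 ^ Y) ≤ ε ^ 3 * Q ^ 2 / 2 * (T ^ 2 * 2 ^ Y) := mul_le_mul_of_nonneg_right h3 (by positivity)
      nlinarith
    exact le_of_mul_le_mul_left h2 (by positivity)
  calc _ ≤ (((univ.filter (fun σ : Fin Y → Bool => ε * T < |∑ b, sg (σ b) * ((Y : ℝ) * gg m w b)|)) ∪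
      (univ.filter (fun σ : Fin Y → Bool => ε * T < |RT (GG w) σ|))).card : ℝ) :=
        Nat.cast_le.2 (card_le_card hsub)
    _ ≤ ((univ.filter (fun σ : Fin Y → Bool => ε * T < |∑ b, sg (σ b) * ((Y : ℝ) * gg m w b)|)).card : ℝ) +
      ((univ.filter (fun σ : Fin Y → Bool => ε * T < |RT (GG w) σ|)).card : ℝ) := by
        rw [← Nat.cast_add]
        exact Nat.cast_le.2 (card_union_le _ _)
    _ ≤ ε / 2 * (2 : ℝ) ^ Y + ε / 2 * (2 : ℝ) ^ Y := add_le_add hc1 hc2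
    _ = _ := by ring

open scoped Classical in
/-- **mean squares of bounded sequences over almost all subsets of windows** -/
theorem sub_gen {f : ℕ → ℝ} {q : ℝ} (hq : 0 < q) (hf : ∀ n, |f n| ≤ 1)
    (hpair : ∀ ε : ℝ, 0 < ε → ∃ N₀ : ℕ, ∀ X Y : ℕ, N₀ ≤ X → N₀ ≤ Y → Y ≤ X → Pair f X Y ε)
    (hdiag : ∀ ε : ℝ, 0 < ε → ∃ N₀ : ℕ, ∀ X b : ℕ, N₀ ≤ X → b ≤ X → |∑ x ∈ Ico X (2 * X), f (x + b) ^ 2 - q * X| ≤ ε * X)
    (ε : ℝ) (hε : 0 < ε) :
    ∃ N₀ : ℕ, ∀ X Y : ℕ, N₀ ≤ Y → Y ≤ X →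
      (((range Y).powerset.filter (fun A =>
        ¬ |1 / (X : ℝ) * ∑ x ∈ Ico X (2 * X), (∑ b ∈ A, f (x + b)) ^ 2 -
          (q * Y + 1 / (X : ℝ) * ∑ x ∈ Ico X (2 * X), (∑ b ∈ range Y, f (x + b)) ^ 2) / 4| ≤
          ε * (q * Y + 1 / (X : ℝ) * ∑ x ∈ Ico X (2 * X), (∑ b ∈ range Y, f (x + b)) ^ 2))).card : ℝ) ≤ ε * (2 : ℝ) ^ Y := by
  obtain ⟨δ, hδ0, hδ1, hδ2, hδ3⟩ : ∃ δ : ℝ, 0 < δ ∧ δ ≤ ε ∧ 3 * √δ ≤ ε ^ 3 * q ∧ 5 * δ ≤ ε ^ 3 * q ^ 2 := by
    refine ⟨min ε (min (ε ^ 3 * q ^ 2 / 5) ((ε ^ 3 * q / 3) ^ 2)), by positivity, min_le_left _ _, ?_, ?_⟩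
    · have h1 : √(min ε (min (ε ^ 3 * q ^ 2 / 5) ((ε ^ 3 * q / 3) ^ 2))) ≤ ε ^ 3 * q / 3 := by
        apply Real.sqrt_le_iff.2
        exact ⟨by positivity, (min_le_right _ _).trans (min_le_right _ _)⟩
      linarith
    · have h2 : min ε (min (ε ^ 3 * q ^ 2 / 5) ((ε ^ 3 * q / 3) ^ 2)) ≤ ε ^ 3 * q ^ 2 / 5 :=
        (min_le_right _ _).trans (min_le_left _ _)
      linarith
  obtain ⟨N₁, h1⟩ := hpair δ hδ0
  obtain ⟨N₂, h2⟩ := hdiag (δ * q) (by positivity)
  refine ⟨N₁ + N₂ + 1, fun X Y hY hYX => ?_⟩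
  have hX0 : (0 : ℝ) < X := by exact_mod_cast (by omega : 0 < X)
  have hY0 : (0 : ℝ) < Y := by exact_mod_cast (by omega : 0 < Y)
  have hP := h1 X Y (by omega) (by omega) hYX
  have : Nonempty (Fin Y) := ⟨⟨0, by omega⟩⟩
  have : Nonempty (Ico X (2 * X)) := ⟨⟨X, by rw [mem_Ico]; omega⟩⟩
  have key := sub_main (α := Ico X (2 * X)) (by omega : 1 ≤ Y) (fun x => mn f Y x) (fun x b => f (x + b))
    (fun x => (av_sub_mn _).symm) q δ ε hq hε hδ0 hδ1 hδ2 hδ3 ?_ ?_
  · have e2 : (Y : ℝ) ^ 2 * av (fun x : Ico X (2 * X) => mn f Y x ^ 2) =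
        1 / (X : ℝ) * ∑ x ∈ Ico X (2 * X), (∑ b ∈ range Y, f (x + b)) ^ 2 := by
      rw [av_I (fun x => mn f Y x ^ 2)]
      unfold mn S1
      simp_rw [div_pow]
      rw [← sum_div]
      field_simp
    rw [e2] at key
    refine le_trans ?_ key
    apply Nat.cast_le.2
    apply card_le_card_of_injOn (fun (A : Finset ℕ) (i : Fin Y) => decide ((i : ℕ) ∈ A))
    · intro A hA
      have hA1 := Finset.mem_coe.1 hA
      rw [mem_filter, mem_powerset] at hA1
      refine Finset.mem_coe.2 ?_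
      rw [mem_filter]
      refine ⟨mem_univ _, ?_⟩
      have e3 : av (fun x : Ico X (2 * X) => (∑ b : Fin Y, (if decide ((b : ℕ) ∈ A) = true then f (x + b) else 0)) ^ 2) =
          1 / (X : ℝ) * ∑ x ∈ Ico X (2 * X), (∑ b ∈ A, f (x + b)) ^ 2 := by
        rw [av_I (fun x => (∑ b : Fin Y, (if decide ((b : ℕ) ∈ A) = true then f (x + b) else 0)) ^ 2)]
        congr 1
        apply sum_congr rfl
        intro x _
        congr 1
        simp only [decide_eq_true_eq]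
        rw [Fin.sum_univ_eq_sum_range (fun b => if b ∈ A then f (x + b) else 0) Y, ← sum_filter]
        congr 1
        ext b
        rw [mem_filter]
        exact ⟨fun h => h.2, fun h => ⟨hA1.1 h, h⟩⟩
      rw [e3]
      exact hA1.2
    · intro A hA B hB hAB
      have hA1 := (mem_powerset.1 (mem_filter.1 (Finset.mem_coe.1 hA)).1)
      have hB1 := (mem_powerset.1 (mem_filter.1 (Finset.mem_coe.1 hB)).1)
      ext n
      constructor
      · intro hn
        have := congrFun hAB ⟨n, mem_range.1 (hA1 hn)⟩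
        simp only [decide_eq_decide] at this
        exact this.1 hn
      · intro hn
        have := congrFun hAB ⟨n, mem_range.1 (hB1 hn)⟩
        simp only [decide_eq_decide] at this
        exact this.2 hn
  · intro b
    have e : av (fun x : Ico X (2 * X) => f (x + b) ^ 2) - q =
        1 / (X : ℝ) * (∑ x ∈ Ico X (2 * X), f (x + b) ^ 2 - q * X) := by
      rw [av_I (fun x => f (x + b) ^ 2)]
      field_simp
    rw [e, abs_mul, abs_of_pos (by positivity : 0 < 1 / (X : ℝ))]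
    have := h2 X b (by omega) (by have := b.2; omega)
    calc 1 / (X : ℝ) * |∑ x ∈ Ico X (2 * X), f (x + b) ^ 2 - q * X| ≤ 1 / (X : ℝ) * (δ * q * X) :=
          mul_le_mul_of_nonneg_left this (by positivity)
      _ = δ * q := by field_simp
  · rw [← GG_sq (fun (x : Ico X (2 * X)) (b : Fin Y) => f (x + b))]
    have h3 : ∀ b c : Fin Y, GG (fun (x : Ico X (2 * X)) (b : Fin Y) => f (x + b)) b c ^ 2 ≤
        1 / (X : ℝ) * |∑ x ∈ Ico X (2 * X), f (x + b) * f (x + c)| := by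
      intro b c
      have e : GG (fun (x : Ico X (2 * X)) (b : Fin Y) => f (x + b)) b c =
          1 / (X : ℝ) * ∑ x ∈ Ico X (2 * X), f (x + b) * f (x + c) := by
        unfold GG
        exact av_I (fun x => f (x + b) * f (x + c))
      have h4 : |GG (fun (x : Ico X (2 * X)) (b : Fin Y) => f (x + b)) b c| ≤ 1 := by
        unfold GG
        refine (abs_av_le _).trans (av_le fun x => ?_)
        rw [abs_mul]
        exact mul_le_one₀ (hf _) (abs_nonneg _) (hf _)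
      have h5 : |GG (fun (x : Ico X (2 * X)) (b : Fin Y) => f (x + b)) b c| =
          1 / (X : ℝ) * |∑ x ∈ Ico X (2 * X), f (x + b) * f (x + c)| := by
        rw [e, abs_mul, abs_of_pos (by positivity : 0 < 1 / (X : ℝ))]
      rw [← h5, ← sq_abs]
      nlinarith [abs_nonneg (GG (fun (x : Ico X (2 * X)) (b : Fin Y) => f (x + b)) b c)]
    refine (av_mono fun b => av_mono fun c => h3 b c).trans ?_
    have h6 : ∀ b : Fin Y, av (fun c : Fin Y => 1 / (X : ℝ) * |∑ x ∈ Ico X (2 * X), f (x + b) * f (x + c)|) =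
        1 / (X : ℝ) * ((∑ c ∈ range Y, |∑ x ∈ Ico X (2 * X), f (x + b) * f (x + c)|) / Y) := by
      intro b
      rw [av_mul, av_fin (fun c => |∑ x ∈ Ico X (2 * X), f (x + b) * f (x + c)|)]
    simp_rw [h6]
    rw [av_fin (fun b => 1 / (X : ℝ) * ((∑ c ∈ range Y, |∑ x ∈ Ico X (2 * X), f (x + b) * f (x + c)|) / Y)),
      ← mul_sum, ← sum_div]
    unfold Pair at hP
    rw [div_le_iff₀ hY0, one_div_mul_eq_div, div_le_iff₀ hX0, div_le_iff₀ hY0]
    calc _ ≤ δ * X * Y ^ 2 := hP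
      _ = _ := by ring

end Pool.Agent.Q42.RS
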