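import Pool.Agent.Cov.PNT
import Pool.Agent.H357R2.SI.PairFinal
import Pool.Agent.Q42.RS.Sub

/-!
# The von Mangoldt function
-/

set_option autoImplicit false

namespace Pool.Agent.Q42.RS

open Finset Filter
open Pool.Agent.H357R2.SI (one_le_sg sum_sg_sq pair_sieve)

/-- the sum of the reciprocals of the divisors -/
noncomputable abbrev ss (h : ℕ) : ℝ := Pool.Agent.H357R2.SI.sg h

/-- the von Mangoldt function -/
noncomputable def ll (n : ℕ) : ℝ := ArithmeticFunction.vonMangoldt n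

lemma ll_nonneg (n : ℕ) : 0 ≤ ll n := ArithmeticFunction.vonMangoldt_nonneg

lemma ll_le (n M : ℕ) (h : n ≤ M) (hM : 1 ≤ M) : ll n ≤ Real.log M := by
  rcases Nat.eq_zero_or_pos n with h0 | h0
  · subst h0
    unfold ll
    rw [ArithmeticFunction.map_zero]
    exact Real.log_nonneg (by exact_mod_cast hM)
  · unfold ll
    exact ArithmeticFunction.vonMangoldt_le_log.trans (Real.log_le_log (by exact_mod_cast h0) (by exact_mod_cast h))

lemma psi_nat (N : ℕ) : Chebyshev.psi N = ∑ n ∈ Ioc 0 N, ll n := by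
  unfold Chebyshev.psi ll
  rw [Nat.floor_natCast]

lemma sum_ll_le (N : ℕ) : ∑ n ∈ Ioc 0 N, ll n ≤ 6 * N := by
  rw [← psi_nat]
  refine (Chebyshev.psi_le_const_mul_self (Nat.cast_nonneg N)).trans ?_
  have : Real.log 4 ≤ 2 := by
    have h1 : Real.log 4 = 2 * Real.log 2 := by
      rw [show (4 : ℝ) = 2 ^ 2 by norm_num, Real.log_pow]
      norm_num
    have := Real.log_two_lt_d9
    linarith
  exact mul_le_mul_of_nonneg_right (by linarith) (Nat.cast_nonneg N)

/-- shifting a sum -/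
lemma shift_sum (F : ℕ → ℝ) (X b : ℕ) : ∑ x ∈ Icc 1 X, F (x + b) = ∑ n ∈ Ioc b (b + X), F n := by
  have e1 : Icc 1 X = Ico 1 (X + 1) := by
    ext n
    simp only [mem_Icc, mem_Ico]
    omega
  have e2 : Ioc b (b + X) = Ico (1 + b) (X + 1 + b) := by
    ext n
    simp only [mem_Ioc, mem_Ico]
    omega
  rw [e1, e2, sum_Ico_add' F 1 (X + 1) b]

lemma shift_le {F : ℕ → ℝ} (hF : ∀ n, 0 ≤ F n) {X b : ℕ} (hb : b ≤ X) :
    ∑ x ∈ Icc 1 X, F (x + b) ≤ ∑ n ∈ Ioc 0 (2 * X), F n := by
  rw [shift_sum]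
  apply sum_le_sum_of_subset_of_nonneg
  · intro n hn
    rw [mem_Ioc] at hn ⊢
    omega
  · intro n _ _
    exact hF n

lemma sum_ll_shift {X b : ℕ} (hb : b ≤ X) : ∑ x ∈ Icc 1 X, ll (x + b) ≤ 12 * X := by
  refine (shift_le ll_nonneg hb).trans ((sum_ll_le _).trans (le_of_eq ?_))
  push_cast
  ring

/-- the contribution of the numbers that are not prime -/
lemma nonprime_sum : ∃ C : ℝ, 0 ≤ C ∧ ∀ N : ℕ, ∑ n ∈ Ioc 0 N, (if n.Prime then 0 else ll n) ≤ C * √N := by
  obtain ⟨C, hC⟩ := Chebyshev.psi_sub_theta_le_mul_sqrt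
  refine ⟨max C 0, le_max_right _ _, fun N => ?_⟩
  have h1 := hC N
  rw [Chebyshev.psi_sub_theta_eq_sum_not_prime, Nat.floor_natCast, sum_filter] at h1
  have e : ∑ n ∈ Ioc 0 N, (if n.Prime then 0 else ll n) = ∑ a ∈ Ioc 0 N, (if ¬ a.Prime then ArithmeticFunction.vonMangoldt a else 0) := by
    apply sum_congr rfl
    intro n _
    unfold ll
    by_cases h : n.Prime <;> simp [h]
  rw [e]
  exact h1.trans (mul_le_mul_of_nonneg_right (le_max_left _ _) (Real.sqrt_nonneg _))

/-- pairs -/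
theorem pair_ll : ∃ C : ℝ, 1 ≤ C ∧ ∃ N₀ : ℕ, ∀ X b c : ℕ, N₀ ≤ X → b < c → c ≤ X →
    ∑ x ∈ Icc 1 X, ll (x + b) * ll (x + c) ≤ C * ss (c - b) ^ 2 * X := by
  obtain ⟨C1, hC1, u0, h1⟩ := pair_sieve
  obtain ⟨C2, hC2, h2⟩ := nonprime_sum
  have hlim : ∀ᶠ x : ℝ in atTop, 6 * C2 * Real.log x ≤ x ^ (1 / 2 : ℝ) := by
    have h := (isLittleO_log_rpow_atTop (by norm_num : (0 : ℝ) < 1 / 2)).bound (by positivity : (0 : ℝ) < 1 / (6 * C2 + 1))
    filter_upwards [h, eventually_ge_atTop 1] with x hx hx1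
    rw [Real.norm_of_nonneg (Real.log_nonneg hx1), Real.norm_of_nonneg (by positivity), div_mul_eq_mul_div, one_mul,
      le_div_iff₀ (by positivity)] at hx
    have := Real.log_nonneg hx1
    nlinarith
  obtain ⟨x0, hx0⟩ := eventually_atTop.1 hlim
  obtain ⟨N1, hN1⟩ := exists_nat_ge x0
  refine ⟨4 * C1 + 3, by linarith, u0 + N1 + 3, fun X b c hX hbc hc => ?_⟩
  have hX3 : (3 : ℝ) ≤ X := by exact_mod_cast (by omega : 3 ≤ X)
  have hlX : 0 < Real.log X := Real.log_pos (by linarith)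
  have hl3 : Real.log ((3 * X : ℕ) : ℝ) ≤ 2 * Real.log X := by
    push_cast
    rw [Real.log_mul (by norm_num) (by positivity)]
    have : Real.log 3 ≤ Real.log X := Real.log_le_log (by norm_num) hX3
    linarith
  have hl30 : 0 ≤ Real.log ((3 * X : ℕ) : ℝ) := Real.log_nonneg (by
    push_cast
    linarith)
  set h := c - b with hh
  have hh0 : 0 < h := by omega
  have hsg : 1 ≤ ss h := one_le_sg hh0
  have hpt : ∀ x ∈ Icc 1 X, ll (x + b) * ll (x + c) ≤
      Real.log ((3 * X : ℕ) : ℝ) ^ 2 * (if (x + b).Prime ∧ (x + b + h).Prime then 1 else 0) +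
      Real.log ((3 * X : ℕ) : ℝ) * (if (x + b).Prime then 0 else ll (x + b)) +
      Real.log ((3 * X : ℕ) : ℝ) * (if (x + c).Prime then 0 else ll (x + c)) := by
    intro x hx
    rw [mem_Icc] at hx
    have e : x + b + h = x + c := by omega
    rw [e]
    have a1 := ll_le (x + b) (3 * X) (by omega) (by omega)
    have a2 := ll_le (x + c) (3 * X) (by omega) (by omega)
    have b1 := ll_nonneg (x + b)
    have b2 := ll_nonneg (x + c)
    by_cases p1 : (x + b).Prime <;> by_cases p2 : (x + c).Prime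
    · simp only [p1, p2, and_self, if_true]
      nlinarith
    · simp only [p1, p2, and_false, if_true, if_false]
      nlinarith
    · simp only [p1, p2, false_and, if_true, if_false]
      nlinarith
    · simp only [p1, p2, false_and, if_false]
      nlinarith
  refine (sum_le_sum hpt).trans ?_
  rw [sum_add_distrib, sum_add_distrib, ← mul_sum, ← mul_sum, ← mul_sum]
  have s1 : ∑ x ∈ Icc 1 X, (if (x + b).Prime ∧ (x + b + h).Prime then (1 : ℝ) else 0) ≤ C1 * ss h ^ 2 * X / Real.log X ^ 2 := by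
    rw [shift_sum (fun n => if n.Prime ∧ (n + h).Prime then (1 : ℝ) else 0) X b, ← sum_filter, sum_const, nsmul_eq_mul, mul_one]
    exact h1 h b X hh0 (by omega)
  have hnp : ∀ n, 0 ≤ (if n.Prime then 0 else ll n) := fun n => by
    split_ifs
    · exact le_rfl
    · exact ll_nonneg n
  have s2 : ∑ x ∈ Icc 1 X, (if (x + b).Prime then 0 else ll (x + b)) ≤ C2 * √((2 * X : ℕ) : ℝ) :=
    (shift_le hnp (by omega)).trans (h2 _)
  have s3 : ∑ x ∈ Icc 1 X, (if (x + c).Prime then 0 else ll (x + c)) ≤ C2 * √((2 * X : ℕ) : ℝ) :=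
    (shift_le hnp (by omega)).trans (h2 _)
  have hsq : √((2 * X : ℕ) : ℝ) ≤ 3 / 2 * (X : ℝ) ^ (1 / 2 : ℝ) := by
    rw [← Real.sqrt_eq_rpow]
    push_cast
    rw [Real.sqrt_mul (by norm_num)]
    apply mul_le_mul_of_nonneg_right _ (Real.sqrt_nonneg _)
    rw [Real.sqrt_le_left (by norm_num)]
    norm_num
  have hx2 := hx0 X (hN1.trans (by exact_mod_cast (by omega : N1 ≤ X)))
  have hXX : (X : ℝ) ^ (1 / 2 : ℝ) * (X : ℝ) ^ (1 / 2 : ℝ) = X := by
    rw [← Real.rpow_add (by linarith)]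
    norm_num
  have hr0 : 0 ≤ (X : ℝ) ^ (1 / 2 : ℝ) := by positivity
  have t1 : Real.log ((3 * X : ℕ) : ℝ) ^ 2 * (∑ x ∈ Icc 1 X, (if (x + b).Prime ∧ (x + b + h).Prime then (1 : ℝ) else 0)) ≤
      4 * C1 * ss h ^ 2 * X := by
    calc _ ≤ (2 * Real.log X) ^ 2 * (C1 * ss h ^ 2 * X / Real.log X ^ 2) :=
          mul_le_mul (pow_le_pow_left₀ hl30 hl3 2) s1 (sum_nonneg fun x _ => by split_ifs <;> norm_num) (by positivity)
      _ = _ := by field_simp; ring
  have t2 : Real.log ((3 * X : ℕ) : ℝ) * (C2 * √((2 * X : ℕ) : ℝ)) ≤ X := by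
    calc Real.log ((3 * X : ℕ) : ℝ) * (C2 * √((2 * X : ℕ) : ℝ)) ≤ (2 * Real.log X) * (C2 * (3 / 2 * (X : ℝ) ^ (1 / 2 : ℝ))) :=
          mul_le_mul hl3 (mul_le_mul_of_nonneg_left hsq hC2) (by positivity) (by positivity)
      _ = (3 * C2 * Real.log X) * (X : ℝ) ^ (1 / 2 : ℝ) := by ring
      _ ≤ (X : ℝ) ^ (1 / 2 : ℝ) * (X : ℝ) ^ (1 / 2 : ℝ) := by
          apply mul_le_mul_of_nonneg_right _ hr0
          have : 0 ≤ 3 * C2 * Real.log X := by positivity
          linarith
      _ = X := hXX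
  have t3 := mul_le_mul_of_nonneg_left s2 hl30
  have t4 := mul_le_mul_of_nonneg_left s3 hl30
  have hsg2 : 1 ≤ ss h ^ 2 := one_le_pow₀ hsg
  have hX0 : (0 : ℝ) ≤ X := Nat.cast_nonneg X
  nlinarith

/-- the von Mangoldt function minus its mean value -/
noncomputable def gl (n : ℕ) : ℝ := ll n - 1

lemma sum_gl_le {X b c : ℕ} (hb : b ≤ X) (hc : c ≤ X) :
    |∑ x ∈ Icc 1 X, gl (x + b) * gl (x + c)| ≤ ∑ x ∈ Icc 1 X, ll (x + b) * ll (x + c) + 25 * X := by
  refine (abs_sum_le_sum_abs _ _).trans ?_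
  have h : ∀ x ∈ Icc 1 X, |gl (x + b) * gl (x + c)| ≤ ll (x + b) * ll (x + c) + ll (x + b) + ll (x + c) + 1 := by
    intro x _
    unfold gl
    have a' := ll_nonneg (x + b)
    have b' := ll_nonneg (x + c)
    have : 0 ≤ ll (x + b) * ll (x + c) := mul_nonneg a' b'
    rw [abs_le]
    constructor <;> nlinarith
  refine (sum_le_sum h).trans ?_
  rw [sum_add_distrib, sum_add_distrib, sum_add_distrib, sum_const, Nat.card_Icc, nsmul_eq_mul, mul_one]
  have h1 := sum_ll_shift hb
  have h2 := sum_ll_shift hc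
  simp only [add_tsub_cancel_right]
  linarith

/-- bound for every pair -/
lemma pair_triv : ∃ N₀ : ℕ, ∀ X b c : ℕ, N₀ ≤ X → b ≤ X → c ≤ X →
    |∑ x ∈ Icc 1 X, gl (x + b) * gl (x + c)| ≤ 49 * (X * Real.log X) := by
  refine ⟨3, fun X b c hX hb hc => ?_⟩
  have hX3 : (3 : ℝ) ≤ X := by exact_mod_cast hX
  have hlX1 : 1 ≤ Real.log X := by
    rw [Real.le_log_iff_exp_le (by linarith)]
    exact (Real.exp_one_lt_d9.le.trans (by norm_num)).trans hX3
  have hl3 : Real.log ((3 * X : ℕ) : ℝ) ≤ 2 * Real.log X := by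
    push_cast
    rw [Real.log_mul (by norm_num) (by positivity)]
    have : Real.log 3 ≤ Real.log X := Real.log_le_log (by norm_num) hX3
    linarith
  refine (sum_gl_le hb hc).trans ?_
  have h1 : ∑ x ∈ Icc 1 X, ll (x + b) * ll (x + c) ≤ 24 * (X * Real.log X) := by
    calc _ ≤ ∑ x ∈ Icc 1 X, ll (x + b) * (2 * Real.log X) := by
          refine sum_le_sum fun x hx => ?_
          rw [mem_Icc] at hx
          exact mul_le_mul_of_nonneg_left ((ll_le (x + c) (3 * X) (by omega) (by omega)).trans hl3) (ll_nonneg _)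
      _ = (∑ x ∈ Icc 1 X, ll (x + b)) * (2 * Real.log X) := by rw [sum_mul]
      _ ≤ (12 * X) * (2 * Real.log X) := mul_le_mul_of_nonneg_right (sum_ll_shift hb) (by positivity)
      _ = _ := by ring
  have h2 : (X : ℝ) ≤ X * Real.log X := le_mul_of_one_le_right (by positivity) hlX1
  linarith

/-- bound for the sum over all pairs of shifts -/
lemma pair_sum : ∃ C : ℝ, 1 ≤ C ∧ ∃ N₀ : ℕ, ∀ X Y : ℕ, N₀ ≤ X → Y ≤ X →
    ∑ b ∈ range Y, ∑ c ∈ range Y, |∑ x ∈ Icc 1 X, gl (x + b) * gl (x + c)| ≤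
      C * X * ((Y : ℝ) ^ 2 + Y * Real.log X) := by
  obtain ⟨C1, hC1, N1, h1⟩ := pair_ll
  obtain ⟨C2, hC2, h2⟩ := sum_sg_sq
  obtain ⟨N3, h3⟩ := pair_triv
  refine ⟨2 * C1 * C2 + 74, by nlinarith, N1 + N3 + 3, fun X Y hX hYX => ?_⟩
  have hX0 : (0 : ℝ) ≤ X := Nat.cast_nonneg X
  have hY0 : (0 : ℝ) ≤ Y := Nat.cast_nonneg Y
  have hlX : 0 ≤ Real.log X := Real.log_natCast_nonneg X
  have hrow : ∀ b ∈ range Y, ∑ c ∈ range Y, |∑ x ∈ Icc 1 X, gl (x + b) * gl (x + c)| ≤
      49 * (X * Real.log X) + Y * (25 * X) + 2 * (C1 * X * (C2 * Y)) := by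
    intro b hb
    rw [mem_range] at hb
    have hpt : ∀ c ∈ range Y, |∑ x ∈ Icc 1 X, gl (x + b) * gl (x + c)| ≤
        (if c = b then 49 * (X * Real.log X) else 0) + 25 * X + ((if b < c then C1 * ss (c - b) ^ 2 * X else 0) +
          (if c < b then C1 * ss (b - c) ^ 2 * X else 0)) := by
      intro c hc
      rw [mem_range] at hc
      rcases lt_trichotomy b c with h | h | h
      · rw [if_neg (by omega), if_pos h, if_neg (by omega)]
        have := sum_gl_le (X := X) (b := b) (c := c) (by omega) (by omega)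
        have := h1 X b c (by omega) h (by omega)
        linarith
      · subst h
        rw [if_pos rfl, if_neg (lt_irrefl _)]
        have := h3 X b b (by omega) (by omega) (by omega)
        have : (0 : ℝ) ≤ 25 * X := by positivity
        linarith
      · rw [if_neg (by omega), if_neg (by omega), if_pos h]
        have e : ∑ x ∈ Icc 1 X, gl (x + b) * gl (x + c) = ∑ x ∈ Icc 1 X, gl (x + c) * gl (x + b) :=
          sum_congr rfl fun x _ => mul_comm _ _
        rw [e]
        have := sum_gl_le (X := X) (b := c) (c := b) (by omega) (by omega)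
        have := h1 X c b (by omega) h (by omega)
        linarith
    refine (sum_le_sum hpt).trans ?_
    rw [sum_add_distrib, sum_add_distrib, sum_add_distrib, sum_ite_eq' (range Y) b (fun _ => 49 * (X * Real.log X)),
      if_pos (mem_range.2 hb), sum_const, card_range, nsmul_eq_mul]
    have q1 : ∑ c ∈ range Y, (if b < c then C1 * ss (c - b) ^ 2 * X else 0) ≤ C1 * X * (C2 * Y) := by
      rw [← sum_filter]
      have e : ∑ c ∈ (range Y).filter (fun c => b < c), C1 * ss (c - b) ^ 2 * X ≤ ∑ h ∈ Icc 1 Y, C1 * ss h ^ 2 * X := by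
        have e1 : ∑ c ∈ (range Y).filter (fun c => b < c), C1 * ss (c - b) ^ 2 * X =
            ∑ h ∈ ((range Y).filter (fun c => b < c)).image (fun c => c - b), C1 * ss h ^ 2 * X := by
          rw [sum_image]
          intro c hc c' hc' hcc
          rw [Finset.mem_coe, mem_filter, mem_range] at hc hc'
          simp only at hcc
          omega
        rw [e1]
        apply sum_le_sum_of_subset_of_nonneg
        · intro h hh
          rw [mem_image] at hh
          obtain ⟨c, hc, rfl⟩ := hh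
          rw [mem_filter, mem_range] at hc
          rw [mem_Icc]
          omega
        · intro h _ _
          positivity
      refine e.trans ?_
      have e2 : ∑ h ∈ Icc 1 Y, C1 * ss h ^ 2 * X = C1 * X * ∑ h ∈ Icc 1 Y, ss h ^ 2 := by
        rw [mul_sum]
        exact sum_congr rfl fun h _ => by ring
      rw [e2]
      exact mul_le_mul_of_nonneg_left (h2 Y) (by positivity)
    have q2 : ∑ c ∈ range Y, (if c < b then C1 * ss (b - c) ^ 2 * X else 0) ≤ C1 * X * (C2 * Y) := by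
      rw [← sum_filter]
      have e : ∑ c ∈ (range Y).filter (fun c => c < b), C1 * ss (b - c) ^ 2 * X ≤ ∑ h ∈ Icc 1 Y, C1 * ss h ^ 2 * X := by
        have e1 : ∑ c ∈ (range Y).filter (fun c => c < b), C1 * ss (b - c) ^ 2 * X =
            ∑ h ∈ ((range Y).filter (fun c => c < b)).image (fun c => b - c), C1 * ss h ^ 2 * X := by
          rw [sum_image]
          intro c hc c' hc' hcc
          rw [Finset.mem_coe, mem_filter, mem_range] at hc hc'
          simp only at hcc
          omega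
        rw [e1]
        apply sum_le_sum_of_subset_of_nonneg
        · intro h hh
          rw [mem_image] at hh
          obtain ⟨c, hc, rfl⟩ := hh
          rw [mem_filter, mem_range] at hc
          rw [mem_Icc]
          omega
        · intro h _ _
          positivity
      refine e.trans ?_
      have e2 : ∑ h ∈ Icc 1 Y, C1 * ss h ^ 2 * X = C1 * X * ∑ h ∈ Icc 1 Y, ss h ^ 2 := by
        rw [mul_sum]
        exact sum_congr rfl fun h _ => by ring
      rw [e2]
      exact mul_le_mul_of_nonneg_left (h2 Y) (by positivity)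
    linarith
  refine (sum_le_sum hrow).trans ?_
  rw [sum_const, card_range, nsmul_eq_mul]
  have a1 : 0 ≤ X * (Y : ℝ) ^ 2 := by positivity
  have a2 : 0 ≤ X * (Y * Real.log X) := by positivity
  have a3 : 0 ≤ (2 * C1 * C2) * (X * (Y * Real.log X)) := by positivity
  nlinarith

/-- prime number theorem in the form needed -/
lemma psi_close (η : ℝ) (hη : 0 < η) : ∃ N₀ : ℕ, ∀ X n : ℕ, N₀ ≤ X → n ≤ 2 * X →
    |∑ m ∈ Ioc 0 n, ll m - n| ≤ η * X := by
  have h1 := Pool.Agent.Cov.PNT.psi_div_tendsto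
  have h2 := Metric.tendsto_atTop.1 h1 (η / 4) (by positivity)
  obtain ⟨T, hT⟩ := h2
  obtain ⟨N1, hN1⟩ := exists_nat_ge (max T 1)
  obtain ⟨N2, hN2⟩ := exists_nat_ge (7 * N1 / η)
  refine ⟨N2 + 1, fun X n hX hn => ?_⟩
  have hX0 : (0 : ℝ) < X := by exact_mod_cast (by omega : 0 < X)
  have hn2 : (n : ℝ) ≤ 2 * X := by exact_mod_cast hn
  rcases le_or_gt N1 n with h | h
  · have hn1 : max T 1 ≤ n := hN1.trans (by exact_mod_cast h)
    have h3 := hT n ((le_max_left _ _).trans hn1)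
    have hn0 : (0 : ℝ) < n := lt_of_lt_of_le one_pos ((le_max_right _ _).trans hn1)
    rw [Real.dist_eq, ← psi_nat] at *
    have e : Chebyshev.psi n - n = (Chebyshev.psi n / n - 1) * n := by field_simp
    rw [e, abs_mul, abs_of_pos hn0]
    calc |Chebyshev.psi n / n - 1| * n ≤ η / 4 * (2 * X) := mul_le_mul h3.le hn2 hn0.le (by positivity)
      _ ≤ η * X := by nlinarith
  · have h4 := sum_ll_le n
    have h5 : 0 ≤ ∑ m ∈ Ioc 0 n, ll m := sum_nonneg fun m _ => ll_nonneg m
    have h6 : (n : ℝ) ≤ N1 := by exact_mod_cast h.le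
    have h7 : 7 * (N1 : ℝ) ≤ η * X := by
      have : 7 * N1 / η ≤ X := hN2.trans (by exact_mod_cast (by omega : N2 ≤ X))
      rw [div_le_iff₀ hη] at this
      linarith
    have h8 : (0 : ℝ) ≤ n := Nat.cast_nonneg n
    rw [abs_le]
    constructor <;> linarith

/-- the mean square in long windows -/
theorem diag_ll (ε : ℝ) (hε : 0 < ε) :
    ∃ N₀ : ℕ, ∀ X b : ℕ, N₀ ≤ X → b ≤ X →
      |∑ x ∈ Icc 1 X, gl (x + b) ^ 2 - X * Real.log X| ≤ ε * (X * Real.log X) := by
  set η : ℝ := min (ε / 32) (1 / 32) with hη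
  have hη0 : 0 < η := by positivity
  have hη1 : η ≤ 1 / 32 := min_le_right _ _
  have hηε : 32 * η ≤ ε := by
    have := min_le_left (ε / 32) (1 / 32)
    rw [← hη] at this
    linarith
  obtain ⟨N1, h1⟩ := psi_close η hη0
  obtain ⟨C2, hC2, h2⟩ := nonprime_sum
  have hlog := Real.tendsto_log_atTop
  have f1 : ∀ᶠ x : ℝ in atTop, 32 ≤ η * Real.log x := (hlog.const_mul_atTop hη0).eventually_ge_atTop 32
  have f2 : ∀ᶠ x : ℝ in atTop, -Real.log η ≤ η * Real.log x := (hlog.const_mul_atTop hη0).eventually_ge_atTop _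
  have f3 : ∀ᶠ x : ℝ in atTop, 2 * C2 / η ≤ √x := Real.tendsto_sqrt_atTop.eventually_ge_atTop _
  obtain ⟨x0, hx0⟩ := eventually_atTop.1 (f1.and (f2.and (f3.and (eventually_ge_atTop (3 : ℝ)))))
  obtain ⟨N2, hN2⟩ := exists_nat_ge x0
  refine ⟨N1 + N2, fun X b hX hb => ?_⟩
  obtain ⟨g1, g2, g3, g4⟩ := hx0 X (hN2.trans (by exact_mod_cast (by omega : N2 ≤ X)))
  have hX0 : (0 : ℝ) < X := by linarith
  have hlX : 0 < Real.log X := Real.log_pos (by linarith)
  have hX1 : 1 ≤ X := by exact_mod_cast hX0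
  -- sums of the von Mangoldt function
  have hS : |∑ x ∈ Icc 1 X, ll (x + b) - X| ≤ 2 * η * X := by
    rw [shift_sum]
    have e : ∑ n ∈ Ioc b (b + X), ll n = ∑ n ∈ Ioc 0 (b + X), ll n - ∑ n ∈ Ioc 0 b, ll n := by
      rw [eq_sub_iff_add_eq, add_comm]
      have : Ioc 0 (b + X) = Ioc 0 b ∪ Ioc b (b + X) := by
        ext n
        simp only [mem_union, mem_Ioc]
        omega
      rw [this, sum_union]
      rw [disjoint_left]
      intro n hn hn'
      rw [mem_Ioc] at hn hn'
      omega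
    rw [e]
    have u1 := h1 X (b + X) (by omega) (by omega)
    have u2 := h1 X b (by omega) (by omega)
    push_cast at u1
    rw [abs_le] at u1 u2 ⊢
    constructor <;> linarith [u1.1, u1.2, u2.1, u2.2]
  rw [abs_le] at hS
  have hexp : ∑ x ∈ Icc 1 X, gl (x + b) ^ 2 = ∑ x ∈ Icc 1 X, ll (x + b) ^ 2 - 2 * ∑ x ∈ Icc 1 X, ll (x + b) + X := by
    have e : ∀ x ∈ Icc 1 X, gl (x + b) ^ 2 = ll (x + b) ^ 2 - 2 * ll (x + b) + 1 := fun x _ => by
      unfold gl
      ring
    rw [sum_congr rfl e, sum_add_distrib, sum_sub_distrib, ← mul_sum, sum_const, Nat.card_Icc, nsmul_eq_mul, mul_one]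
    simp
  have hll0 : 0 ≤ ∑ x ∈ Icc 1 X, ll (x + b) := sum_nonneg fun x _ => ll_nonneg _
  -- upper bound
  have hup : ∑ x ∈ Icc 1 X, ll (x + b) ^ 2 ≤ (1 + η) * Real.log X * ((1 + 2 * η) * X) := by
    have hl2 : Real.log ((2 * X : ℕ) : ℝ) ≤ (1 + η) * Real.log X := by
      push_cast
      rw [Real.log_mul (by norm_num) (by positivity)]
      have := Real.log_two_lt_d9
      linarith
    calc _ ≤ ∑ x ∈ Icc 1 X, ((1 + η) * Real.log X) * ll (x + b) := by
          refine sum_le_sum fun x hx => ?_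
          rw [mem_Icc] at hx
          rw [sq]
          exact mul_le_mul_of_nonneg_right ((ll_le (x + b) (2 * X) (by omega) (by omega)).trans hl2) (ll_nonneg _)
      _ = ((1 + η) * Real.log X) * ∑ x ∈ Icc 1 X, ll (x + b) := by rw [mul_sum]
      _ ≤ _ := mul_le_mul_of_nonneg_left (by linarith [hS.2]) (by positivity)
  -- lower bound
  set M : ℕ := ⌊η * X⌋₊ with hM
  set L : ℝ := Real.log (η * X) with hL
  have hLX : (1 - η) * Real.log X ≤ L := by
    rw [hL, Real.log_mul hη0.ne' hX0.ne']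
    linarith
  have hLX2 : L ≤ Real.log X := by
    apply Real.log_le_log (by positivity)
    nlinarith
  have hL0 : 0 ≤ L := le_trans (by
    have : 0 ≤ 1 - η := by linarith
    positivity) hLX
  have hlow : L * (∑ x ∈ Icc 1 X, ll (x + b) - ∑ x ∈ Icc 1 X, (if (x + b).Prime then 0 else ll (x + b)) -
      ∑ x ∈ Icc 1 X, (if x + b ≤ M then ll (x + b) else 0)) ≤ ∑ x ∈ Icc 1 X, ll (x + b) ^ 2 := by
    rw [← sum_sub_distrib, ← sum_sub_distrib, mul_sum]
    refine sum_le_sum fun x hx => ?_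
    have l0 := ll_nonneg (x + b)
    by_cases p1 : (x + b).Prime
    · rw [if_pos p1, sub_zero]
      by_cases p2 : x + b ≤ M
      · rw [if_pos p2, sub_self, mul_zero]
        positivity
      · rw [if_neg p2, sub_zero, sq]
        apply mul_le_mul_of_nonneg_right _ l0
        unfold ll
        rw [ArithmeticFunction.vonMangoldt_apply_prime p1]
        apply Real.log_le_log (by positivity)
        have : η * X < (M : ℝ) + 1 := Nat.lt_floor_add_one _
        have h3 : (M : ℝ) + 1 ≤ ((x + b : ℕ) : ℝ) := by exact_mod_cast (by omega : M + 1 ≤ x + b)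
        linarith
    · rw [if_neg p1, sub_self, zero_sub]
      have : 0 ≤ (if x + b ≤ M then ll (x + b) else 0) := by split_ifs <;> linarith
      nlinarith [sq_nonneg (ll (x + b))]
  have hnp : ∑ x ∈ Icc 1 X, (if (x + b).Prime then 0 else ll (x + b)) ≤ η * X := by
    have hnp0 : ∀ n, 0 ≤ (if n.Prime then 0 else ll n) := fun n => by
      split_ifs
      · exact le_rfl
      · exact ll_nonneg n
    refine (shift_le hnp0 hb).trans ((h2 _).trans ?_)
    have hsq : √((2 * X : ℕ) : ℝ) ≤ 2 * √X := by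
      push_cast
      rw [Real.sqrt_mul (by norm_num)]
      apply mul_le_mul_of_nonneg_right _ (Real.sqrt_nonneg _)
      rw [Real.sqrt_le_left (by norm_num)]
      norm_num
    rw [div_le_iff₀ hη0] at g3
    calc C2 * √((2 * X : ℕ) : ℝ) ≤ C2 * (2 * √X) := mul_le_mul_of_nonneg_left hsq hC2
      _ = (2 * C2) * √X := by ring
      _ ≤ (√X * η) * √X := mul_le_mul_of_nonneg_right g3 (Real.sqrt_nonneg _)
      _ = η * X := by
          rw [mul_comm (√(X : ℝ)) η, mul_assoc, Real.mul_self_sqrt hX0.le]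
  have hsm : ∑ x ∈ Icc 1 X, (if x + b ≤ M then ll (x + b) else 0) ≤ 6 * (η * X) := by
    rw [shift_sum (fun n => if n ≤ M then ll n else 0) X b, ← sum_filter]
    calc _ ≤ ∑ n ∈ Ioc 0 M, ll n := by
          apply sum_le_sum_of_subset_of_nonneg
          · intro n hn
            rw [mem_filter, mem_Ioc] at hn
            rw [mem_Ioc]
            omega
          · intro n _ _
            exact ll_nonneg n
      _ ≤ 6 * M := sum_ll_le M
      _ ≤ 6 * (η * X) := by
          have := Nat.floor_le (by positivity : 0 ≤ η * (X : ℝ))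
          linarith
  have hlow2 : (1 - η) * Real.log X * ((1 - 9 * η) * X) ≤ ∑ x ∈ Icc 1 X, ll (x + b) ^ 2 := by
    refine le_trans ?_ hlow
    apply mul_le_mul hLX _ (by
      have : 0 ≤ 1 - 9 * η := by linarith
      positivity) hL0
    linarith [hS.1]
  rw [hexp]
  have hXL : 0 < X * Real.log X := by positivity
  have k1 : 32 * (X : ℝ) ≤ η * (X * Real.log X) := by nlinarith
  have k2 := sum_ll_shift hb
  have k3 : η ^ 2 * (X * Real.log X) ≤ η * (X * Real.log X) / 32 := by
    have : η ^ 2 ≤ η / 32 := by nlinarith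
    calc _ ≤ (η / 32) * (X * Real.log X) := mul_le_mul_of_nonneg_right this hXL.le
      _ = _ := by ring
  have k4 : 32 * (η * (X * Real.log X)) ≤ ε * (X * Real.log X) := by
    have := mul_le_mul_of_nonneg_right hηε hXL.le
    linarith
  have k5 : (1 + η) * Real.log X * ((1 + 2 * η) * X) = X * Real.log X + 3 * (η * (X * Real.log X)) + 2 * (η ^ 2 * (X * Real.log X)) := by ring
  have k6 : (1 - η) * Real.log X * ((1 - 9 * η) * X) = X * Real.log X - 10 * (η * (X * Real.log X)) + 9 * (η ^ 2 * (X * Real.log X)) := by ring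
  have k7 : 0 ≤ η ^ 2 * (X * Real.log X) := by positivity
  rw [abs_le]
  constructor <;> linarith

end Pool.Agent.Q42.RS
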