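import Pool.Agent.Q42.RS.Lam

/-!
# Mean squares of the von Mangoldt function over random subsets
-/

set_option autoImplicit false

namespace Pool.Agent.Q42.RS

open Finset

open scoped Classical in
/-- **mean squares over almost all subsets** -/
theorem sub_main2 {α : Type} [Fintype α] [Nonempty α] {Y : ℕ} (hY : 1 ≤ Y) (m : α → ℝ) (w : α → Fin Y → ℝ)
    (hm : ∀ x, m x = av (w x)) (Q δ ε : ℝ) (hQ : 0 < Q) (hε : 0 < ε) (hδ0 : 0 < δ) (hδ : δ ≤ ε)
    (hδ2 : 3 * √δ ≤ ε ^ 3) (hδ3 : 5 * δ ≤ ε ^ 3)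
    (hK : ∀ b, |av (fun x => w x b ^ 2) - Q| ≤ δ * Q)
    (hΓ : av (fun x => av (fun y => (av (fun b => w x b * w y b)) ^ 2)) ≤ δ * Q ^ 2) :
    ((univ.filter (fun σ : Fin Y → Bool =>
      ¬ |av (fun x => (∑ b, (if σ b then w x b else 0)) ^ 2) - (Q * Y + (Y : ℝ) ^ 2 * av (fun x => m x ^ 2)) / 4| ≤
      ε * (Q * Y + (Y : ℝ) ^ 2 * av (fun x => m x ^ 2)))).card : ℝ) ≤ ε * (2 : ℝ) ^ Y := by
  haveI : Nonempty (Fin Y) := ⟨⟨0, hY⟩⟩
  have hY0 : (0 : ℝ) < Y := by exact_mod_cast hY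
  set v := av (fun x => m x ^ 2) with hvdef
  set Γ := av (fun x => av (fun y => (av (fun b => w x b * w y b)) ^ 2)) with hΓdef
  have hv0 : 0 ≤ v := av_nonneg fun x => sq_nonneg _
  set T := Q * Y + (Y : ℝ) ^ 2 * v with hT
  have hT0 : 0 < T := by positivity
  have hTQ : Q * Y ≤ T := by
    have : 0 ≤ (Y : ℝ) ^ 2 * v := by positivity
    linarith
  have hT2 : 4 * (Q * Y ^ 3 * v) ≤ T ^ 2 := by
    have := sq_nonneg (Q * Y - Y ^ 2 * v)
    nlinarith
  have hg : av (fun b => gg m w b ^ 2) ≤ v * (√δ * Q) := by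
    have h1 := gg_sq m w
    rw [← hvdef, ← hΓdef] at h1
    have h2 : (av (fun b => gg m w b ^ 2)) ^ 2 ≤ (v * (√δ * Q)) ^ 2 := by
      refine h1.trans ?_
      have e : (v * (√δ * Q)) ^ 2 = v ^ 2 * (δ * Q ^ 2) := by
        rw [mul_pow, mul_pow, Real.sq_sqrt hδ0.le]
      rw [e]
      exact mul_le_mul_of_nonneg_left hΓ (sq_nonneg _)
    exact le_of_sq_le_sq h2 (by positivity)
  -- the decomposition
  have hdec : ∀ σ : Fin Y → Bool, av (fun x => (∑ b, (if σ b then w x b else 0)) ^ 2) =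
      (Y : ℝ) ^ 2 * v / 4 + (∑ b, sg (σ b) * ((Y : ℝ) * gg m w b)) / 2 + (∑ b, av (fun x => w x b ^ 2)) / 4 +
        RT (GG w) σ / 4 := by
    intro σ
    have e1 : ∀ x, ∑ b, (if σ b then w x b else 0) = (Y : ℝ) * m x / 2 + (∑ b, sg (σ b) * w x b) / 2 := by
      intro x
      have h1 : (Y : ℝ) * m x = ∑ b, w x b := by
        rw [hm, av, Fintype.card_fin]
        field_simp
      rw [h1, ← add_div, ← sum_add_distrib, sum_div]
      refine sum_congr rfl fun b _ => ?_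
      unfold sg
      split_ifs <;> ring
    have e2 : (fun x => (∑ b, (if σ b then w x b else 0)) ^ 2) = fun x => ((Y : ℝ) ^ 2 / 4 * m x ^ 2 +
        (∑ b, (sg (σ b) * Y / 2) * (m x * w x b))) + 1 / 4 * (∑ b, ∑ c, (sg (σ b) * sg (σ c)) * (w x b * w x c)) := by
      funext x
      rw [e1]
      have h2 : ∑ b, (sg (σ b) * Y / 2) * (m x * w x b) = (Y : ℝ) / 2 * m x * ∑ b, sg (σ b) * w x b := by
        rw [mul_sum]
        exact sum_congr rfl fun b _ => by ring
      have h3 : ∑ b, ∑ c, (sg (σ b) * sg (σ c)) * (w x b * w x c) = (∑ b, sg (σ b) * w x b) ^ 2 := by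
        rw [sq, sum_mul_sum]
        exact sum_congr rfl fun b _ => sum_congr rfl fun c _ => by ring
      rw [h2, h3]
      ring
    rw [e2, av_add, av_add, av_mul, av_mul, av_sum, av_sum, ← hvdef]
    have h4 : ∑ b, av (fun x => (sg (σ b) * Y / 2) * (m x * w x b)) = (∑ b, sg (σ b) * ((Y : ℝ) * gg m w b)) / 2 := by
      rw [sum_div]
      refine sum_congr rfl fun b _ => ?_
      rw [av_mul]
      unfold gg
      ring
    have h5 : ∑ b, av (fun x => ∑ c, (sg (σ b) * sg (σ c)) * (w x b * w x c)) =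
        ∑ b, ∑ c, sg (σ b) * sg (σ c) * GG w b c := by
      refine sum_congr rfl fun b _ => ?_
      rw [av_sum]
      refine sum_congr rfl fun c _ => ?_
      rw [av_mul]
      rfl
    have h6 : ∑ b, GG w b b = ∑ b, av (fun x => w x b ^ 2) := by
      refine sum_congr rfl fun b _ => ?_
      unfold GG
      congr 1
      funext x
      ring
    rw [h4, h5]
    unfold RT
    rw [h6]
    ring
  set F1 : (Fin Y → Bool) → ℝ := fun σ => (∑ b, sg (σ b) * ((Y : ℝ) * gg m w b)) ^ 2 with hF1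
  set F2 : (Fin Y → Bool) → ℝ := fun σ => RT (GG w) σ ^ 2 with hF2
  have hF1av : av F1 ≤ √δ / 4 * T ^ 2 := by
    rw [hF1, rad_one]
    have e : ∑ b : Fin Y, ((Y : ℝ) * gg m w b) ^ 2 = Y ^ 3 * av (fun b => gg m w b ^ 2) := by
      unfold av
      rw [Fintype.card_fin]
      simp_rw [mul_pow]
      rw [← mul_sum]
      field_simp
    rw [e]
    calc (Y : ℝ) ^ 3 * av (fun b => gg m w b ^ 2) ≤ Y ^ 3 * (v * (√δ * Q)) :=
          mul_le_mul_of_nonneg_left hg (by positivity)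
      _ = √δ / 4 * (4 * (Q * Y ^ 3 * v)) := by ring
      _ ≤ _ := mul_le_mul_of_nonneg_left hT2 (by positivity)
  have hF2av : av F2 ≤ 2 * δ * T ^ 2 := by
    have h1 := rad_two Y (GG w) (GG_symm w)
    have e : ∑ i, ∑ j, GG w i j ^ 2 = Y ^ 2 * Γ := by
      rw [hΓdef, ← GG_sq]
      unfold av
      rw [Fintype.card_fin, ← sum_div]
      field_simp
    rw [e] at h1
    calc av F2 ≤ 2 * (Y ^ 2 * (δ * Q ^ 2)) := by
          refine h1.trans ?_
          have := mul_le_mul_of_nonneg_left hΓ (by positivity : (0 : ℝ) ≤ (Y : ℝ) ^ 2)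
          linarith
      _ = 2 * δ * (Q * Y) ^ 2 := by ring
      _ ≤ _ := mul_le_mul_of_nonneg_left (pow_le_pow_left₀ (by positivity) hTQ 2) (by positivity)
  have hcard : (Fintype.card (Fin Y → Bool) : ℝ) = (2 : ℝ) ^ Y := by
    simp
  have hmk1 := markov (f := F1) (fun a => sq_nonneg _) (t := (ε * T) ^ 2)
    (fun σ => ε * T < |∑ b, sg (σ b) * ((Y : ℝ) * gg m w b)|) (fun σ ha => by
      rw [hF1]
      simp only
      rw [← sq_abs (∑ b, sg (σ b) * ((Y : ℝ) * gg m w b))]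
      exact pow_le_pow_left₀ (by positivity) ha.le 2)
  have hmk2 := markov (f := F2) (fun a => sq_nonneg _) (t := (ε * T) ^ 2)
    (fun σ => ε * T < |RT (GG w) σ|) (fun σ ha => by
      rw [hF2]
      simp only
      rw [← sq_abs (RT (GG w) σ)]
      exact pow_le_pow_left₀ (by positivity) ha.le 2)
  rw [hcard] at hmk1 hmk2
  have hsub : (univ.filter (fun σ : Fin Y → Bool =>
      ¬ |av (fun x => (∑ b, (if σ b then w x b else 0)) ^ 2) - T / 4| ≤ ε * T)) ⊆
      (univ.filter (fun σ : Fin Y → Bool => ε * T < |∑ b, sg (σ b) * ((Y : ℝ) * gg m w b)|)) ∪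
      (univ.filter (fun σ : Fin Y → Bool => ε * T < |RT (GG w) σ|)) := by
    intro σ ha
    rw [mem_filter] at ha
    rw [mem_union, mem_filter, mem_filter]
    by_contra hno
    push Not at hno
    apply ha.2
    have g1 := hno.1 (mem_univ _)
    have g2 := hno.2 (mem_univ _)
    rw [hdec]
    have hs : |∑ b, av (fun x => w x b ^ 2) - Q * Y| ≤ δ * (Q * Y) := by
      have e : ∑ b, av (fun x => w x b ^ 2) - Q * Y = ∑ b, (av (fun x => w x b ^ 2) - Q) := by
        rw [sum_sub_distrib, sum_const, card_univ, Fintype.card_fin, nsmul_eq_mul, mul_comm Q]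
      rw [e]
      refine (abs_sum_le_sum_abs _ _).trans ?_
      refine (sum_le_sum fun i _ => hK i).trans (le_of_eq ?_)
      rw [sum_const, card_univ, Fintype.card_fin, nsmul_eq_mul]
      ring
    have hs2 : δ * (Q * Y) ≤ ε * T := mul_le_mul hδ hTQ (by positivity) (by positivity)
    rw [hT] at *
    rw [abs_le] at *
    constructor <;> linarith [hs.1, hs.2, g1.1, g1.2, g2.1, g2.2]
  have hT20 : 0 < T ^ 2 := by positivity
  have hc1 : ((univ.filter (fun σ : Fin Y → Bool => ε * T < |∑ b, sg (σ b) * ((Y : ℝ) * gg m w b)|)).card : ℝ) ≤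
      ε / 2 * (2 : ℝ) ^ Y := by
    set c := ((univ.filter (fun σ : Fin Y → Bool => ε * T < |∑ b, sg (σ b) * ((Y : ℝ) * gg m w b)|)).card : ℝ)
    have h1 : (ε * T) ^ 2 * c ≤ √δ / 4 * T ^ 2 * 2 ^ Y :=
      hmk1.trans (mul_le_mul_of_nonneg_right hF1av (by positivity))
    have h2 : (ε ^ 2 * T ^ 2) * c ≤ (ε ^ 2 * T ^ 2) * (ε / 2 * (2 : ℝ) ^ Y) := by
      have h3 : √δ / 4 ≤ ε ^ 3 / 2 := by nlinarith [Real.sqrt_nonneg δ]
      have h4 : √δ / 4 * (T ^ 2 * 2 ^ Y) ≤ ε ^ 3 / 2 * (T ^ 2 * 2 ^ Y) := mul_le_mul_of_nonneg_right h3 (by positivity)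
      nlinarith
    exact le_of_mul_le_mul_left h2 (by positivity)
  have hc2 : ((univ.filter (fun σ : Fin Y → Bool => ε * T < |RT (GG w) σ|)).card : ℝ) ≤
      ε / 2 * (2 : ℝ) ^ Y := by
    set c := ((univ.filter (fun σ : Fin Y → Bool => ε * T < |RT (GG w) σ|)).card : ℝ)
    have h1 : (ε * T) ^ 2 * c ≤ 2 * δ * T ^ 2 * 2 ^ Y :=
      hmk2.trans (mul_le_mul_of_nonneg_right hF2av (by positivity))
    have h2 : (ε ^ 2 * T ^ 2) * c ≤ (ε ^ 2 * T ^ 2) * (ε / 2 * (2 : ℝ) ^ Y) := by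
      have h3 : 2 * δ ≤ ε ^ 3 / 2 := by linarith
      have h4 : 2 * δ * (T ^ 2 * 2 ^ Y) ≤ ε ^ 3 / 2 * (T ^ 2 * 2 ^ Y) := mul_le_mul_of_nonneg_right h3 (by positivity)
      nlinarith
    exact le_of_mul_le_mul_left h2 (by positivity)
  calc _ ≤ (((univ.filter (fun σ : Fin Y → Bool => ε * T < |∑ b, sg (σ b) * ((Y : ℝ) * gg m w b)|)) ∪
      (univ.filter (fun σ : Fin Y → Bool => ε * T < |RT (GG w) σ|))).card : ℝ) :=
        Nat.cast_le.2 (card_le_card hsub)
    _ ≤ ((univ.filter (fun σ : Fin Y → Bool => ε * T < |∑ b, sg (σ b) * ((Y : ℝ) * gg m w b)|)).card : ℝ) +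
      ((univ.filter (fun σ : Fin Y → Bool => ε * T < |RT (GG w) σ|)).card : ℝ) := by
        rw [← Nat.cast_add]
        exact Nat.cast_le.2 (card_union_le _ _)
    _ ≤ ε / 2 * (2 : ℝ) ^ Y + ε / 2 * (2 : ℝ) ^ Y := add_le_add hc1 hc2
    _ = _ := by ring

section
variable {α β : Type} [Fintype α] [Nonempty α] [Fintype β] [Nonempty β]

omit [Nonempty α] in
/-- correlations of deviations -/
lemma dev_sq (w : α → β → ℝ) (m : α → ℝ) (hm : ∀ x, m x = av (w x)) :
    av (fun x => av (fun y => (av (fun b => (w x b - m x) * (w y b - m y))) ^ 2)) ≤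
      2 * av (fun x => av (fun y => (av (fun b => w x b * w y b)) ^ 2)) + 2 * (av (fun x => m x ^ 2)) ^ 2 := by
  have e : ∀ x y, av (fun b => (w x b - m x) * (w y b - m y)) = av (fun b => w x b * w y b) - m x * m y := by
    intro x y
    have e1 : (fun b => (w x b - m x) * (w y b - m y)) = fun b => (w x b * w y b - m y * w x b) - m x * (w y b - m y) := by
      funext b
      ring
    rw [e1, av_sub, av_sub, av_mul, av_mul, av_sub, av_const]
    have h1 : av (fun b => w x b) = m x := (hm x).symm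
    have h2 : av (fun b => w y b) = m y := (hm y).symm
    rw [h1, h2]
    ring
  have e2 : 2 * av (fun x => av (fun y => (av (fun b => w x b * w y b)) ^ 2)) + 2 * (av (fun x => m x ^ 2)) ^ 2 =
      av (fun x => av (fun y => 2 * (av (fun b => w x b * w y b)) ^ 2 + 2 * (m x ^ 2 * m y ^ 2))) := by
    rw [av_sq_eq]
    simp_rw [av_add, av_mul]
  rw [e2]
  refine av_mono fun x => av_mono fun y => ?_
  rw [e]
  nlinarith [sq_nonneg (av (fun b => w x b * w y b) + m x * m y)]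

end

lemma card_J {X : ℕ} : ((Icc 1 X).card : ℝ) = X := by
  rw [Nat.card_Icc]
  simp

lemma av_J {X : ℕ} (F : ℕ → ℝ) : av (fun x : Icc 1 X => F x) = 1 / (X : ℝ) * ∑ x ∈ Icc 1 X, F x := by
  rw [av_coe, card_J]
  ring

/-- window means of the von Mangoldt function, centred -/
noncomputable def ml (Y x : ℕ) : ℝ := av (fun b : Fin Y => gl (x + b))

/-- all the inputs -/
theorem lam_inputs (δ : ℝ) (hδ : 0 < δ) : ∃ N₀ : ℕ, ∀ X Y : ℕ, N₀ ≤ Y → Y ≤ X → 1 ≤ Y ∧ 3 ≤ X ∧
    (∀ b : Fin Y, |av (fun x : Icc 1 X => gl (x + b) ^ 2) - Real.log X| ≤ δ * Real.log X) ∧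
    av (fun x : Icc 1 X => ml Y x ^ 2) ≤ δ * Real.log X ∧
    av (fun x : Icc 1 X => av (fun y : Icc 1 X => (av (fun b : Fin Y => gl (x + b) * gl (y + b))) ^ 2)) ≤ δ * Real.log X ^ 2 ∧
    av (fun x : Icc 1 X => av (fun y : Icc 1 X => (av (fun b : Fin Y => (gl (x + b) - ml Y x) * (gl (y + b) - ml Y y))) ^ 2)) ≤
      δ * Real.log X ^ 2 := by
  obtain ⟨N1, h1⟩ := diag_ll δ hδ
  obtain ⟨N2, h2⟩ := pair_triv
  obtain ⟨C, hC, N3, h3⟩ := pair_sum
  set τ : ℝ := min (δ / 200) 1 with hτ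
  have hτ0 : 0 < τ := by positivity
  have hτ1 : τ ≤ 1 := min_le_right _ _
  have hτδ : 200 * τ ≤ δ := by
    have := min_le_left (δ / 200) 1
    rw [← hτ] at this
    linarith
  have hlog := Real.tendsto_log_atTop
  obtain ⟨x0, hx0⟩ := Filter.eventually_atTop.1 (hlog.eventually_ge_atTop (2 * C / τ + 1))
  obtain ⟨N4, hN4⟩ := exists_nat_ge x0
  obtain ⟨N5, hN5⟩ := exists_nat_ge (2 * C / τ)
  refine ⟨N1 + N2 + N3 + N4 + N5 + 3, fun X Y hY hYX => ⟨by omega, by omega, ?_⟩⟩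
  have hX0 : (0 : ℝ) < X := by exact_mod_cast (by omega : 0 < X)
  have hY0 : (0 : ℝ) < Y := by exact_mod_cast (by omega : 0 < Y)
  have : Nonempty (Fin Y) := ⟨⟨0, by omega⟩⟩
  have : Nonempty (Icc 1 X) := ⟨⟨1, by rw [mem_Icc]; omega⟩⟩
  have hL := hx0 X (hN4.trans (by exact_mod_cast (by omega : N4 ≤ X)))
  have hL0 : 0 < Real.log X := by
    have : 0 < 2 * C / τ := by positivity
    linarith
  have hL1 : 2 * C ≤ τ * Real.log X := by
    have : 2 * C / τ ≤ Real.log X := by linarith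
    rw [div_le_iff₀ hτ0] at this
    linarith
  have hY1 : 2 * C ≤ τ * Y := by
    have : 2 * C / τ ≤ Y := hN5.trans (by exact_mod_cast (by omega : N5 ≤ Y))
    rw [div_le_iff₀ hτ0] at this
    linarith
  set w : Icc 1 X → Fin Y → ℝ := fun x b => gl (x + b) with hw
  have hGG : ∀ b c : Fin Y, GG w b c = 1 / (X : ℝ) * ∑ x ∈ Icc 1 X, gl (x + b) * gl (x + c) := by
    intro b c
    unfold GG
    exact av_J (fun x => gl (x + b) * gl (x + c))
  -- mean correlation
  have hE : av (fun b : Fin Y => av (fun c : Fin Y => |GG w b c|)) ≤ τ * Real.log X := by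
    have e1 : ∀ b : Fin Y, av (fun c : Fin Y => |GG w b c|) =
        1 / (X : ℝ) * ((∑ c ∈ range Y, |∑ x ∈ Icc 1 X, gl (x + b) * gl (x + c)|) / Y) := by
      intro b
      have e2 : (fun c : Fin Y => |GG w b c|) = fun c : Fin Y => 1 / (X : ℝ) * |∑ x ∈ Icc 1 X, gl (x + b) * gl (x + c)| := by
        funext c
        rw [hGG, abs_mul, abs_of_pos (by positivity : 0 < 1 / (X : ℝ))]
      rw [e2, av_mul, av_fin (fun c => |∑ x ∈ Icc 1 X, gl (x + b) * gl (x + c)|)]
    simp_rw [e1]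
    rw [av_fin (fun b => 1 / (X : ℝ) * ((∑ c ∈ range Y, |∑ x ∈ Icc 1 X, gl (x + b) * gl (x + c)|) / Y)),
      ← mul_sum, ← sum_div]
    rw [div_le_iff₀ hY0, one_div_mul_eq_div, div_le_iff₀ hX0, div_le_iff₀ hY0]
    refine (h3 X Y (by omega) hYX).trans ?_
    have a1 : C * Y ^ 2 ≤ (τ * Real.log X) / 2 * Y ^ 2 := mul_le_mul_of_nonneg_right (by linarith) (by positivity)
    have a2 : C * (Y * Real.log X) ≤ (τ * Y) / 2 * (Y * Real.log X) := mul_le_mul_of_nonneg_right (by linarith) (by positivity)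
    calc C * X * ((Y : ℝ) ^ 2 + Y * Real.log X) = X * (C * Y ^ 2 + C * (Y * Real.log X)) := by ring
      _ ≤ X * ((τ * Real.log X) / 2 * Y ^ 2 + (τ * Y) / 2 * (Y * Real.log X)) :=
          mul_le_mul_of_nonneg_left (by linarith) hX0.le
      _ = _ := by ring
  have hΓ : av (fun x : Icc 1 X => av (fun y : Icc 1 X => (av (fun b : Fin Y => gl (x + b) * gl (y + b))) ^ 2)) ≤
      49 * τ * Real.log X ^ 2 := by
    have e : av (fun x : Icc 1 X => av (fun y : Icc 1 X => (av (fun b : Fin Y => gl (x + b) * gl (y + b))) ^ 2)) =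
        av (fun b => av (fun c => GG w b c ^ 2)) := (GG_sq w).symm
    rw [e]
    have hb : ∀ b c : Fin Y, GG w b c ^ 2 ≤ (49 * Real.log X) * |GG w b c| := by
      intro b c
      have h4 : |GG w b c| ≤ 49 * Real.log X := by
        rw [hGG, abs_mul, abs_of_pos (by positivity : 0 < 1 / (X : ℝ)), one_div_mul_eq_div, div_le_iff₀ hX0]
        refine (h2 X b c (by omega) (by have := b.2; omega) (by have := c.2; omega)).trans (le_of_eq ?_)
        ring
      rw [← sq_abs, sq]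
      exact mul_le_mul_of_nonneg_right h4 (abs_nonneg _)
    refine (av_mono fun b => av_mono fun c => hb b c).trans ?_
    have e2 : av (fun b : Fin Y => av (fun c : Fin Y => (49 * Real.log X) * |GG w b c|)) =
        (49 * Real.log X) * av (fun b : Fin Y => av (fun c : Fin Y => |GG w b c|)) := by
      simp_rw [av_mul]
    rw [e2]
    calc _ ≤ (49 * Real.log X) * (τ * Real.log X) := mul_le_mul_of_nonneg_left hE (by positivity)
      _ = _ := by ring
  have hv : av (fun x : Icc 1 X => ml Y x ^ 2) ≤ τ * Real.log X := by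
    have e : av (fun x : Icc 1 X => ml Y x ^ 2) = av (fun b : Fin Y => av (fun c : Fin Y => GG w b c)) := by
      have e1 : ∀ x : Icc 1 X, ml Y x ^ 2 = av (fun b : Fin Y => av (fun c : Fin Y => w x b * w x c)) := by
        intro x
        unfold ml
        rw [av_sq_eq]
      simp_rw [e1]
      rw [av_comm]
      congr 1
      funext b
      rw [av_comm]
      rfl
    rw [e]
    exact (av_mono fun b => av_mono fun c => le_abs_self _).trans hE
  have hv0 : 0 ≤ av (fun x : Icc 1 X => ml Y x ^ 2) := av_nonneg fun x => sq_nonneg _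
  refine ⟨?_, ?_, ?_, ?_⟩
  · intro b
    have e : av (fun x : Icc 1 X => gl (x + b) ^ 2) - Real.log X =
        1 / (X : ℝ) * (∑ x ∈ Icc 1 X, gl (x + b) ^ 2 - X * Real.log X) := by
      rw [av_J (fun x => gl (x + b) ^ 2)]
      field_simp
    rw [e, abs_mul, abs_of_pos (by positivity : 0 < 1 / (X : ℝ)), one_div_mul_eq_div, div_le_iff₀ hX0]
    refine (h1 X b (by omega) (by have := b.2; omega)).trans (le_of_eq ?_)
    ring
  · exact hv.trans (mul_le_mul_of_nonneg_right (by linarith) hL0.le)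
  · refine hΓ.trans (mul_le_mul_of_nonneg_right (by linarith) (by positivity))
  · have h5 := dev_sq w (fun x => ml Y x) (fun x => rfl)
    refine h5.trans ?_
    have h6 : (av (fun x : Icc 1 X => ml Y x ^ 2)) ^ 2 ≤ (τ * Real.log X) ^ 2 := pow_le_pow_left₀ hv0 hv 2
    have h7 : (τ * Real.log X) ^ 2 ≤ τ * Real.log X ^ 2 := by
      rw [mul_pow]
      apply mul_le_mul_of_nonneg_right _ (by positivity)
      nlinarith
    have h8 : 100 * τ * Real.log X ^ 2 ≤ δ * Real.log X ^ 2 := mul_le_mul_of_nonneg_right (by linarith) (by positivity)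
    have h9 : 0 ≤ τ * Real.log X ^ 2 := by positivity
    change 2 * av (fun x : Icc 1 X => av (fun y : Icc 1 X => (av (fun b : Fin Y => gl (x + b) * gl (y + b))) ^ 2)) +
      2 * (av (fun x : Icc 1 X => ml Y x ^ 2)) ^ 2 ≤ _
    nlinarith

end Pool.Agent.Q42.RS
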