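import Pool.Agent.Q42.RS.Cf
import Pool.Agent.Q42.RS.Ind

/-!
# Functions with decorrelated shifts
-/

set_option autoImplicit false

namespace Pool.Agent.Q42.RS

open Finset

/-- sums over windows -/
noncomputable def S1 (f : ℕ → ℝ) (Y x : ℕ) : ℝ := ∑ a ∈ range Y, f (x + a)

/-- the mean correlation of two shifts -/
def Pair (f : ℕ → ℝ) (X Y : ℕ) (ε : ℝ) : Prop :=
  ∑ a ∈ range Y, ∑ b ∈ range Y, |∑ x ∈ Ico X (2 * X), f (x + a) * f (x + b)| ≤ ε * X * Y ^ 2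

/-- mean squares over windows -/
def Dens (f : ℕ → ℝ) (q : ℝ) (X Y : ℕ) (ε : ℝ) : Prop :=
  ∑ x ∈ Ico X (2 * X), |∑ a ∈ range Y, f (x + a) ^ 2 - q * Y| ≤ ε * X * Y

section
variable {f : ℕ → ℝ} {q : ℝ} {X Y : ℕ} {ε : ℝ}

lemma sum_window_sq : ∑ x ∈ Ico X (2 * X), (S1 f Y x) ^ 2 =
    ∑ a ∈ range Y, ∑ b ∈ range Y, ∑ x ∈ Ico X (2 * X), f (x + a) * f (x + b) := by
  have e : ∀ x, (S1 f Y x) ^ 2 = ∑ a ∈ range Y, ∑ b ∈ range Y, f (x + a) * f (x + b) := by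
    intro x
    unfold S1
    rw [sq, sum_mul_sum]
  simp_rw [e]
  rw [sum_comm]
  apply sum_congr rfl
  intro a _
  rw [sum_comm]

lemma window_sq_le (h : Pair f X Y ε) : ∑ x ∈ Ico X (2 * X), (S1 f Y x) ^ 2 ≤ ε * X * Y ^ 2 := by
  rw [sum_window_sq]
  refine le_trans ?_ h
  exact sum_le_sum fun a _ => sum_le_sum fun b _ => le_abs_self _

lemma card_I : ((Ico X (2 * X)).card : ℝ) = X := by
  rw [Nat.card_Ico]
  congr 1
  omega

lemma gram (hf : ∀ n, |f n| ≤ 1) (hε : 0 ≤ ε) (h : Pair f X Y ε) :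
    ∑ x ∈ Ico X (2 * X), ∑ y ∈ Ico X (2 * X), |∑ b ∈ range Y, f (x + b) * f (y + b)| ≤ √ε * X ^ 2 * Y := by
  have hX0 : (0 : ℝ) ≤ X := Nat.cast_nonneg _
  have hY0 : (0 : ℝ) ≤ Y := Nat.cast_nonneg _
  have e1 : ∑ x ∈ Ico X (2 * X), ∑ y ∈ Ico X (2 * X), (∑ b ∈ range Y, f (x + b) * f (y + b)) ^ 2 =
      ∑ b ∈ range Y, ∑ b' ∈ range Y, (∑ x ∈ Ico X (2 * X), f (x + b) * f (x + b')) ^ 2 := by
    have h1 : ∀ x y, (∑ b ∈ range Y, f (x + b) * f (y + b)) ^ 2 =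
        ∑ b ∈ range Y, ∑ b' ∈ range Y, (f (x + b) * f (x + b')) * (f (y + b) * f (y + b')) := by
      intro x y
      rw [sq, sum_mul_sum]
      exact sum_congr rfl fun b _ => sum_congr rfl fun b' _ => by ring
    have h2 : ∀ b b', (∑ x ∈ Ico X (2 * X), f (x + b) * f (x + b')) ^ 2 =
        ∑ x ∈ Ico X (2 * X), ∑ y ∈ Ico X (2 * X), (f (x + b) * f (x + b')) * (f (y + b) * f (y + b')) := by
      intro b b'
      rw [sq, sum_mul_sum]
    simp_rw [h1, h2]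
    calc _ = ∑ x ∈ Ico X (2 * X), ∑ b ∈ range Y, ∑ b' ∈ range Y, ∑ y ∈ Ico X (2 * X),
          (f (x + b) * f (x + b')) * (f (y + b) * f (y + b')) := by
            apply sum_congr rfl
            intro x _
            rw [sum_comm]
            apply sum_congr rfl
            intro b _
            rw [sum_comm]
      _ = ∑ b ∈ range Y, ∑ x ∈ Ico X (2 * X), ∑ b' ∈ range Y, ∑ y ∈ Ico X (2 * X),
          (f (x + b) * f (x + b')) * (f (y + b) * f (y + b')) := sum_comm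
      _ = _ := by
            apply sum_congr rfl
            intro b _
            rw [sum_comm]
  have h3 : ∑ b ∈ range Y, ∑ b' ∈ range Y, (∑ x ∈ Ico X (2 * X), f (x + b) * f (x + b')) ^ 2 ≤
      X * (ε * X * Y ^ 2) := by
    calc _ ≤ ∑ b ∈ range Y, ∑ b' ∈ range Y, (X : ℝ) * |∑ x ∈ Ico X (2 * X), f (x + b) * f (x + b')| := by
          refine sum_le_sum fun b _ => sum_le_sum fun b' _ => ?_
          rw [← sq_abs, sq]
          refine mul_le_mul_of_nonneg_right ?_ (abs_nonneg _)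
          refine (abs_sum_le_sum_abs _ _).trans ?_
          calc _ ≤ ∑ x ∈ Ico X (2 * X), (1 : ℝ) := by
                refine sum_le_sum fun x _ => ?_
                rw [abs_mul]
                exact mul_le_one₀ (hf _) (abs_nonneg _) (hf _)
            _ = X := by rw [sum_const, nsmul_eq_mul, mul_one, card_I]
      _ = X * ∑ b ∈ range Y, ∑ b' ∈ range Y, |∑ x ∈ Ico X (2 * X), f (x + b) * f (x + b')| := by
          rw [mul_sum]
          exact sum_congr rfl fun b _ => by rw [mul_sum]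
      _ ≤ _ := mul_le_mul_of_nonneg_left h hX0
  have h4 : (∑ x ∈ Ico X (2 * X), ∑ y ∈ Ico X (2 * X), |∑ b ∈ range Y, f (x + b) * f (y + b)|) ^ 2 ≤
      X ^ 2 * (X * (ε * X * Y ^ 2)) := by
    rw [← sum_product', ← sum_product'] at *
    refine (sq_sum_le_card_mul_sum_sq).trans ?_
    rw [card_product, Nat.cast_mul, card_I, ← sq]
    refine mul_le_mul_of_nonneg_left ?_ (by positivity)
    refine le_trans (le_of_eq ?_) h3
    rw [← e1]
    exact sum_congr rfl fun p _ => sq_abs _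
  have h5 : √ε * X ^ 2 * Y = √(X ^ 2 * (X * (ε * X * Y ^ 2))) := by
    rw [show (X : ℝ) ^ 2 * (X * (ε * X * Y ^ 2)) = ε * (X ^ 2 * Y) ^ 2 by ring, Real.sqrt_mul hε,
      Real.sqrt_sq (by positivity)]
    ring
  rw [h5]
  exact Real.le_sqrt_of_sq_le h4

/-- window means -/
noncomputable def mn (f : ℕ → ℝ) (Y x : ℕ) : ℝ := S1 f Y x / Y

/-- deviations from the window mean -/
noncomputable def dv (f : ℕ → ℝ) (Y x : ℕ) (b : Fin Y) : ℝ := f (x + b) - mn f Y x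

lemma av_fin (F : ℕ → ℝ) : av (fun b : Fin Y => F b) = (∑ b ∈ range Y, F b) / Y := by
  unfold av
  rw [Fintype.card_fin, Fin.sum_univ_eq_sum_range]

lemma av_sub_mn (x : ℕ) : av (fun b : Fin Y => f (x + b)) = mn f Y x := av_fin (fun b => f (x + b))

lemma mn_abs (hf : ∀ n, |f n| ≤ 1) (x : ℕ) : |mn f Y x| ≤ 1 := by
  unfold mn S1
  rw [abs_div, Nat.abs_cast]
  apply div_le_one_of_le₀ _ (Nat.cast_nonneg _)
  refine (abs_sum_le_sum_abs _ _).trans ?_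
  calc _ ≤ ∑ a ∈ range Y, (1 : ℝ) := sum_le_sum fun a _ => hf _
    _ = Y := by simp

lemma dv_abs (hf : ∀ n, |f n| ≤ 1) (x : ℕ) (b : Fin Y) : |dv f Y x b| ≤ 2 := by
  unfold dv
  refine (abs_sub _ _).trans ?_
  have h1 := hf (x + b)
  have h2 := mn_abs (Y := Y) hf x
  linarith

lemma dv_av (hY : 1 ≤ Y) (x : ℕ) : av (dv f Y x) = 0 := by
  haveI : Nonempty (Fin Y) := ⟨⟨0, hY⟩⟩
  unfold dv
  rw [av_sub, av_sub_mn, av_const, sub_self]

lemma dv_cov (hY : 1 ≤ Y) (x y : ℕ) : av (fun b => dv f Y x b * dv f Y y b) =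
    (∑ b ∈ range Y, f (x + b) * f (y + b)) / Y - mn f Y x * mn f Y y := by
  haveI : Nonempty (Fin Y) := ⟨⟨0, hY⟩⟩
  have e : (fun b => dv f Y x b * dv f Y y b) = fun b : Fin Y => (f (x + b) * f (y + b) -
      mn f Y y * f (x + b)) - mn f Y x * (f (y + b) - mn f Y y) := by
    funext b
    unfold dv
    ring
  rw [e, av_sub, av_sub, av_mul, av_mul, av_sub, av_sub_mn, av_sub_mn, av_const,
    av_fin (fun b => f (x + b) * f (y + b))]
  ring

lemma dv_sq (hY : 1 ≤ Y) (x : ℕ) : av (fun b => dv f Y x b ^ 2) =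
    (∑ b ∈ range Y, f (x + b) ^ 2) / Y - mn f Y x ^ 2 := by
  have h := dv_cov (f := f) hY x x
  have e : (fun b => dv f Y x b ^ 2) = fun b => dv f Y x b * dv f Y x b := by
    funext b
    ring
  rw [e, h, sq]
  congr 2
  exact sum_congr rfl fun b _ => by ring

lemma mn_sq_sum (hY : 1 ≤ Y) (h : Pair f X Y ε) : ∑ x ∈ Ico X (2 * X), (mn f Y x) ^ 2 ≤ ε * X := by
  have hY0 : (0 : ℝ) < Y := by exact_mod_cast hY
  have h1 := window_sq_le h
  have e : ∑ x ∈ Ico X (2 * X), (mn f Y x) ^ 2 = (∑ x ∈ Ico X (2 * X), (S1 f Y x) ^ 2) / Y ^ 2 := by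
    rw [sum_div]
    exact sum_congr rfl fun x _ => by unfold mn; rw [div_pow]
  rw [e, div_le_iff₀ (by positivity)]
  exact h1

lemma sum_loc (hY : 1 ≤ Y) (h : Pair f X Y ε) (h2 : Dens f q X Y ε) :
    ∑ x ∈ Ico X (2 * X), |av (fun b => dv f Y x b ^ 2) - q| ≤ 2 * ε * X := by
  have hY0 : (0 : ℝ) < Y := by exact_mod_cast hY
  have h3 : ∀ x, |av (fun b => dv f Y x b ^ 2) - q| ≤
      |∑ a ∈ range Y, f (x + a) ^ 2 - q * Y| / Y + mn f Y x ^ 2 := by
    intro x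
    rw [dv_sq hY]
    have e : (∑ b ∈ range Y, f (x + b) ^ 2) / Y - mn f Y x ^ 2 - q =
        (∑ b ∈ range Y, f (x + b) ^ 2 - q * Y) / Y + (-(mn f Y x ^ 2)) := by
      field_simp
      ring
    rw [e]
    refine (abs_add_le _ _).trans ?_
    rw [abs_neg, abs_of_nonneg (sq_nonneg (mn f Y x)), abs_div, Nat.abs_cast]
  calc _ ≤ ∑ x ∈ Ico X (2 * X), (|∑ a ∈ range Y, f (x + a) ^ 2 - q * Y| / Y + mn f Y x ^ 2) :=
        sum_le_sum fun x _ => h3 x
    _ = (∑ x ∈ Ico X (2 * X), |∑ a ∈ range Y, f (x + a) ^ 2 - q * Y|) / Y + ∑ x ∈ Ico X (2 * X), mn f Y x ^ 2 := by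
        rw [sum_add_distrib, sum_div]
    _ ≤ ε * X + ε * X := by
        refine add_le_add ?_ (mn_sq_sum hY h)
        rw [div_le_iff₀ hY0]
        exact h2
    _ = _ := by ring

lemma sum_cov (hf : ∀ n, |f n| ≤ 1) (hε : 0 ≤ ε) (hY : 1 ≤ Y) (h : Pair f X Y ε) :
    ∑ x ∈ Ico X (2 * X), ∑ y ∈ Ico X (2 * X), |av (fun b => dv f Y x b * dv f Y y b)| ≤ (√ε + ε) * X ^ 2 := by
  have hY0 : (0 : ℝ) < Y := by exact_mod_cast hY
  have hX0 : (0 : ℝ) ≤ X := Nat.cast_nonneg _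
  have h1 := gram hf hε h
  have h2 := mn_sq_sum hY h
  have h3 : (∑ x ∈ Ico X (2 * X), |mn f Y x|) ^ 2 ≤ X * (ε * X) := by
    refine (sq_sum_le_card_mul_sum_sq).trans ?_
    rw [card_I]
    refine mul_le_mul_of_nonneg_left ?_ hX0
    simp_rw [sq_abs]
    exact h2
  calc _ ≤ ∑ x ∈ Ico X (2 * X), ∑ y ∈ Ico X (2 * X),
        (|∑ b ∈ range Y, f (x + b) * f (y + b)| / Y + |mn f Y x| * |mn f Y y|) := by
        refine sum_le_sum fun x _ => sum_le_sum fun y _ => ?_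
        rw [dv_cov hY]
        refine (abs_sub _ _).trans ?_
        rw [abs_div, Nat.abs_cast, abs_mul]
    _ = (∑ x ∈ Ico X (2 * X), ∑ y ∈ Ico X (2 * X), |∑ b ∈ range Y, f (x + b) * f (y + b)|) / Y +
        (∑ x ∈ Ico X (2 * X), |mn f Y x|) ^ 2 := by
        simp_rw [sum_add_distrib, sum_div]
        rw [sq, sum_mul_sum]
    _ ≤ √ε * X ^ 2 + X * (ε * X) := by
        refine add_le_add ?_ h3
        rw [div_le_iff₀ hY0]
        exact h1
    _ = _ := by ring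

/-! ### averages over a subset `E` -/

lemma av_coe {E : Finset ℕ} (F : ℕ → ℝ) : av (fun x : E => F x) = (∑ x ∈ E, F x) / E.card := by
  unfold av
  rw [Fintype.card_coe, sum_coe_sort]

lemma sum_sub_le {E : Finset ℕ} (hE : E ⊆ Ico X (2 * X)) {F : ℕ → ℝ} (hF : ∀ x, 0 ≤ F x) {B η : ℝ} (hη : 0 < η)
    (hX : 1 ≤ X) (hB : 0 ≤ B) (hc : η * X ≤ E.card) (h : ∑ x ∈ Ico X (2 * X), F x ≤ B * X) :
    av (fun x : E => F x) ≤ B / η := by
  have hX0 : (0 : ℝ) < X := by exact_mod_cast hX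
  have hc0 : (0 : ℝ) < E.card := lt_of_lt_of_le (by positivity) hc
  rw [av_coe, div_le_div_iff₀ hc0 hη]
  have h1 : ∑ x ∈ E, F x ≤ B * X := (sum_le_sum_of_subset_of_nonneg hE fun x _ _ => hF x).trans h
  calc (∑ x ∈ E, F x) * η ≤ (B * X) * η := mul_le_mul_of_nonneg_right h1 hη.le
    _ = B * (η * X) := by ring
    _ ≤ _ := mul_le_mul_of_nonneg_left hc hB

lemma A1 (hY : 1 ≤ Y) (hX : 1 ≤ X) (hε : 0 ≤ ε) (h : Pair f X Y ε) (h2 : Dens f q X Y ε) {E : Finset ℕ}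
    (hE : E ⊆ Ico X (2 * X)) {η : ℝ} (hη : 0 < η) (hc : η * X ≤ E.card) :
    av (fun x : E => |av (fun b => dv f Y x b ^ 2) - q|) ≤ 2 * ε / η :=
  sum_sub_le hE (F := fun x => |av (fun b => dv f Y x b ^ 2) - q|) (fun x => abs_nonneg _) hη hX (by positivity) hc
    (sum_loc hY h h2)

lemma A2 (hf : ∀ n, |f n| ≤ 1) (hY : 1 ≤ Y) (hX : 1 ≤ X) (hε : 0 ≤ ε) (h : Pair f X Y ε) {E : Finset ℕ}
    (hE : E ⊆ Ico X (2 * X)) {η : ℝ} (hη : 0 < η) (hc : η * X ≤ E.card) :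
    av (fun x : E => av (fun y : E => |av (fun b => dv f Y x b * dv f Y y b)|)) ≤ (√ε + ε) / η ^ 2 := by
  have hX0 : (0 : ℝ) < X := by exact_mod_cast hX
  have hc0 : (0 : ℝ) < E.card := lt_of_lt_of_le (by positivity) hc
  have h1 : ∀ x : ℕ, av (fun y : E => |av (fun b => dv f Y x b * dv f Y y b)|) =
      (∑ y ∈ E, |av (fun b => dv f Y x b * dv f Y y b)|) / E.card := fun x =>
    av_coe (fun y => |av (fun b => dv f Y x b * dv f Y y b)|)
  simp_rw [h1]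
  rw [av_coe (fun x => (∑ y ∈ E, |av (fun b => dv f Y x b * dv f Y y b)|) / E.card), ← sum_div, div_div,
    div_le_div_iff₀ (by positivity) (by positivity)]
  have h2 : ∑ x ∈ E, ∑ y ∈ E, |av (fun b => dv f Y x b * dv f Y y b)| ≤ (√ε + ε) * X ^ 2 := by
    refine le_trans ?_ (sum_cov hf hε hY h)
    refine (sum_le_sum_of_subset_of_nonneg hE fun x _ _ => sum_nonneg fun y _ => abs_nonneg _).trans ?_
    exact sum_le_sum fun x _ => sum_le_sum_of_subset_of_nonneg hE fun y _ _ => abs_nonneg _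
  have h3 : (η * X) ^ 2 ≤ (E.card : ℝ) * E.card := by
    rw [← sq]
    exact pow_le_pow_left₀ (by positivity) hc 2
  have hs : 0 ≤ √ε + ε := by positivity
  calc _ ≤ ((√ε + ε) * X ^ 2) * η ^ 2 := mul_le_mul_of_nonneg_right h2 (by positivity)
    _ = (√ε + ε) * (η * X) ^ 2 := by ring
    _ ≤ _ := mul_le_mul_of_nonneg_left h3 hs

end

end Pool.Agent.Q42.RS
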