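import Pool.Agent.Q42.RS.Reg

/-!
# Mean squares of sums over random tuples
-/

set_option autoImplicit false

namespace Pool.Agent.Q42.RS

open Finset

section
variable {α β : Type} [Fintype α] [Nonempty α] [Fintype β] [Nonempty β]

/-- correlations of the deviations -/
noncomputable def GG (d : α → β → ℝ) (b c : β) : ℝ := av (fun x => d x b * d x c)

/-- correlations of the means and the deviations -/
noncomputable def gg (m : α → ℝ) (d : α → β → ℝ) (b : β) : ℝ := av (fun x => m x * d x b)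

omit [Nonempty α] [Nonempty β] [Fintype β] in
lemma GG_symm (d : α → β → ℝ) (b c : β) : GG d b c = GG d c b := by
  unfold GG
  congr 1
  funext x
  ring

omit [Nonempty α] [Nonempty β] in
lemma GG_av (d : α → β → ℝ) (hd : ∀ x, av (d x) = 0) (b : β) : av (GG d b) = 0 := by
  have e : av (GG d b) = av (fun x => av (fun c => d x b * d x c)) := by
    unfold GG
    rw [av_comm]
  rw [e]
  have e2 : ∀ x, av (fun c => d x b * d x c) = 0 := fun x => by
    rw [av_mul, hd, mul_zero]
  simp_rw [e2]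
  simp [av]

omit [Nonempty α] [Nonempty β] in
lemma gg_av (m : α → ℝ) (d : α → β → ℝ) (hd : ∀ x, av (d x) = 0) : av (gg m d) = 0 := by
  have e : av (gg m d) = av (fun x => av (fun c => m x * d x c)) := by
    unfold gg
    rw [av_comm]
  rw [e]
  have e2 : ∀ x, av (fun c => m x * d x c) = 0 := fun x => by
    rw [av_mul, hd, mul_zero]
  simp_rw [e2]
  simp [av]

omit [Nonempty α] in
lemma av_sq_eq (f : α → ℝ) : (av f) ^ 2 = av (fun x => av (fun y => f x * f y)) := by
  have e : ∀ x, av (fun y => f x * f y) = f x * av f := fun x => av_mul (f x) f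
  simp_rw [e]
  rw [av_mul_right, sq]

omit [Nonempty α] [Nonempty β] in
lemma GG_sq (d : α → β → ℝ) : av (fun b => av (fun c => GG d b c ^ 2)) =
    av (fun x => av (fun y => (av (fun b => d x b * d y b)) ^ 2)) := by
  have e1 : ∀ b c, GG d b c ^ 2 = av (fun x => av (fun y => d x b * d x c * (d y b * d y c))) := by
    intro b c
    unfold GG
    rw [av_sq_eq]
  have e2 : ∀ x y, (av (fun b => d x b * d y b)) ^ 2 = av (fun b => av (fun c => d x b * d x c * (d y b * d y c))) := by
    intro x y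
    rw [av_sq_eq]
    congr 1
    funext b
    congr 1
    funext c
    ring
  simp_rw [e1, e2]
  calc av (fun b => av (fun c => av (fun x => av (fun y => d x b * d x c * (d y b * d y c))))) =
      av (fun b => av (fun x => av (fun c => av (fun y => d x b * d x c * (d y b * d y c))))) := by
        congr 1
        funext b
        rw [av_comm]
    _ = av (fun x => av (fun b => av (fun c => av (fun y => d x b * d x c * (d y b * d y c))))) := by rw [av_comm]
    _ = av (fun x => av (fun b => av (fun y => av (fun c => d x b * d x c * (d y b * d y c))))) := by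
        congr 1
        funext x
        congr 1
        funext b
        rw [av_comm]
    _ = _ := by
        congr 1
        funext x
        rw [av_comm]

omit [Nonempty α] [Nonempty β] in
lemma gg_sq (m : α → ℝ) (d : α → β → ℝ) : (av (fun b => gg m d b ^ 2)) ^ 2 ≤
    (av (fun x => m x ^ 2)) ^ 2 * av (fun x => av (fun y => (av (fun b => d x b * d y b)) ^ 2)) := by
  have hp : ∀ F : α → α → ℝ, av (fun p : α × α => F p.1 p.2) = av (fun x => av (fun y => F x y)) := by
    intro F
    unfold av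
    rw [Fintype.sum_prod_type, Fintype.card_prod, ← sum_div, div_div]
    push_cast
    rfl
  have e : av (fun b => gg m d b ^ 2) = av (fun p : α × α => (m p.1 * m p.2) * av (fun b => d p.1 b * d p.2 b)) := by
    rw [hp (fun x y => (m x * m y) * av (fun b => d x b * d y b))]
    have e1 : ∀ b, gg m d b ^ 2 = av (fun x => av (fun y => m x * m y * (d x b * d y b))) := by
      intro b
      unfold gg
      rw [av_sq_eq]
      congr 1
      funext x
      congr 1
      funext y
      ring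
    simp_rw [e1]
    rw [av_comm]
    congr 1
    funext x
    rw [av_comm]
    congr 1
    funext y
    rw [av_mul]
  rw [e]
  refine (av_mul_sq _ _).trans (le_of_eq ?_)
  rw [hp (fun x y => (m x * m y) ^ 2), hp (fun x y => (av (fun b => d x b * d y b)) ^ 2), av_sq_eq]
  congr 1
  congr 1
  funext x
  congr 1
  funext y
  ring

omit [Nonempty α] [Nonempty β] [Fintype β] in
/-- the decomposition of the mean square of a sum over a tuple -/
lemma decomp (m : α → ℝ) (d : α → β → ℝ) {H : ℕ} (a : Fin H → β) :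
    av (fun x => (∑ i, (d x (a i) + m x)) ^ 2) = ∑ i, av (fun x => (d x (a i) + m x) ^ 2) - H * av (fun x => m x ^ 2) +
      2 * (H - 1) * ∑ i, gg m d (a i) + TT (GG d) a + H ^ 2 * av (fun x => m x ^ 2) := by
  have h1 : av (fun x => (∑ i, (d x (a i) + m x)) ^ 2) = ∑ i, ∑ j, GG d (a i) (a j) + 2 * H * ∑ i, gg m d (a i) +
      H ^ 2 * av (fun x => m x ^ 2) := by
    have e : (fun x => (∑ i, (d x (a i) + m x)) ^ 2) = fun x => (∑ i, ∑ j, d x (a i) * d x (a j) +
        2 * H * ∑ i, m x * d x (a i)) + H ^ 2 * m x ^ 2 := by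
      funext x
      rw [sum_add_distrib, sum_const, card_univ, Fintype.card_fin, nsmul_eq_mul, add_sq, sq (∑ i, d x (a i)),
        sum_mul_sum, ← mul_sum]
      ring
    rw [e, av_add, av_add, av_mul, av_mul, av_sum, av_sum]
    unfold GG gg
    congr 2
    refine sum_congr rfl fun i _ => ?_
    rw [av_sum]
  have h2 : ∀ b : β, av (fun x => (d x b + m x) ^ 2) = GG d b b + 2 * gg m d b + av (fun x => m x ^ 2) := by
    intro b
    have e : (fun x => (d x b + m x) ^ 2) = fun x => (d x b * d x b + 2 * (m x * d x b)) + m x ^ 2 := by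
      funext x
      ring
    rw [e, av_add, av_add, av_mul]
    rfl
  rw [h1]
  simp_rw [h2]
  rw [sum_add_distrib, sum_add_distrib, sum_const, card_univ, Fintype.card_fin, nsmul_eq_mul, ← mul_sum]
  unfold TT
  ring

open scoped Classical in
/-- **mean squares for almost all tuples** -/
theorem var_main (m : α → ℝ) (d : α → β → ℝ) (hd : ∀ x, av (d x) = 0) (Q δ ε : ℝ) (hQ : 0 < Q) (hε : 0 < ε)
    (hδ0 : 0 < δ) (hδ : δ ≤ ε / 6) (hδ2 : 9 * √δ + 18 * δ ≤ ε ^ 3)
    (hK : ∀ b, |av (fun x => (d x b + m x) ^ 2) - Q| ≤ δ * Q)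
    (hv : av (fun x => m x ^ 2) ≤ δ * Q)
    (hΓ : av (fun x => av (fun y => (av (fun b => d x b * d y b)) ^ 2)) ≤ δ * Q ^ 2) (H : ℕ) (hH : 1 ≤ H) :
    ((univ.filter (fun a : Fin H → β => ¬ |av (fun x => (∑ i, (d x (a i) + m x)) ^ 2) - (Q * H + H ^ 2 * av (fun x => m x ^ 2))| ≤
      ε * (Q * H + H ^ 2 * av (fun x => m x ^ 2)))).card : ℝ) ≤ ε * (Fintype.card β : ℝ) ^ H := by
  set v := av (fun x => m x ^ 2) with hvdef
  set Γ := av (fun x => av (fun y => (av (fun b => d x b * d y b)) ^ 2)) with hΓdef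
  have hv0 : 0 ≤ v := av_nonneg fun x => sq_nonneg _
  have hΓ0 : 0 ≤ Γ := av_nonneg fun x => av_nonneg fun y => sq_nonneg _
  have hH0 : (1 : ℝ) ≤ H := by exact_mod_cast hH
  set T := Q * H + H ^ 2 * v with hT
  have hT0 : 0 < T := by positivity
  have hTQ : Q * H ≤ T := by
    have : 0 ≤ (H : ℝ) ^ 2 * v := by positivity
    linarith
  have hT2 : 4 * (Q * H ^ 3 * v) ≤ T ^ 2 := by
    have := sq_nonneg (Q * H - H ^ 2 * v)
    nlinarith
  have hg : av (fun b => gg m d b ^ 2) ≤ v * (√δ * Q) := by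
    have h1 := gg_sq m d
    rw [← hvdef, ← hΓdef] at h1
    have h2 : (av (fun b => gg m d b ^ 2)) ^ 2 ≤ (v * (√δ * Q)) ^ 2 := by
      refine h1.trans ?_
      have e : (v * (√δ * Q)) ^ 2 = v ^ 2 * (δ * Q ^ 2) := by
        rw [mul_pow, mul_pow, Real.sq_sqrt hδ0.le]
      rw [e]
      exact mul_le_mul_of_nonneg_left hΓ (sq_nonneg _)
    exact le_of_sq_le_sq h2 (by positivity)
  set F1 : (Fin H → β) → ℝ := fun a => ((2 * ((H : ℝ) - 1)) * ∑ i, gg m d (a i)) ^ 2 with hF1
  set F2 : (Fin H → β) → ℝ := fun a => TT (GG d) a ^ 2 with hF2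
  have hF1av : av F1 ≤ √δ * T ^ 2 := by
    have e : av F1 = (2 * ((H : ℝ) - 1)) ^ 2 * (H * av (fun b => gg m d b ^ 2)) := by
      rw [hF1, ← av_sumsq (gg m d) (gg_av m d hd) H, ← av_mul]
      congr 1
      funext a
      rw [mul_pow]
    rw [e]
    have h1 : (2 * ((H : ℝ) - 1)) ^ 2 ≤ 4 * H ^ 2 := by nlinarith
    have h2 : 0 ≤ av (fun b => gg m d b ^ 2) := av_nonneg fun b => sq_nonneg _
    calc (2 * ((H : ℝ) - 1)) ^ 2 * (H * av (fun b => gg m d b ^ 2)) ≤ (4 * H ^ 2) * (H * (v * (√δ * Q))) :=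
          mul_le_mul h1 (mul_le_mul_of_nonneg_left hg (by positivity)) (by positivity) (by positivity)
      _ = √δ * (4 * (Q * H ^ 3 * v)) := by ring
      _ ≤ √δ * T ^ 2 := mul_le_mul_of_nonneg_left hT2 (Real.sqrt_nonneg _)
  have hF2av : av F2 ≤ 2 * δ * T ^ 2 := by
    have e : av F2 = 2 * (H * (H - 1)) * Γ := by
      rw [hF2, av_TT (GG d) (GG_symm d) (GG_av d hd) H, GG_sq]
    rw [e]
    have h1 : 2 * ((H : ℝ) * (H - 1)) ≤ 2 * H ^ 2 := by nlinarith
    calc 2 * ((H : ℝ) * (H - 1)) * Γ ≤ (2 * H ^ 2) * (δ * Q ^ 2) := mul_le_mul h1 hΓ hΓ0 (by positivity)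
      _ = 2 * δ * (Q * H) ^ 2 := by ring
      _ ≤ 2 * δ * T ^ 2 := mul_le_mul_of_nonneg_left (pow_le_pow_left₀ (by positivity) hTQ 2) (by positivity)
  have hcard : (Fintype.card (Fin H → β) : ℝ) = (Fintype.card β : ℝ) ^ H := by
    simp
  have hmk1 := markov (f := F1) (fun a => sq_nonneg _) (t := (ε / 3 * T) ^ 2)
    (fun a => ε / 3 * T < |(2 * ((H : ℝ) - 1)) * ∑ i, gg m d (a i)|) (fun a ha => by
      rw [hF1]
      simp only
      rw [← sq_abs ((2 * ((H : ℝ) - 1)) * ∑ i, gg m d (a i))]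
      exact pow_le_pow_left₀ (by positivity) ha.le 2)
  have hmk2 := markov (f := F2) (fun a => sq_nonneg _) (t := (ε / 3 * T) ^ 2)
    (fun a => ε / 3 * T < |TT (GG d) a|) (fun a ha => by
      rw [hF2]
      simp only
      rw [← sq_abs (TT (GG d) a)]
      exact pow_le_pow_left₀ (by positivity) ha.le 2)
  rw [hcard] at hmk1 hmk2
  have hsub : (univ.filter (fun a : Fin H → β => ¬ |av (fun x => (∑ i, (d x (a i) + m x)) ^ 2) - T| ≤ ε * T)) ⊆
      (univ.filter (fun a : Fin H → β => ε / 3 * T < |(2 * ((H : ℝ) - 1)) * ∑ i, gg m d (a i)|)) ∪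
      (univ.filter (fun a : Fin H → β => ε / 3 * T < |TT (GG d) a|)) := by
    intro a ha
    rw [mem_filter] at ha
    rw [mem_union, mem_filter, mem_filter]
    by_contra hno
    push Not at hno
    apply ha.2
    have g1 := hno.1 (mem_univ _)
    have g2 := hno.2 (mem_univ _)
    rw [decomp, ← hvdef]
    have hs : |∑ i, av (fun x => (d x (a i) + m x) ^ 2) - Q * H| ≤ δ * (Q * H) := by
      have e : ∑ i, av (fun x => (d x (a i) + m x) ^ 2) - Q * H = ∑ i, (av (fun x => (d x (a i) + m x) ^ 2) - Q) := by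
        rw [sum_sub_distrib, sum_const, card_univ, Fintype.card_fin, nsmul_eq_mul, mul_comm Q]
      rw [e]
      refine (abs_sum_le_sum_abs _ _).trans ?_
      refine (sum_le_sum fun i _ => hK (a i)).trans (le_of_eq ?_)
      rw [sum_const, card_univ, Fintype.card_fin, nsmul_eq_mul]
      ring
    have hs2 : δ * (Q * H) ≤ ε / 6 * T := mul_le_mul hδ hTQ (by positivity) (by positivity)
    have hs3 : H * v ≤ ε / 6 * T := by
      calc H * v ≤ H * (δ * Q) := mul_le_mul_of_nonneg_left hv (by positivity)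
        _ = δ * (Q * H) := by ring
        _ ≤ _ := hs2
    have hs4 : 0 ≤ H * v := by positivity
    rw [hT] at *
    rw [abs_le] at *
    constructor <;> linarith [hs.1, hs.2, g1.1, g1.2, g2.1, g2.2]
  have hc1 : ((univ.filter (fun a : Fin H → β => ε / 3 * T < |(2 * ((H : ℝ) - 1)) * ∑ i, gg m d (a i)|)).card : ℝ) ≤
      9 * √δ / ε ^ 2 * (Fintype.card β : ℝ) ^ H := by
    have h1 := hmk1.trans (mul_le_mul_of_nonneg_right hF1av (by positivity))
    rw [show 9 * √δ / ε ^ 2 * (Fintype.card β : ℝ) ^ H = (9 * √δ * (Fintype.card β : ℝ) ^ H) / ε ^ 2 by ring,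
      le_div_iff₀ (by positivity)]
    have h2 : 0 < T ^ 2 := by positivity
    have h3 : T ^ 2 * (((univ.filter (fun a : Fin H → β => ε / 3 * T < |(2 * ((H : ℝ) - 1)) * ∑ i, gg m d (a i)|)).card : ℝ) * ε ^ 2) ≤
        T ^ 2 * (9 * √δ * (Fintype.card β : ℝ) ^ H) := by
      nlinarith
    exact le_of_mul_le_mul_left h3 h2
  have hc2 : ((univ.filter (fun a : Fin H → β => ε / 3 * T < |TT (GG d) a|)).card : ℝ) ≤
      18 * δ / ε ^ 2 * (Fintype.card β : ℝ) ^ H := by
    have h1 := hmk2.trans (mul_le_mul_of_nonneg_right hF2av (by positivity))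
    rw [show 18 * δ / ε ^ 2 * (Fintype.card β : ℝ) ^ H = (18 * δ * (Fintype.card β : ℝ) ^ H) / ε ^ 2 by ring,
      le_div_iff₀ (by positivity)]
    have h2 : 0 < T ^ 2 := by positivity
    have h3 : T ^ 2 * (((univ.filter (fun a : Fin H → β => ε / 3 * T < |TT (GG d) a|)).card : ℝ) * ε ^ 2) ≤
        T ^ 2 * (18 * δ * (Fintype.card β : ℝ) ^ H) := by
      nlinarith
    exact le_of_mul_le_mul_left h3 h2
  calc _ ≤ (((univ.filter (fun a : Fin H → β => ε / 3 * T < |(2 * ((H : ℝ) - 1)) * ∑ i, gg m d (a i)|)) ∪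
      (univ.filter (fun a : Fin H → β => ε / 3 * T < |TT (GG d) a|))).card : ℝ) := by
        exact Nat.cast_le.2 (card_le_card hsub)
    _ ≤ ((univ.filter (fun a : Fin H → β => ε / 3 * T < |(2 * ((H : ℝ) - 1)) * ∑ i, gg m d (a i)|)).card : ℝ) +
      ((univ.filter (fun a : Fin H → β => ε / 3 * T < |TT (GG d) a|)).card : ℝ) := by
        rw [← Nat.cast_add]
        exact Nat.cast_le.2 (card_union_le _ _)
    _ ≤ 9 * √δ / ε ^ 2 * (Fintype.card β : ℝ) ^ H + 18 * δ / ε ^ 2 * (Fintype.card β : ℝ) ^ H :=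
        add_le_add hc1 hc2
    _ = (9 * √δ + 18 * δ) / ε ^ 2 * (Fintype.card β : ℝ) ^ H := by ring
    _ ≤ ε * (Fintype.card β : ℝ) ^ H := by
        refine mul_le_mul_of_nonneg_right ?_ (by positivity)
        rw [div_le_iff₀ (by positivity)]
        calc _ ≤ ε ^ 3 := hδ2
          _ = _ := by ring

end

end Pool.Agent.Q42.RS
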