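import Pool.Agent.Q42.RS.Mu
import Pool.Agent.Q42.RS.Var

/-!
# Mean squares of the Möbius function over random subsets of windows
-/

set_option autoImplicit false

namespace Pool.Agent.Q42.RS

open Finset

/-- squarefree numbers in long shifted windows -/
theorem diag_mu (ε : ℝ) (hε : 0 < ε) :
    ∃ N₀ : ℕ, ∀ X b : ℕ, N₀ ≤ X → b ≤ X →
      |∑ x ∈ Ico X (2 * X), mu (x + b) ^ 2 - 6 / Real.pi ^ 2 * X| ≤ ε * X := by
  obtain ⟨D, hD⟩ := exists_nat_ge (8 / ε + 1)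
  obtain ⟨N, hN⟩ := exists_nat_ge (2 * D / ε)
  have hD1 : 1 ≤ D := by
    have : (0 : ℝ) < D := lt_of_lt_of_le (by positivity) hD
    exact_mod_cast this
  have hD0 : (0 : ℝ) < D := by exact_mod_cast hD1
  refine ⟨D + N + 1, fun X b hX hb => ?_⟩
  have hX0 : (0 : ℝ) < X := by exact_mod_cast (by omega : 0 < X)
  have e : ∑ x ∈ Ico X (2 * X), mu (x + b) ^ 2 = ∑ a ∈ range X, mu (X + b + a) ^ 2 := by
    rw [sum_Ico_eq_sum_range]
    have : 2 * X - X = X := by omega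
    rw [this]
    exact sum_congr rfl fun a _ => by rw [show X + a + b = X + b + a by omega]
  rw [e]
  refine (mu_window D X (X + b) X hD1 (by omega) (by omega)).trans ?_
  have h2 : ∑ a ∈ range X, ∑ d ∈ Ioc D (3 * X), (if d ^ 2 ∣ X + b + a then (1 : ℝ) else 0) ≤ ((3 * X : ℕ) : ℝ) / D := by
    have e2 : ∑ a ∈ range X, ∑ d ∈ Ioc D (3 * X), (if d ^ 2 ∣ X + b + a then (1 : ℝ) else 0) =
        ∑ n ∈ Ico (X + b) (X + b + X), ∑ d ∈ Ioc D (3 * X), (if d ^ 2 ∣ n then (1 : ℝ) else 0) := by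
      rw [sum_Ico_eq_sum_range]
      simp
    rw [e2]
    apply mult_tail D (3 * X) hD1
    intro n hn
    rw [mem_Ico] at hn
    omega
  push_cast at h2
  have h4 : 8 ≤ ε * D := by
    have : 8 / ε ≤ D := by linarith
    rw [div_le_iff₀ hε] at this
    linarith
  have h5 : 2 * D ≤ ε * X := by
    have : 2 * D / ε ≤ X := hN.trans (by exact_mod_cast (by omega : N ≤ X))
    rw [div_le_iff₀ hε] at this
    linarith
  have h7 : (X : ℝ) / D ≤ ε / 8 * X := by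
    rw [div_le_iff₀ hD0]
    nlinarith
  have h8 : 3 * (X : ℝ) / D = 3 * (X / D) := by ring
  rw [h8] at h2
  linarith

lemma av_I {X : ℕ} (F : ℕ → ℝ) : av (fun x : Ico X (2 * X) => F x) = 1 / (X : ℝ) * ∑ x ∈ Ico X (2 * X), F x := by
  rw [av_coe, card_I]
  ring

open scoped Classical in
/-- **mean squares of bounded sequences over almost all tuples** -/
theorem var_gen {f : ℕ → ℝ} {q : ℝ} (hq : 0 < q) (hf : ∀ n, |f n| ≤ 1)
    (hpair : ∀ ε : ℝ, 0 < ε → ∃ N₀ : ℕ, ∀ X Y : ℕ, N₀ ≤ X → N₀ ≤ Y → Y ≤ X → Pair f X Y ε)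
    (hdiag : ∀ ε : ℝ, 0 < ε → ∃ N₀ : ℕ, ∀ X b : ℕ, N₀ ≤ X → b ≤ X → |∑ x ∈ Ico X (2 * X), f (x + b) ^ 2 - q * X| ≤ ε * X)
    (ε : ℝ) (hε : 0 < ε) :
    ∃ N₀ : ℕ, ∀ X Y H : ℕ, N₀ ≤ Y → Y ≤ X → 1 ≤ H →
      ((univ.filter (fun a : Fin H → Fin Y =>
        ¬ |1 / (X : ℝ) * ∑ x ∈ Ico X (2 * X), (∑ i, f (x + a i)) ^ 2 -
          (q * H + H ^ 2 * (1 / (X : ℝ) * ∑ x ∈ Ico X (2 * X), mn f Y x ^ 2))| ≤
          ε * (q * H + H ^ 2 * (1 / (X : ℝ) * ∑ x ∈ Ico X (2 * X), mn f Y x ^ 2)))).card : ℝ) ≤ ε * (Y : ℝ) ^ H := by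
  obtain ⟨δ, hδ0, hδ1, hδ2⟩ : ∃ δ : ℝ, 0 < δ ∧ δ ≤ ε / 6 ∧ 9 * √δ + 18 * δ ≤ ε ^ 3 := by
    refine ⟨min (ε / 6) (min (ε ^ 3 / 36) ((ε ^ 3 / 18) ^ 2)), by positivity, min_le_left _ _, ?_⟩
    have h1 : √(min (ε / 6) (min (ε ^ 3 / 36) ((ε ^ 3 / 18) ^ 2))) ≤ ε ^ 3 / 18 := by
      apply Real.sqrt_le_iff.2
      exact ⟨by positivity, (min_le_right _ _).trans (min_le_right _ _)⟩
    have h2 : min (ε / 6) (min (ε ^ 3 / 36) ((ε ^ 3 / 18) ^ 2)) ≤ ε ^ 3 / 36 :=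
      (min_le_right _ _).trans (min_le_left _ _)
    linarith
  -- a small parameter for the pair correlations
  obtain ⟨η, hη0, hη1, hη2⟩ : ∃ η : ℝ, 0 < η ∧ η ≤ δ * q ∧ 4 * (√η + η) ≤ δ * q ^ 2 := by
    refine ⟨min (δ * q) (min (δ * q ^ 2 / 8) ((δ * q ^ 2 / 8) ^ 2)), by positivity, min_le_left _ _, ?_⟩
    have h1 : √(min (δ * q) (min (δ * q ^ 2 / 8) ((δ * q ^ 2 / 8) ^ 2))) ≤ δ * q ^ 2 / 8 := by
      apply Real.sqrt_le_iff.2
      exact ⟨by positivity, (min_le_right _ _).trans (min_le_right _ _)⟩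
    have h2 : min (δ * q) (min (δ * q ^ 2 / 8) ((δ * q ^ 2 / 8) ^ 2)) ≤ δ * q ^ 2 / 8 :=
      (min_le_right _ _).trans (min_le_left _ _)
    linarith
  obtain ⟨N₁, h1⟩ := hpair η hη0
  obtain ⟨N₂, h2⟩ := hdiag (δ * q) (by positivity)
  refine ⟨N₁ + N₂ + 1, fun X Y H hY hYX hH => ?_⟩
  have hX0 : (0 : ℝ) < X := by exact_mod_cast (by omega : 0 < X)
  have hY0 : (0 : ℝ) < Y := by exact_mod_cast (by omega : 0 < Y)
  have hP := h1 X Y (by omega) (by omega) hYX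
  haveI : Nonempty (Fin Y) := ⟨⟨0, by omega⟩⟩
  haveI : Nonempty (Ico X (2 * X)) := ⟨⟨X, by rw [mem_Ico]; omega⟩⟩
  have hwt : ∀ (x : ℕ) (b : Fin Y), dv f Y x b + mn f Y x = f (x + b) := fun x b => by
    unfold dv
    ring
  have key := var_main (α := Ico X (2 * X)) (β := Fin Y) (fun x => mn f Y x) (fun x b => dv f Y x b)
    (fun x => dv_av (by omega) x) q δ ε hq hε hδ0 hδ1 hδ2 ?_ ?_ ?_ H hH
  · rw [Fintype.card_fin] at key
    refine le_trans (le_of_eq ?_) key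
    congr 2
    apply filter_congr
    intro a _
    have e1 : av (fun x : Ico X (2 * X) => (∑ i, (dv f Y x (a i) + mn f Y x)) ^ 2) =
        1 / (X : ℝ) * ∑ x ∈ Ico X (2 * X), (∑ i, f (x + a i)) ^ 2 := by
      rw [av_I (fun x => (∑ i, (dv f Y x (a i) + mn f Y x)) ^ 2)]
      simp_rw [hwt]
    have e2 : av (fun x : Ico X (2 * X) => mn f Y x ^ 2) = 1 / (X : ℝ) * ∑ x ∈ Ico X (2 * X), mn f Y x ^ 2 :=
      av_I (fun x => mn f Y x ^ 2)
    rw [e1, e2]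
  · intro b
    have e : av (fun x : Ico X (2 * X) => (dv f Y x b + mn f Y x) ^ 2) - q =
        1 / (X : ℝ) * (∑ x ∈ Ico X (2 * X), f (x + b) ^ 2 - q * X) := by
      rw [av_I (fun x => (dv f Y x b + mn f Y x) ^ 2)]
      simp_rw [hwt]
      field_simp
    rw [e, abs_mul, abs_of_pos (by positivity : 0 < 1 / (X : ℝ))]
    have := h2 X b (by omega) (by have := b.2; omega)
    calc 1 / (X : ℝ) * |∑ x ∈ Ico X (2 * X), f (x + b) ^ 2 - q * X| ≤ 1 / (X : ℝ) * (δ * q * X) :=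
          mul_le_mul_of_nonneg_left this (by positivity)
      _ = δ * q := by field_simp
  · rw [av_I (fun x => mn f Y x ^ 2)]
    have := mn_sq_sum (by omega) hP
    calc 1 / (X : ℝ) * ∑ x ∈ Ico X (2 * X), mn f Y x ^ 2 ≤ 1 / (X : ℝ) * (η * X) :=
          mul_le_mul_of_nonneg_left this (by positivity)
      _ = η := by field_simp
      _ ≤ _ := hη1
  · have h3 := A2 hf (by omega : 1 ≤ Y) (by omega : 1 ≤ X) hη0.le hP (E := Ico X (2 * X)) (Subset.refl _)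
      (η := 1) one_pos (by rw [card_I]; linarith)
    have h4 : ∀ x y : ℕ, (av (fun b => dv f Y x b * dv f Y y b)) ^ 2 ≤ 4 * |av (fun b => dv f Y x b * dv f Y y b)| := by
      intro x y
      have h5 : |av (fun b => dv f Y x b * dv f Y y b)| ≤ 4 := by
        refine (abs_av_le _).trans (av_le fun b => ?_)
        rw [abs_mul]
        have := dv_abs (Y := Y) hf x b
        have := dv_abs (Y := Y) hf y b
        nlinarith [abs_nonneg (dv f Y x b), abs_nonneg (dv f Y y b)]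
      rw [← sq_abs]
      nlinarith [abs_nonneg (av (fun b => dv f Y x b * dv f Y y b))]
    calc av (fun x : Ico X (2 * X) => av (fun y : Ico X (2 * X) => (av (fun b => dv f Y x b * dv f Y y b)) ^ 2)) ≤
        av (fun x : Ico X (2 * X) => av (fun y : Ico X (2 * X) => 4 * |av (fun b => dv f Y x b * dv f Y y b)|)) :=
          av_mono fun x => av_mono fun y => h4 x y
      _ = 4 * av (fun x : Ico X (2 * X) => av (fun y : Ico X (2 * X) => |av (fun b => dv f Y x b * dv f Y y b)|)) := by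
          rw [← av_mul]
          congr 1
          funext x
          rw [av_mul]
      _ ≤ 4 * ((√η + η) / 1 ^ 2) := mul_le_mul_of_nonneg_left h3 (by norm_num)
      _ ≤ _ := by
          rw [one_pow, div_one]
          exact hη2

end Pool.Agent.Q42.RS
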